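import Mathlib

namespace Pool.Agent.Lib.MP_ec19ea_al

/-- The `n`-th cyclotomic field `Q_n` inside the complex numbers: the field generated by the
`n`-th roots of unity. -/
noncomputable def cyc (n : ℕ) : IntermediateField ℚ ℂ :=
  IntermediateField.adjoin ℚ {z : ℂ | z ^ n = 1}

/-- The field generated by the values of `χ` on the set `S`; `valField χ Set.univ` is the field
of values `Q(χ)`. -/
noncomputable def valField {G : Type*} (χ : G → ℂ) (S : Set G) : IntermediateField ℚ ℂ :=
  IntermediateField.adjoin ℚ (χ '' S)

/-- The conductor of an abelian number field `F`: the least `n > 0` with `F ⊆ Q_n`. -/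
noncomputable def conductor (F : IntermediateField ℚ ℂ) : ℕ :=
  sInf {n : ℕ | 0 < n ∧ F ≤ cyc n}

end Pool.Agent.Lib.MP_ec19ea_al
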