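import Pool.Agent.Lib.MP_ec19ea_al.Gal

open Polynomial Finset

namespace Pool.Agent.Lib.MP_ec19ea_al

theorem exists_fixed {α : Type*} {p r : ℕ} [Fact p.Prime] (S : Finset α) (f : α → α) (m : α → ℕ)
    (h1 : ∀ x ∈ S, f x ∈ S) (h2 : ∀ x ∈ S, f^[p ^ r] x = x) (h3 : ∀ x ∈ S, m (f x) = m x)
    (h4 : ¬ p ∣ ∑ x ∈ S, m x) : ∃ x ∈ S, m x ≠ 0 ∧ f x = x := by
  classical
  let T : Finset (α × ℕ) := S.biUnion fun x => (range (m x)).image fun i => (x, i)
  have hT : ∀ y, y ∈ T ↔ y.1 ∈ S ∧ y.2 < m y.1 := by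
    rintro ⟨x, i⟩
    simp only [T, mem_biUnion, mem_image, mem_range, Prod.mk.injEq]
    constructor
    · rintro ⟨a, ha, j, hj, rfl, rfl⟩; exact ⟨ha, hj⟩
    · rintro ⟨ha, hj⟩; exact ⟨x, ha, i, hj, rfl, rfl⟩
  have hc : T.card = ∑ x ∈ S, m x := by
    rw [card_biUnion]
    · refine sum_congr rfl fun x _ => ?_
      rw [card_image_of_injective _ (fun i j h => (Prod.mk.inj h).2), card_range]
    · intro x _ y _ hxy
      rw [Function.onFun, disjoint_left]
      intro a ha hb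
      simp only [mem_image, mem_range] at ha hb
      obtain ⟨i, -, rfl⟩ := ha
      obtain ⟨j, -, hj⟩ := hb
      exact hxy (Prod.mk.inj hj).1.symm
  let g : Function.End T := fun y => ⟨(f y.1.1, y.1.2), (hT _).2
    ⟨h1 _ ((hT _).1 y.2).1, by rw [h3 _ ((hT _).1 y.2).1]; exact ((hT _).1 y.2).2⟩⟩
  have hg : ∀ n (y : T), ((g ^ n) y).1 = (f^[n] y.1.1, y.1.2) := by
    intro n
    induction n with
    | zero => intro y; rfl
    | succ n ih =>
      intro y
      rw [pow_succ, Function.End.mul_def, Function.comp_apply, ih, Function.iterate_succ_apply]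
  have hp : g ^ p ^ r = 1 := by
    funext y
    apply Subtype.ext
    rw [hg, h2 _ ((hT _).1 y.2).1]; rfl
  have := Equiv.Perm.card_fixedPoints_modEq hp
  rw [Fintype.card_coe, hc] at this
  have hne : Fintype.card (Function.fixedPoints g) ≠ 0 := by
    intro h0
    rw [h0] at this
    exact h4 ((Nat.modEq_zero_iff_dvd).1 this)
  obtain ⟨⟨y, hy⟩⟩ := Fintype.card_pos_iff.1 (Nat.pos_of_ne_zero hne)
  have h5 := (hT _).1 y.2
  refine ⟨y.1.1, h5.1, by omega, ?_⟩
  have : (g y).1 = y.1 := congrArg Subtype.val hy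
  exact congrArg Prod.fst this

theorem sum_roots_pow {N j : ℕ} (hN : 0 < N) (hj : j < N) :
    ∑ η ∈ nthRootsFinset N (1 : ℂ), η⁻¹ ^ j = if j = 0 then (N : ℂ) else 0 := by
  have hζ := Complex.isPrimitiveRoot_exp N hN.ne'
  set ζ := Complex.exp (2 * Real.pi * Complex.I / N)
  split_ifs with h
  · simp [h, hζ.card_nthRootsFinset]
  · have h0 : ζ ≠ 0 := hζ.ne_zero hN.ne'
    have h1 : ζ ^ j ≠ 1 := hζ.pow_ne_one_of_pos_of_lt h hj
    have h2 : ∑ η ∈ nthRootsFinset N (1 : ℂ), η⁻¹ ^ j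
        = ∑ η ∈ nthRootsFinset N (1 : ℂ), ζ ^ j * η⁻¹ ^ j := by
      refine sum_bij' (fun η _ => ζ * η) (fun η _ => ζ⁻¹ * η) ?_ ?_ ?_ ?_ ?_
      · intro η h
        rw [mem_nthRootsFinset hN] at h ⊢
        rw [mul_pow, h, hζ.pow_eq_one, one_mul]
      · intro η h
        rw [mem_nthRootsFinset hN] at h ⊢
        rw [mul_pow, h, inv_pow, hζ.pow_eq_one, inv_one, one_mul]
      · intro η _; field_simp
      · intro η _; field_simp
      · intro η _
        rw [← mul_pow, mul_inv, ← mul_assoc, mul_inv_cancel₀ h0, one_mul]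
    rw [← mul_sum] at h2
    by_contra h3
    exact h1 (by
      have := mul_right_cancel₀ h3 ((one_mul _).trans h2)
      exact this.symm)

variable {V : Type*} [AddCommGroup V] [Module ℂ V]

/-- spectral projection -/
noncomputable def sp (X : Module.End ℂ V) (N : ℕ) (η : ℂ) : Module.End ℂ V :=
  (N : ℂ)⁻¹ • ∑ j ∈ range N, η⁻¹ ^ j • X ^ j

theorem mul_sp {X : Module.End ℂ V} {N : ℕ} (hN : 0 < N) (hX : X ^ N = 1) {η : ℂ}
    (hη : η ^ N = 1) : X * sp X N η = η • sp X N η := by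
  have h0 : η ≠ 0 := by
    rintro rfl
    rw [zero_pow hN.ne'] at hη; exact zero_ne_one hη
  unfold sp
  rw [mul_smul_comm, smul_comm η, mul_sum]
  congr 1
  have h1 := sum_range_succ (fun j => η⁻¹ ^ j • X ^ j) N
  have h2 := sum_range_succ' (fun j => η⁻¹ ^ j • X ^ j) N
  rw [inv_pow, hη, hX] at h1
  simp only [pow_zero, inv_one] at h1 h2
  rw [← add_right_cancel (h2.symm.trans h1), smul_sum]
  refine sum_congr rfl fun j _ => ?_
  rw [mul_smul_comm, smul_smul, ← pow_succ', pow_succ' η⁻¹, ← mul_assoc, mul_inv_cancel₀ h0,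
    one_mul]

theorem pow_mul_sp {X : Module.End ℂ V} {N : ℕ} (hN : 0 < N) (hX : X ^ N = 1) {η : ℂ}
    (hη : η ^ N = 1) (j : ℕ) : X ^ j * sp X N η = η ^ j • sp X N η := by
  induction j with
  | zero => simp
  | succ j ih => rw [pow_succ', mul_assoc, ih, mul_smul_comm, mul_sp hN hX hη, smul_smul, pow_succ]

theorem sp_idem {X : Module.End ℂ V} {N : ℕ} (hN : 0 < N) (hX : X ^ N = 1) {η : ℂ}
    (hη : η ^ N = 1) : sp X N η * sp X N η = sp X N η := by
  have h0 : η ≠ 0 := by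
    rintro rfl
    rw [zero_pow hN.ne'] at hη; exact zero_ne_one hη
  have hN' : (N : ℂ) ≠ 0 := Nat.cast_ne_zero.2 hN.ne'
  have : ∀ Y : Module.End ℂ V, (∀ j, X ^ j * Y = η ^ j • Y) → sp X N η * Y = Y := by
    intro Y hY
    unfold sp
    rw [smul_mul_assoc, sum_mul]
    have : ∀ j ∈ range N, (η⁻¹ ^ j • X ^ j) * Y = Y := by
      intro j _
      rw [smul_mul_assoc, hY, smul_smul, ← mul_pow, inv_mul_cancel₀ h0, one_pow, one_smul]
    rw [sum_congr rfl this, sum_const, card_range, ← Nat.cast_smul_eq_nsmul ℂ, smul_smul,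
      inv_mul_cancel₀ hN', one_smul]
  exact this _ (pow_mul_sp hN hX hη)

theorem sum_sp (X : Module.End ℂ V) {N : ℕ} (hN : 0 < N) :
    ∑ η ∈ nthRootsFinset N (1 : ℂ), sp X N η = 1 := by
  have hN' : (N : ℂ) ≠ 0 := Nat.cast_ne_zero.2 hN.ne'
  unfold sp
  rw [← smul_sum, sum_comm]
  have : ∀ j ∈ range N, ∑ η ∈ nthRootsFinset N (1 : ℂ), η⁻¹ ^ j • X ^ j
      = if j = 0 then (N : ℂ) • (1 : Module.End ℂ V) else 0 := by
    intro j hj
    rw [← sum_smul, sum_roots_pow hN (mem_range.1 hj)]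
    split_ifs with h <;> simp [h]
  rw [sum_congr rfl this, sum_ite_eq', if_pos (mem_range.2 hN), smul_smul, inv_mul_cancel₀ hN',
    one_smul]

theorem commute_sp {X e : Module.End ℂ V} (h : Commute X e) (N : ℕ) (η : ℂ) :
    Commute (sp X N η) e := by
  unfold sp
  refine Commute.smul_left (Commute.sum_left _ _ _ fun j _ => ?_) _
  exact (h.pow_left j).smul_left _

variable [FiniteDimensional ℂ V]

theorem exists_mult {X e : Module.End ℂ V} {N : ℕ} (hN : 0 < N) (hX : X ^ N = 1)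
    (he : e * e = e) (h : Commute X e) :
    ∃ m : ℂ → ℕ,
      (∀ j, LinearMap.trace ℂ V (X ^ j * e) = ∑ η ∈ nthRootsFinset N (1 : ℂ), m η * η ^ j) ∧
      (∀ η, η ^ N = 1 → (N : ℂ) * m η
        = ∑ j ∈ range N, η⁻¹ ^ j * LinearMap.trace ℂ V (X ^ j * e)) ∧
      (∀ η, η ^ N = 1 → m η ≠ 0 → ∀ j c, X ^ j * e = c • e → η ^ j = c) := by
  have hN' : (N : ℂ) ≠ 0 := Nat.cast_ne_zero.2 hN.ne'
  have key : ∀ η, η ^ N = 1 → LinearMap.trace ℂ V (sp X N η * e)
      = (Module.finrank ℂ (LinearMap.range (sp X N η * e)) : ℂ) := by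
    intro η hη
    have : IsIdempotentElem (sp X N η * e) :=
      IsIdempotentElem.mul_of_commute (commute_sp h N η) (sp_idem hN hX hη) he
    exact (LinearMap.IsIdempotentElem.isProj_range _ this).trace
  refine ⟨fun η => Module.finrank ℂ (LinearMap.range (sp X N η * e)), fun j => ?_,
    fun η hη => ?_, fun η hη h0 j c hc => ?_⟩
  · conv_lhs => rw [← mul_one (X ^ j), ← sum_sp X hN, mul_sum, sum_mul, map_sum]
    refine sum_congr rfl fun η hη => ?_
    rw [mem_nthRootsFinset hN] at hη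
    rw [pow_mul_sp hN hX hη, smul_mul_assoc, map_smul, key η hη, smul_eq_mul, mul_comm]
  · rw [← key η hη]
    unfold sp
    rw [smul_mul_assoc, map_smul, smul_eq_mul, ← mul_assoc, mul_inv_cancel₀ hN', one_mul, sum_mul,
      map_sum]
    refine sum_congr rfl fun j _ => ?_
    rw [smul_mul_assoc, map_smul, smul_eq_mul]
  · have h1 : sp X N η * e ≠ 0 := by
      intro h2
      apply h0
      have h4 := key η hη
      rw [h2, map_zero] at h4
      show Module.finrank ℂ (LinearMap.range (sp X N η * e)) = 0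
      rw [h2]
      exact_mod_cast h4.symm
    have h2 : X ^ j * (sp X N η * e) = η ^ j • (sp X N η * e) := by
      rw [← mul_assoc, pow_mul_sp hN hX hη, smul_mul_assoc]
    have h3 : X ^ j * (sp X N η * e) = c • (sp X N η * e) := by
      rw [← mul_assoc, ← (commute_sp (Commute.refl X |>.pow_right j) N η).eq, mul_assoc, hc,
        mul_smul_comm]
    exact smul_left_injective ℂ h1 (h2.symm.trans h3)

theorem iter_fix {p r : ℕ} (hp : p.Prime) (τ : ℂ →+* ℂ) (hτ : ∀ z : ℂ, z ^ p = 1 → τ z = z)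
    {z : ℂ} (hz : z ^ p ^ r = 1) : τ^[p ^ r] z = z := by
  have hM : 0 < p ^ (r + 1) := pow_pos hp.pos _
  obtain ⟨k, -, hk⟩ := exists_pow_of_hom τ hM
  have h1 : k ≡ 1 [MOD p] := modEq_one_of_fix hM (dvd_pow_self p (by omega)) hk hτ
  have hz' : z ^ p ^ (r + 1) = 1 := by rw [pow_succ, pow_mul, hz, one_pow]
  have h2 : ∀ n, τ^[n] z = z ^ k ^ n := by
    intro n
    induction n with
    | zero => simp
    | succ n ih =>
      rw [Function.iterate_succ_apply', ih, map_pow, hk z hz', ← pow_mul, pow_succ']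
  have h3 : k ^ p ^ r ≡ 1 [MOD p ^ (r + 1)] := by
    have := dvd_sub_pow_of_dvd_sub (R := ℤ) (a := 1) (b := k) (p := p) h1.dvd r
    rw [Nat.modEq_iff_dvd]
    simpa using this
  rw [h2, pow_eq_of_modEq hz' h3, pow_one]

/-- a fixed eigenvalue -/
theorem exists_fixed_eig {X e : Module.End ℂ V} {p r : ℕ} [hp : Fact p.Prime] (hX : X ^ p ^ r = 1)
    (he : e * e = e) (h : Commute X e) {d : ℕ} (hd : LinearMap.trace ℂ V e = d) (hpd : ¬ p ∣ d)
    (τ : ℂ →+* ℂ) (hτ : ∀ z : ℂ, z ^ p = 1 → τ z = z)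
    (hfix : ∀ j, τ (LinearMap.trace ℂ V (X ^ j * e)) = LinearMap.trace ℂ V (X ^ j * e)) :
    ∃ η : ℂ, η ^ p ^ r = 1 ∧ τ η = η ∧ ∀ j c, X ^ j * e = c • e → η ^ j = c := by
  have hN : 0 < p ^ r := pow_pos hp.out.pos _
  obtain ⟨m, h1, h2, h3⟩ := exists_mult hN hX he h
  have hN' : ((p ^ r : ℕ) : ℂ) ≠ 0 := Nat.cast_ne_zero.2 hN.ne'
  obtain ⟨η, hη, a1, a2⟩ := exists_fixed (p := p) (r := r) (nthRootsFinset (p ^ r) (1 : ℂ)) τ m
    (fun x hx => by
      rw [mem_nthRootsFinset hN] at hx ⊢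
      rw [← map_pow, hx, map_one])
    (fun x hx => iter_fix hp.out τ hτ ((mem_nthRootsFinset hN _).1 hx))
    (fun x hx => by
      rw [mem_nthRootsFinset hN] at hx
      have a := h2 (τ x) (by rw [← map_pow, hx, map_one])
      have b := congrArg τ (h2 x hx)
      simp only [map_mul, map_natCast, map_sum, map_pow, map_inv₀, hfix] at b
      exact_mod_cast mul_left_cancel₀ hN' (a.trans b.symm))
    (by
      have := h1 0
      simp only [pow_zero, one_mul, mul_one, hd] at this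
      have : d = ∑ η ∈ nthRootsFinset (p ^ r) (1 : ℂ), m η := by exact_mod_cast this
      rwa [← this])
  rw [mem_nthRootsFinset hN] at hη
  exact ⟨η, hη, a2, h3 η hη a1⟩

theorem eq_one_of_twist {X e : Module.End ℂ V} {p r : ℕ} [hp : Fact p.Prime] (hX : X ^ p ^ r = 1)
    (he : e * e = e) (h : Commute X e) {d : ℕ} (hd : LinearMap.trace ℂ V e = d) (hpd : ¬ p ∣ d)
    {c : ℂ} (hc : c ^ p ^ r = 1)
    (hfix : ∀ j, c ^ j * LinearMap.trace ℂ V (X ^ j * e) = LinearMap.trace ℂ V (X ^ j * e)) :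
    c = 1 := by
  have hN : 0 < p ^ r := pow_pos hp.out.pos _
  obtain ⟨m, h1, h2, h3⟩ := exists_mult hN hX he h
  have hN' : ((p ^ r : ℕ) : ℂ) ≠ 0 := Nat.cast_ne_zero.2 hN.ne'
  have c0 : c ≠ 0 := by
    rintro rfl
    rw [zero_pow hN.ne'] at hc; exact zero_ne_one hc
  obtain ⟨η, hη, -, a2⟩ := exists_fixed (p := p) (r := r) (nthRootsFinset (p ^ r) (1 : ℂ))
    (fun x => c * x) m
    (fun x hx => by
      rw [mem_nthRootsFinset hN] at hx ⊢
      rw [mul_pow, hx, hc, one_mul])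
    (fun x _ => by rw [mul_left_iterate, hc]; exact one_mul x)
    (fun x hx => by
      rw [mem_nthRootsFinset hN] at hx
      have a := h2 (c * x) (by rw [mul_pow, hx, hc, one_mul])
      have b := h2 x hx
      have : ∑ j ∈ range (p ^ r), (c * x)⁻¹ ^ j * LinearMap.trace ℂ V (X ^ j * e)
          = ∑ j ∈ range (p ^ r), x⁻¹ ^ j * LinearMap.trace ℂ V (X ^ j * e) := by
        refine sum_congr rfl fun j _ => ?_
        conv_lhs => rw [← hfix j]
        rw [← mul_assoc, ← mul_pow]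
        congr 2
        field_simp
      exact_mod_cast mul_left_cancel₀ hN' ((a.trans this).trans b.symm))
    (by
      have := h1 0
      simp only [pow_zero, one_mul, mul_one, hd] at this
      have : d = ∑ η ∈ nthRootsFinset (p ^ r) (1 : ℂ), m η := by exact_mod_cast this
      rwa [← this])
  rw [mem_nthRootsFinset hN] at hη
  have : η ≠ 0 := by
    rintro rfl
    rw [zero_pow hN.ne'] at hη; exact zero_ne_one hη
  exact mul_right_cancel₀ this (a2.trans (one_mul η).symm)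

theorem trace_mem {X e : Module.End ℂ V} {N M : ℕ} (hN : 0 < N) (hX : X ^ N = 1)
    (he : e * e = e) (h : Commute X e) (hM : X ^ M * e = e) :
    LinearMap.trace ℂ V (X * e) ∈ cyc M := by
  obtain ⟨m, h1, -, h3⟩ := exists_mult hN hX he h
  have := h1 1
  rw [pow_one] at this
  rw [this]
  refine sum_mem fun η hη => ?_
  rw [mem_nthRootsFinset hN] at hη
  by_cases h0 : m η = 0
  · simp [h0]
  · rw [pow_one]
    exact mul_mem (natCast_mem _ _) (mem_cyc (h3 η hη h0 M 1 (by rw [hM, one_smul])))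

theorem trace_facts {X : Module.End ℂ V} {N : ℕ} (hN : 0 < N) (hX : X ^ N = 1) :
    IsIntegral ℤ (LinearMap.trace ℂ V X) ∧
    (∀ (τ : ℂ →+* ℂ) (k : ℕ), (∀ z : ℂ, z ^ N = 1 → τ z = z ^ k) →
      τ (LinearMap.trace ℂ V X) = LinearMap.trace ℂ V (X ^ k)) := by
  obtain ⟨m, h1, -, -⟩ := exists_mult (e := 1) hN hX (mul_one _) (Commute.one_right X)
  simp only [mul_one] at h1
  have h2 := h1 1
  simp only [pow_one] at h2
  refine ⟨?_, fun τ k hk => ?_⟩
  · rw [h2]
    refine IsIntegral.sum _ fun η hη => ?_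
    rw [mem_nthRootsFinset hN] at hη
    exact (isIntegral_algebraMap (R := ℤ) (A := ℂ) (x := (m η : ℤ))).mul (alg_of_pow hN hη) |>
      (by simpa using ·)
  · rw [h2, h1 k, map_sum]
    refine sum_congr rfl fun η hη => ?_
    rw [mem_nthRootsFinset hN] at hη
    rw [map_mul, map_natCast, hk η hη]

end Pool.Agent.Lib.MP_ec19ea_al
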