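import Pool.Agent.Lib.MP_ec19ea_al.Wt

open Finset
open scoped Pointwise

namespace Pool.Agent.Lib.MP_ec19ea_al

attribute [local instance] act

variable {G : Type*} [Group G] [Finite G] {p : ℕ} [hp : Fact p.Prime]

omit [Finite G] in
theorem pow_eq_one_of_pgroup {r N : ℕ} (hG : Nat.card G = p ^ r * N) (hN : ¬ p ∣ N)
    {Q : Subgroup G} (hQ : IsPGroup p Q) {u : G} (hu : u ∈ Q) : u ^ p ^ r = 1 := by
  obtain ⟨k, hk⟩ := IsPGroup.iff_orderOf.1 hQ ⟨u, hu⟩
  rw [Subgroup.orderOf_mk] at hk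
  have h1 : p ^ k ∣ p ^ r * N := by rw [← hk, ← hG]; exact orderOf_dvd_natCard u
  have h2 : p ^ k ∣ p ^ r := (Nat.Coprime.pow_left k
    ((Nat.Prime.coprime_iff_not_dvd hp.out).2 hN)).dvd_of_dvd_mul_right h1
  exact orderOf_dvd_iff_pow_eq_one.1 (hk ▸ h2)

theorem exists_conj_le (P : Sylow p G) {Q : Subgroup G} (hQ : IsPGroup p Q) :
    ∃ t : G, ∀ u ∈ Q, t * u * t⁻¹ ∈ P := by
  obtain ⟨S, hS⟩ := hQ.exists_le_sylow
  obtain ⟨t, rfl⟩ := MulAction.exists_smul_eq G S P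
  exact ⟨t, fun u hu => Subgroup.smul_mem_pointwise_smul u (MulAut.conj t) (S : Subgroup G) (hS hu)⟩

theorem exists_conj_mem (P : Sylow p G) {u : G} {r : ℕ} (hu : u ^ p ^ r = 1) :
    ∃ t : G, t * u * t⁻¹ ∈ P := by
  have : IsPGroup p (Subgroup.zpowers u) := by
    rintro ⟨x, k, rfl⟩
    refine ⟨r, Subtype.ext ?_⟩
    show (u ^ k) ^ p ^ r = 1
    rw [← zpow_natCast, ← zpow_mul, mul_comm, zpow_mul, zpow_natCast, hu, one_zpow]
  obtain ⟨t, ht⟩ := exists_conj_le P this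
  exact ⟨t, ht u (Subgroup.mem_zpowers u)⟩

variable {V : Type*} [AddCommGroup V] [Module ℂ V] [FiniteDimensional ℂ V]
  (ρ : Representation ℂ G V)

theorem comm_of_normal (hinj : Function.Injective ρ)
    (hirr : ∀ f : Module.End ℂ V, (∀ g, ρ g * f = f * ρ g) → ∃ c : ℂ, f = c • 1)
    (hd : ¬ p ∣ Module.finrank ℂ V) (A : Subgroup G) [hA : A.Normal] (hpA : IsPGroup p A) :
    ∀ x ∈ A, ∀ y ∈ A, x * y = y * x := by
  classical
  by_contra hne
  push Not at hne
  obtain ⟨x0, hx0, y0, hy0, hne⟩ := hne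
  have hnt : Nontrivial (A ⧸ Subgroup.center A) := by
    refine ⟨⟨(⟨x0, hx0⟩ : A), 1, fun h => hne ?_⟩⟩
    rw [QuotientGroup.eq_one_iff, Subgroup.mem_center_iff] at h
    exact (congrArg Subtype.val (h ⟨y0, hy0⟩)).symm
  have := (hpA.to_quotient (Subgroup.center A)).center_nontrivial
  obtain ⟨⟨a', ha'⟩, ha1⟩ := exists_ne (1 : Subgroup.center (A ⧸ Subgroup.center A))
  obtain ⟨a, rfl⟩ := QuotientGroup.mk_surjective a'
  have ha2 : a ∉ Subgroup.center A := fun h => ha1 (Subtype.ext ((QuotientGroup.eq_one_iff a).2 h))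
  rw [Subgroup.mem_center_iff] at ha2
  push Not at ha2
  obtain ⟨b, hb⟩ := ha2
  have hy : a * b * a⁻¹ * b⁻¹ ∈ Subgroup.center A := by
    rw [← QuotientGroup.eq_one_iff]
    have := Subgroup.mem_center_iff.1 ha' (b : A ⧸ Subgroup.center A)
    simp only [QuotientGroup.mk_mul, QuotientGroup.mk_inv]
    rw [← this]; group
  let K : Subgroup G := A ⊓ Subgroup.centralizer (A : Set G)
  have hKn : K.Normal := inferInstance
  have hK : ∀ x ∈ K, ∀ y ∈ K, x * y = y * x := fun x hx y hy => hy.2 x hx.1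
  let _ : Fintype K := Fintype.ofFinite K
  let _ : Fintype (K →* ℂˣ) := Fintype.ofFinite _
  let y : K := ⟨a * b * a⁻¹ * b⁻¹, by
    refine ⟨(a * b * a⁻¹ * b⁻¹ : A).2, fun z hz => ?_⟩
    exact congrArg Subtype.val (Subgroup.mem_center_iff.1 hy ⟨z, hz⟩)⟩
  obtain ⟨-, m, hm, htr⟩ := wt_count ρ K hK hirr hd
  have hfix : ∀ (g : A) (μ : K →* ℂˣ), (g : G) • μ = μ := by
    intro g μ
    ext k
    rw [act_apply]
    congr 2
    ext
    have := k.2.2 g g.2
    simp only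
    rw [mul_assoc, ← this, inv_mul_cancel_left]
  have hcomm : ∀ (g : A) (μ : K →* ℂˣ), Commute (ρ g) (wt ρ K μ) := by
    intro g μ
    have := conj_wt ρ K g μ
    rwa [hfix] at this
  obtain ⟨r, hr⟩ := IsPGroup.iff_card.1 hpA
  have hpow : ∀ g : A, (g : G) ^ p ^ r = 1 := fun g => by
    rw [← hr]; exact congrArg Subtype.val (pow_card_eq_one' (x := g))
  have h1 : ∀ μ, wt ρ K μ ≠ 0 → (μ y : ℂ) = 1 := by
    intro μ hμ
    refine eq_one_of_twist (X := ρ b) (r := r) (by rw [← map_pow, hpow, map_one]) (wt_idem ρ K μ)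
      (hcomm b μ) (htr μ hμ) hm ?_ fun j => ?_
    · have : y ^ p ^ r = 1 := Subtype.ext (hpow (a * b * a⁻¹ * b⁻¹))
      rw [← Units.val_pow_eq_pow_val, ← map_pow, this, map_one, Units.val_one]
    · have e1 : ∀ j, ρ (a * b * (a : G)⁻¹) ^ j * wt ρ K μ = (μ y : ℂ) ^ j • (ρ b ^ j * wt ρ K μ) := by
        intro j
        induction j with
        | zero => simp
        | succ j ih =>
          have e0 : ρ (a * b * (a : G)⁻¹) = ρ y * ρ b := by
            rw [← map_mul]; congr 1; simp [y]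
          rw [pow_succ', mul_assoc, ih, mul_smul_comm, e0, mul_assoc, ← mul_assoc (ρ b),
            ← pow_succ', ((hcomm b μ).pow_left (j + 1)).eq, ← mul_assoc, mul_wt, smul_mul_assoc,
            smul_smul, ← pow_succ]
      rw [← smul_eq_mul, ← map_smul, ← e1, ← map_pow, conj_pow, map_mul ρ, map_mul ρ, mul_assoc,
        mul_assoc, LinearMap.trace_mul_comm, mul_assoc, mul_assoc, map_pow ρ]
      congr 2
      have := (hcomm a μ).eq
      rw [← this, ← mul_assoc, ← map_mul, inv_mul_cancel, map_one, one_mul]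
  have h2 : ρ y = ρ 1 := by
    rw [map_one, ← mul_one (ρ y), ← sum_wt ρ K hK, mul_sum]
    refine sum_congr rfl fun μ _ => ?_
    by_cases h : wt ρ K μ = 0
    · rw [h, mul_zero]
    · rw [mul_wt, h1 μ h, one_smul]
  have h3 : (a : G) * b * (a : G)⁻¹ * (b : G)⁻¹ = 1 := hinj h2
  apply hb
  apply Subtype.ext
  rw [mul_inv_eq_one, mul_inv_eq_iff_eq_mul] at h3
  exact h3.symm

theorem fix_of_eig {τ : ℂ →+* ℂ} {η : ℂ} {r a : ℕ} (h1 : η ^ p ^ r = 1) (h2 : τ η = η)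
    (h3 : η ^ p ^ a ≠ 1) {z : ℂ} (hz : z ^ p ^ (a + 1) = 1) : τ z = z := by
  obtain ⟨s, -, hs⟩ := (Nat.dvd_prime_pow hp.out).1 (orderOf_dvd_of_pow_eq_one h1)
  have h4 : a + 1 ≤ s := by
    by_contra h
    exact h3 (orderOf_dvd_iff_pow_eq_one.1 (hs ▸ pow_dvd_pow p (by omega)))
  have h5 : IsPrimitiveRoot η (p ^ s) := hs ▸ IsPrimitiveRoot.orderOf η
  have : NeZero (p ^ s) := ⟨(pow_pos hp.out.pos _).ne'⟩
  obtain ⟨i, -, rfl⟩ := h5.eq_pow_of_pow_eq_one (ξ := z) (by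
    obtain ⟨c, hc⟩ := pow_dvd_pow p h4
    rw [hc, pow_mul, hz, one_pow])
  rw [map_pow, h2]

theorem dichotomy (hinj : Function.Injective ρ)
    (hirr : ∀ f : Module.End ℂ V, (∀ g, ρ g * f = f * ρ g) → ∃ c : ℂ, f = c • 1)
    (hd : ¬ p ∣ Module.finrank ℂ V) (P : Sylow p G) (A : Subgroup G) [hA : A.Normal]
    (hAP : A ≤ P) {a : ℕ} (hq : ∀ g ∈ P, g ^ p ^ a ∈ A)
    {r N : ℕ} (hG : ∀ g : G, (g ^ N) ^ p ^ r = 1) (hN : 0 < N)
    (hP : ∀ g ∈ P, g ^ p ^ r = 1)
    (τ : ℂ →+* ℂ) (hτ : ∀ z : ℂ, z ^ p = 1 → τ z = z)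
    (hχ : ∀ g ∈ P, τ (ρ.character g) = ρ.character g) :
    (∀ z : ℂ, z ^ p ^ (a + 1) = 1 → τ z = z) ∨ ∀ g, ρ.character g ∈ cyc (p ^ a * N) := by
  classical
  have hK := comm_of_normal ρ hinj hirr hd A (P.isPGroup'.to_le hAP)
  let _ : Fintype A := Fintype.ofFinite A
  let _ : Fintype (A →* ℂˣ) := Fintype.ofFinite _
  obtain ⟨hΩ, m, hm, htr⟩ := wt_count ρ A hK hirr hd
  let T : (A →* ℂˣ) → (A →* ℂˣ) := fun μ => (Units.map (τ : ℂ →* ℂ)).comp μ
  have hT : ∀ μ k, (T μ k : ℂ) = τ (μ k) := fun _ _ => rfl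
  have htrace : ∀ (g : G) μ, LinearMap.trace ℂ V (ρ g * wt ρ A μ)
      = (Fintype.card A : ℂ)⁻¹ * ∑ k : A, ((μ k : ℂ))⁻¹ * ρ.character (g * k) := by
    intro g μ
    unfold wt
    rw [mul_smul_comm, map_smul, mul_sum, map_sum, smul_eq_mul]
    congr 1
    refine sum_congr rfl fun k _ => ?_
    rw [mul_smul_comm, map_smul, smul_eq_mul, ← map_mul]; rfl
  have hTtr : ∀ g ∈ P, ∀ μ, τ (LinearMap.trace ℂ V (ρ g * wt ρ A μ))
      = LinearMap.trace ℂ V (ρ g * wt ρ A (T μ)) := by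
    intro g hg μ
    rw [htrace, htrace, map_mul, map_inv₀, map_natCast, map_sum]
    congr 1
    refine sum_congr rfl fun k _ => ?_
    rw [map_mul, map_inv₀, hT, hχ _ (mul_mem hg (hAP k.2))]
  -- a weight fixed by P and by the Galois action
  let Ω := {μ : A →* ℂˣ // wt ρ A μ ≠ 0}
  let _ : MulAction G Ω :=
    { smul := fun g μ => ⟨g • μ.1, wt_smul_ne ρ A g μ.2⟩
      one_smul := fun μ => Subtype.ext (one_smul _ _)
      mul_smul := fun g h μ => Subtype.ext (mul_smul _ _ _) }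
  have hmod := P.isPGroup'.card_modEq_card_fixedPoints Ω
  let S : Finset (A →* ℂˣ) := univ.filter fun μ => wt ρ A μ ≠ 0 ∧ ∀ g ∈ P, g • μ = μ
  have c1 : Nat.card Ω = (univ.filter fun μ => wt ρ A μ ≠ 0).card := by
    rw [Nat.card_eq_fintype_card, Fintype.card_subtype]
  have c2 : Nat.card (MulAction.fixedPoints (P : Subgroup G) Ω) = S.card := by
    rw [← Nat.card_eq_finsetCard]
    refine Nat.card_congr
      { toFun := fun x => ⟨x.1.1, mem_filter.2 ⟨mem_univ _, x.1.2, fun g hg =>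
          congrArg Subtype.val (x.2 ⟨g, hg⟩)⟩⟩
        invFun := fun x => ⟨⟨x.1, (mem_filter.1 x.2).2.1⟩, fun g =>
          Subtype.ext ((mem_filter.1 x.2).2.2 g.1 g.2)⟩
        left_inv := fun _ => rfl
        right_inv := fun _ => rfl }
  have hiter : ∀ n μ k, ((T^[n] μ) k : ℂ) = τ^[n] (μ k) := by
    intro n
    induction n with
    | zero => intro μ k; rfl
    | succ n ih => intro μ k; rw [Function.iterate_succ_apply, ih, hT, Function.iterate_succ_apply]
  obtain ⟨μ, hμ, -, hμT⟩ := exists_fixed (p := p) (r := r) S T (fun _ => 1)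
    (fun μ hμ => by
      obtain ⟨-, h1, h2⟩ := mem_filter.1 hμ
      refine mem_filter.2 ⟨mem_univ _, fun h0 => ?_, fun g hg => ?_⟩
      · have := hTtr 1 (one_mem _) μ
        rw [h0, map_one, one_mul, one_mul, htr μ h1, map_zero, map_natCast] at this
        apply hm
        have : m = 0 := by exact_mod_cast this
        rw [this]; exact dvd_zero p
      · show T (g • μ) = T μ
        rw [h2 g hg])
    (fun μ _ => by
      ext k
      rw [hiter]
      refine iter_fix hp.out τ hτ ?_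
      have : k ^ p ^ r = 1 := Subtype.ext (hP k (hAP k.2))
      rw [← Units.val_pow_eq_pow_val, ← map_pow, this, map_one, Units.val_one])
    (fun _ _ => rfl)
    (by
      rw [sum_const, smul_eq_mul, mul_one, ← c2]
      intro h
      apply hΩ
      rw [← c1]
      exact (hmod.dvd_iff dvd_rfl).2 h)
  obtain ⟨-, hμ0, hμP⟩ := mem_filter.1 hμ
  have hcomm : ∀ (g : G) ν, g • ν = ν → Commute (ρ g) (wt ρ A ν) := by
    intro g ν h
    have := conj_wt ρ A g ν
    rwa [h] at this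
  by_cases hcase : ∀ g (hg : g ∈ P), μ ⟨g ^ p ^ a, hq g hg⟩ = 1
  · right
    intro g
    have e1 : ρ.character g = ∑ ν, LinearMap.trace ℂ V (ρ g * wt ρ A ν) := by
      rw [← map_sum, ← mul_sum, sum_wt ρ A hK, mul_one]; rfl
    rw [e1]
    refine sum_mem fun ν _ => ?_
    by_cases h0 : wt ρ A ν = 0
    · rw [h0, mul_zero, map_zero]; exact zero_mem _
    by_cases h1 : g • ν = ν
    · obtain ⟨x, rfl⟩ := wt_trans ρ A hirr hμ0 h0
      refine trace_mem (N := N * p ^ r) (Nat.mul_pos hN (pow_pos hp.out.pos _))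
        (by rw [← map_pow, pow_mul, hG, map_one]) (wt_idem ρ A _) (hcomm g _ h1) ?_
      let St := MulAction.stabilizer G μ
      have hPS : (P : Subgroup G) ≤ St := fun g hg => hμP g hg
      have hh : x⁻¹ * g * x ∈ St := by
        show (x⁻¹ * g * x) • μ = μ
        rw [mul_smul, mul_smul, h1, inv_smul_smul]
      obtain ⟨t, ht⟩ := exists_conj_mem (P.subtype hPS) (u := (⟨_, hh⟩ : St) ^ N) (r := r)
        (Subtype.ext (hG _))
      have ht' : (t : G) * (x⁻¹ * g * x) ^ N * (t : G)⁻¹ ∈ P := ht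
      have e2 := mul_wt ρ A μ ⟨_, hq _ ht'⟩
      rw [hcase _ ht', Units.val_one, one_smul] at e2
      simp only [conj_pow] at e2
      have e3 := (hcomm t μ t.2).eq
      have e4 := (hcomm _ μ (inv_mem t.2)).eq
      have e5 : ρ (((x⁻¹ * g * x) ^ N) ^ p ^ a) * wt ρ A μ = wt ρ A μ := by
        have : ρ (((x⁻¹ * g * x) ^ N) ^ p ^ a) = ρ (t : G)⁻¹ *
            ρ ((t : G) * ((x⁻¹ * g * x) ^ N) ^ p ^ a * (t : G)⁻¹) * ρ t := by
          rw [← map_mul, ← map_mul]; congr 1; group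
        rw [this, mul_assoc, e3, mul_assoc, ← mul_assoc _ (wt ρ A μ), e2, ← mul_assoc, e4,
          mul_assoc, ← map_mul, inv_mul_cancel, map_one, mul_one]
      have e6 : ρ g ^ (p ^ a * N) * ρ x = ρ x * ρ (((x⁻¹ * g * x) ^ N) ^ p ^ a) := by
        rw [← map_pow, ← map_mul, ← map_mul, ← pow_mul, mul_comm N]
        congr 1
        have := conj_pow (a := x⁻¹) (b := g) (i := p ^ a * N)
        rw [inv_inv] at this
        rw [this]; group
      rw [wt_smul, ← mul_assoc, ← mul_assoc, e6, mul_assoc (ρ x), e5]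
    · have : ρ g * wt ρ A ν = wt ρ A (g • ν) * (ρ g * wt ρ A ν) := by
        rw [← mul_assoc, ← conj_wt, mul_assoc, wt_idem]
      rw [this, LinearMap.trace_mul_comm, mul_assoc, wt_mul_wt, if_neg (Ne.symm h1), mul_zero,
        map_zero]
      exact zero_mem _
  · left
    push Not at hcase
    obtain ⟨g, hg, hne⟩ := hcase
    obtain ⟨η, h1, h2, h3⟩ := exists_fixed_eig (X := ρ g) (r := r)
      (by rw [← map_pow, hP g hg, map_one]) (wt_idem ρ A μ) (hcomm g μ (hμP g hg)) (htr μ hμ0) hm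
      τ hτ (fun j => by rw [← map_pow, hTtr _ (pow_mem hg j), hμT])
    have h4 := h3 (p ^ a) _ (by rw [← map_pow]; exact mul_wt ρ A μ ⟨_, hq g hg⟩)
    intro z hz
    refine fix_of_eig h1 h2 ?_ hz
    rw [h4]
    exact fun h => hne (Units.ext h)

end Pool.Agent.Lib.MP_ec19ea_al
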