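import Pool.Agent.Lib.MP_ec19ea_al.Nak
import Pool.Agent.Lib.MP_ec19ea_al.Str

open Finset

namespace Pool.Agent.Lib.MP_ec19ea_al

theorem exists_unif (p r : ℕ) [hp : Fact p.Prime] : ∃ w : ℂ, w ≠ 0 ∧
    (∀ z : ℂ, z ^ p ^ r = 1 → ∃ c, IsIntegral ℤ c ∧ z - 1 = w * c) ∧
    (∃ c, IsIntegral ℤ c ∧ (p : ℂ) = w * c) ∧
    ∀ y : ℂ, (∀ j : ℕ, ∃ c, IsIntegral ℤ c ∧ y = w ^ j * c) → y = 0 := by
  have hM : 0 < p ^ (r + 1) := pow_pos hp.out.pos _
  have hζ := Complex.isPrimitiveRoot_exp _ hM.ne'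
  set ζ := Complex.exp (2 * Real.pi * Complex.I / (p ^ (r + 1) : ℕ))
  have hi : IsIntegral ℤ ζ := hζ.isIntegral hM
  have : NeZero (p ^ (r + 1)) := ⟨hM.ne'⟩
  have h1 : ∀ z : ℂ, z ^ p ^ (r + 1) = 1 → ∃ c, IsIntegral ℤ c ∧ z - 1 = (ζ - 1) * c := by
    intro z hz
    obtain ⟨i, -, rfl⟩ := hζ.eq_pow_of_pow_eq_one hz
    exact ⟨∑ j ∈ range i, ζ ^ j, IsIntegral.sum _ fun j _ => hi.pow j, (mul_geom_sum ζ i).symm⟩
  refine ⟨ζ - 1, sub_ne_zero.2 (hζ.ne_one (Nat.one_lt_pow (by omega) hp.out.one_lt)),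
    fun z hz => h1 z (by rw [pow_succ, pow_mul, hz, one_pow]), ?_, fun y hy => ?_⟩
  · have hω : IsPrimitiveRoot (ζ ^ p ^ r) p := hζ.pow hM (pow_succ p r)
    have h2 : ∀ j : ℕ, ∃ c, IsIntegral ℤ c ∧ (ζ ^ p ^ r) ^ j - 1 = (ζ - 1) * c := fun j =>
      h1 _ (by rw [← pow_mul, ← pow_mul, ← mul_assoc, mul_comm, pow_mul, hζ.pow_eq_one,
        one_pow])
    choose c hc hc' using h2
    refine ⟨-∑ j ∈ range p, c j, (IsIntegral.sum _ fun j _ => hc j).neg, ?_⟩
    rw [mul_neg, mul_sum, ← sum_congr rfl fun j _ => hc' j, sum_sub_distrib,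
      hω.geom_sum_eq_zero hp.out.one_lt]
    simp
  · by_contra hy0
    let w : integralClosure ℤ ℂ := ⟨ζ - 1, hi.sub isIntegral_one⟩
    obtain ⟨s, hs⟩ := exists_add_pow_prime_pow_eq hp.out w 1 (r + 1)
    have hs' : (ζ - 1) ^ p ^ (r + 1) = p * (-((ζ - 1) * s)) := by
      have := congrArg Subtype.val hs
      simp only [w, SubmonoidClass.coe_pow, Subalgebra.coe_add, Subalgebra.coe_one,
        sub_add_cancel, hζ.pow_eq_one, one_pow, Subalgebra.coe_mul, mul_one,
        SubringClass.coe_natCast] at this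
      linear_combination -this
    have hs'' : IsIntegral ℤ (-((ζ - 1) * s)) := ((hi.sub isIntegral_one).mul s.2).neg
    obtain ⟨c0, a0, b0⟩ := hy 0
    rw [pow_zero, one_mul] at b0
    obtain ⟨n, hn, hn'⟩ := (b0 ▸ a0 : IsIntegral ℤ y).isAlgebraic.inv.exists_integral_multiple
    have key : ∀ j : ℕ, (p : ℤ) ^ j ∣ n := by
      intro j
      obtain ⟨c, a1, b1⟩ := hy (p ^ (r + 1) * j)
      rw [pow_mul, hs', mul_pow, mul_assoc] at b1
      have hpj : ((p : ℂ)) ^ j ≠ 0 := pow_ne_zero _ (Nat.cast_ne_zero.2 hp.out.ne_zero)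
      have a2 : IsIntegral ℤ (algebraMap ℚ ℂ ((n : ℚ) / (p : ℚ) ^ j)) := by
        have := hn'.mul ((hs''.pow j).mul a1)
        have e : algebraMap ℚ ℂ ((n : ℚ) / (p : ℚ) ^ j)
            = n • y⁻¹ * ((-((ζ - 1) * ↑s)) ^ j * c) := by
          rw [← (div_eq_iff hpj).2 (b1.trans (mul_comm _ _))]
          simp only [map_div₀, map_pow, map_intCast, map_natCast, zsmul_eq_mul]
          field_simp
        rwa [e]
      rw [isIntegral_algebraMap_iff (algebraMap ℚ ℂ).injective,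
        IsIntegrallyClosed.isIntegral_iff] at a2
      obtain ⟨k, hk⟩ := a2
      refine ⟨k, ?_⟩
      have hq : ((p : ℚ)) ^ j ≠ 0 := pow_ne_zero _ (Nat.cast_ne_zero.2 hp.out.ne_zero)
      rw [eq_div_iff hq] at hk
      have : ((n : ℤ) : ℚ) = ((p ^ j * k : ℤ) : ℚ) := by
        rw [← hk]; simp [mul_comm]
      exact_mod_cast this
    have h3 := Int.natAbs_le_of_dvd_ne_zero (key n.natAbs) hn
    rw [Int.natAbs_pow, Int.natAbs_natCast] at h3
    exact absurd (Nat.lt_pow_self hp.out.one_lt) (not_lt.2 h3)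

theorem null_list {M : Type*} [AddCommGroup M] [Module ℂ M] {Λ : AddSubgroup M} {w : ℂ}
    {s : Module.End ℂ M} (hs : s ∈ pres Λ) (l : List ℂ)
    (hl : ∀ z ∈ l, z • (1 : Module.End ℂ M) ∈ pres Λ ∧
      (z - 1) • (1 : Module.End ℂ M) ∈ null Λ w) :
    (l.map fun z => s - z • 1).prod ∈ pres Λ ∧
      (s - 1) ^ l.length - (l.map fun z => s - z • 1).prod ∈ null Λ w := by
  induction l with
  | nil => simp
  | cons z l ih =>
    obtain ⟨h1, h2⟩ := ih fun y hy => hl y (List.mem_cons_of_mem _ hy)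
    obtain ⟨h3, h4⟩ := hl z List.mem_cons_self
    rw [List.map_cons, List.prod_cons, List.length_cons]
    refine ⟨mul_mem (sub_mem hs h3) h1, ?_⟩
    have := add_mem (mul_null (sub_mem hs (one_mem _)) h2) (null_mul h4 h1)
    convert this using 1
    rw [pow_succ', sub_smul, one_smul]
    noncomm_ring

variable {G : Type*} [Group G]

/-- right translation -/
def Rr : G →* Module.End ℂ (G → ℂ) where
  toFun u := LinearMap.funLeft ℂ ℂ (· * u)
  map_one' := by ext f x; simp [LinearMap.funLeft_apply]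
  map_mul' u v := by ext f x; simp [LinearMap.funLeft_apply, mul_assoc]

theorem Rr_apply (u : G) (f : G → ℂ) (x : G) : Rr u f x = f (x * u) := rfl

/-- product of shifted translations -/
def DD (u : G) (l : List ℂ) : Module.End ℂ (G → ℂ) := (l.map fun z => Rr u - z • 1).prod

theorem DD_cons (u : G) (z : ℂ) (l : List ℂ) (f : G → ℂ) (x : G) :
    DD u (z :: l) f x = DD u l f (x * u) - z * DD u l f x := by
  simp [DD, Rr_apply]

theorem DD_left (u a : G) (l : List ℂ) (f : G → ℂ) (x : G) :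
    DD u l (fun y => f (a * y)) x = DD u l f (a * x) := by
  induction l generalizing x with
  | nil => simp [DD]
  | cons z l ih => rw [DD_cons, DD_cons, ih, ih, mul_assoc]

theorem DD_conj (u t : G) (l : List ℂ) (f : G → ℂ) (x : G) :
    DD (t⁻¹ * u * t) l f x = DD u l (Rr t f) (x * t⁻¹) := by
  induction l generalizing x with
  | nil => simp [DD, Rr_apply]
  | cons z l ih =>
    rw [DD_cons, DD_cons, ih, ih]
    congr 2
    group

theorem DD_shift {f : G → ℂ} (hf : ∀ x y, f (x * y) = f (y * x)) {u : G} {l : List ℂ}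
    (h : DD u l f = 0) (a : G) : DD u l (Rr a f) = 0 := by
  funext x
  have : Rr a f = fun y => f (a * y) := funext fun y => hf y a
  rw [this, DD_left, h]; rfl

/-- a class function with integral values killed by short products -/
structure Good (p r n : ℕ) (P : Subgroup G) (f : G → ℂ) : Prop where
  cls : ∀ x y, f (x * y) = f (y * x)
  int : ∀ x, IsIntegral ℤ (f x)
  rel : ∀ u ∈ P, ∃ l : List ℂ, l.length ≤ n ∧ (∀ z ∈ l, z ^ p ^ r = 1) ∧ DD u l f = 0

/-- weak closure of the powers -/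
def wc (p r a : ℕ) (P : Subgroup G) : Subgroup G :=
  Subgroup.closure {x | x ∈ P ∧ ∃ u : G, u ^ p ^ r = 1 ∧ x = u ^ p ^ a}

theorem wc_le (p r a : ℕ) (P : Subgroup G) : wc p r a P ≤ P :=
  (Subgroup.closure_le _).2 fun _ hx => hx.1

theorem wc_conj {p r a : ℕ} {P : Subgroup G} [Finite G] {t : G}
    (h : ∀ x ∈ wc p r a P, t * x * t⁻¹ ∈ P) :
    t ∈ Subgroup.normalizer (wc p r a P : Set G) := by
  apply Subgroup.mem_normalizer_fintype
  have : wc p r a P ≤ (wc p r a P).comap (MulAut.conj t).toMonoidHom := by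
    refine (Subgroup.closure_le _).2 fun x hx => ?_
    refine Subgroup.subset_closure ⟨h x (Subgroup.subset_closure hx), ?_⟩
    obtain ⟨u, h1, rfl⟩ := hx.2
    exact ⟨t * u * t⁻¹, by rw [conj_pow, h1]; simp, conj_pow.symm⟩
  exact fun n hn => this hn

theorem wc_fix {p r a : ℕ} [Fact p.Prime] [Finite G] (P : Sylow p G) (g : G)
    (h : ∀ x ∈ wc p r a P.1, g⁻¹ * x * g ∈ Subgroup.normalizer (wc p r a P.1 : Set G)) :
    g ∈ Subgroup.normalizer (wc p r a P.1 : Set G) := by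
  have hA : IsPGroup p (wc p r a P.1) := P.isPGroup'.to_le (wc_le _ _ _ _)
  have hA' := hA.map (MulAut.conj g⁻¹).toMonoidHom
  have := hA.to_sup_of_normal_left' hA' (by
    rintro _ ⟨x, hx, rfl⟩
    simpa using h x hx)
  obtain ⟨t, ht⟩ := exists_conj_le P this
  have h1 := wc_conj (t := t) fun x hx => ht x (Subgroup.mem_sup_left hx)
  have h2 := wc_conj (p := p) (r := r) (a := a) (P := P.1) (t := t * g⁻¹) fun x hx => by
    have : t * (g⁻¹ * x * g⁻¹⁻¹) * t⁻¹ ∈ P.1 :=
      ht _ (Subgroup.mem_sup_right (Subgroup.mem_map_of_mem _ hx))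
    simpa [mul_assoc] using this
  have := mul_mem (inv_mem h2) h1
  simpa using this

/-- translation in the first variable -/
def R1 : G →* Module.End ℂ (G × G → ℂ) where
  toFun u := LinearMap.funLeft ℂ ℂ fun z => (z.1 * u, z.2)
  map_one' := by ext f x; simp [LinearMap.funLeft_apply]
  map_mul' u v := by ext f x; simp [LinearMap.funLeft_apply, mul_assoc]

/-- translation in the second variable -/
def R2 : G →* Module.End ℂ (G × G → ℂ) where
  toFun u := LinearMap.funLeft ℂ ℂ fun z => (z.1, z.2 * u)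
  map_one' := by ext f x; simp [LinearMap.funLeft_apply]
  map_mul' u v := by ext f x; simp [LinearMap.funLeft_apply, mul_assoc]

/-- diagonal translation -/
def R12 : G →* Module.End ℂ (G × G → ℂ) where
  toFun u := LinearMap.funLeft ℂ ℂ fun z => (z.1 * u, z.2 * u)
  map_one' := by ext f x; simp [LinearMap.funLeft_apply]
  map_mul' u v := by ext f x; simp [LinearMap.funLeft_apply, mul_assoc]

theorem DD_R1 (u : G) (l : List ℂ) (F : G × G → ℂ) (x y : G) :
    (l.map fun z => R1 u - z • 1).prod F (x, y) = DD u l (fun x => F (x, y)) x := by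
  induction l generalizing x with
  | nil => simp [DD]
  | cons z l ih =>
    rw [DD_cons, ← ih, ← ih]
    simp [R1, LinearMap.funLeft_apply]

theorem DD_R2 (u : G) (l : List ℂ) (F : G × G → ℂ) (x y : G) :
    (l.map fun z => R2 u - z • 1).prod F (x, y) = DD u l (fun y => F (x, y)) y := by
  induction l generalizing y with
  | nil => simp [DD]
  | cons z l ih =>
    rw [DD_cons, ← ih, ← ih]
    simp [R2, LinearMap.funLeft_apply]

theorem local_inner [Fintype G] {p r n a : ℕ} [hp : Fact p.Prime] (P : Sylow p G) {f1 f2 : G → ℂ}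
    (h1 : Good p r n P.1 f1) (h2 : Good p r n P.1 f2) (hn : 2 * n ≤ p ^ a * (p - 1))
    (H : Subgroup G) [Fintype H] (hH : H = Subgroup.normalizer (wc p r a P.1 : Set G)) :
    (Fintype.card G : ℂ) * ∑ h : H, f1 h * f2 h = Fintype.card H * ∑ g, f1 g * f2 g := by
  classical
  obtain ⟨w, hw, hw1, ⟨c0, hc0, hw2⟩, hw3⟩ := exists_unif p r
  let Λ : AddSubgroup (G × G → ℂ) := AddSubgroup.closure
    {F | ∃ c x y, IsIntegral ℤ c ∧ F = fun z => c * (f1 (z.1 * x) * f2 (z.2 * y))}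
  have hpres : ∀ T : Module.End ℂ (G × G → ℂ), (∀ c x y, IsIntegral ℤ c →
      ∃ c' x' y', IsIntegral ℤ c' ∧ T (fun z => c * (f1 (z.1 * x) * f2 (z.2 * y)))
        = fun z => c' * (f1 (z.1 * x') * f2 (z.2 * y'))) → T ∈ pres Λ := by
    intro T hT
    have : Λ ≤ Λ.comap T.toAddMonoidHom := by
      refine (AddSubgroup.closure_le _).2 ?_
      rintro _ ⟨c, x, y, hc, rfl⟩
      exact AddSubgroup.subset_closure (hT c x y hc)
    exact fun F hF => this hF
  have hR1 : ∀ u, R1 u ∈ pres Λ := fun u => hpres _ fun c x y hc =>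
    ⟨c, u * x, y, hc, by funext z; simp [R1, LinearMap.funLeft_apply, mul_assoc]⟩
  have hR2 : ∀ u, R2 u ∈ pres Λ := fun u => hpres _ fun c x y hc =>
    ⟨c, x, u * y, hc, by funext z; simp [R2, LinearMap.funLeft_apply, mul_assoc]⟩
  have hR12 : ∀ u : G, R12 u = R1 u * R2 u := fun u => rfl
  have hsm : ∀ z : ℂ, IsIntegral ℤ z → z • (1 : Module.End ℂ (G × G → ℂ)) ∈ pres Λ :=
    fun z hz => hpres _ fun c x y hc => ⟨z * c, x, y, hz.mul hc, by funext v; simp [mul_assoc]⟩
  have hnl : ∀ c : ℂ, IsIntegral ℤ c →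
      (w * c) • (1 : Module.End ℂ (G × G → ℂ)) ∈ null Λ w :=
    fun c hc F hF => ⟨c • F, hsm c hc F hF, by simp [smul_smul]⟩
  have hl : ∀ l : List ℂ, (∀ z ∈ l, z ^ p ^ r = 1) → ∀ z ∈ l,
      z • (1 : Module.End ℂ (G × G → ℂ)) ∈ pres Λ ∧
      (z - 1) • (1 : Module.End ℂ (G × G → ℂ)) ∈ null Λ w := by
    intro l h z hz
    obtain ⟨c, a1, a2⟩ := hw1 z (h z hz)
    exact ⟨hsm z (alg_of_pow (pow_pos hp.out.pos _) (h z hz)), a2 ▸ hnl c a1⟩
  have hkill : ∀ T : Module.End ℂ (G × G → ℂ), (∀ c x y,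
      T (fun z => c * (f1 (z.1 * x) * f2 (z.2 * y))) = 0) → T ∈ null Λ w := by
    intro T hT F hF
    refine ⟨0, zero_mem _, ?_⟩
    have : Λ ≤ T.toAddMonoidHom.ker := by
      refine (AddSubgroup.closure_le _).2 ?_
      rintro _ ⟨c, x, y, -, rfl⟩
      exact hT c x y
    rw [smul_zero]
    exact this hF
  have hrel : ∀ {f : G → ℂ}, Good p r n P.1 f → ∀ u : G, u ^ p ^ r = 1 → ∃ l : List ℂ,
      l.length ≤ n ∧ (∀ z ∈ l, z ^ p ^ r = 1) ∧ ∀ x, DD u l (Rr x f) = 0 := by
    intro f hf u hu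
    obtain ⟨t, ht⟩ := exists_conj_mem P hu
    obtain ⟨l, a1, a2, a3⟩ := hf.rel _ ht
    refine ⟨l, a1, a2, DD_shift hf.cls ?_⟩
    funext x
    have := DD_conj (t * u * t⁻¹) t l f x
    rw [DD_shift hf.cls a3] at this
    simpa [mul_assoc] using this
  have hsmall : ∀ u : G, u ^ p ^ r = 1 →
      ∑ j ∈ range p, R12 (u ^ p ^ a) ^ j ∈ null Λ w := by
    intro u hu
    rw [map_pow, hR12]
    refine null_norm (n := n) (by ext F z; rfl) (hR1 u) (hR2 u) ?_ ?_ ?_ hn
    · obtain ⟨l, a1, a2, a3⟩ := hrel h1 u hu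
      refine null_pow (sub_mem (hR1 u) (one_mem _)) ?_ a1
      have := add_mem (null_list (hR1 u) l (hl l a2)).2 (hkill (l.map fun z => R1 u - z • 1).prod
        fun c x y => by
          funext ⟨v1, v2⟩
          rw [DD_R1]
          have : (fun v => c * (f1 (v * x) * f2 (v2 * y))) = (c * f2 (v2 * y)) • Rr x f1 := by
            funext v; simp only [Pi.smul_apply, Rr_apply, smul_eq_mul]; ring
          simp only [this, map_smul, a3, smul_zero]; rfl)
      rwa [sub_add_cancel] at this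
    · obtain ⟨l, a1, a2, a3⟩ := hrel h2 u hu
      refine null_pow (sub_mem (hR2 u) (one_mem _)) ?_ a1
      have := add_mem (null_list (hR2 u) l (hl l a2)).2 (hkill (l.map fun z => R2 u - z • 1).prod
        fun c x y => by
          funext ⟨v1, v2⟩
          rw [DD_R2]
          have : (fun v => c * (f1 (v1 * x) * f2 (v * y))) = (c * f1 (v1 * x)) • Rr y f2 := by
            funext v; simp only [Pi.smul_apply, Rr_apply, smul_eq_mul]; ring
          simp only [this, map_smul, a3, smul_zero]; rfl)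
      rwa [sub_add_cancel] at this
    · have := hnl c0 hc0
      rwa [← hw2, Nat.cast_smul_eq_nsmul, nsmul_eq_mul, mul_one] at this
  have hint : ∀ F ∈ Λ, ∀ z, IsIntegral ℤ (F z) := by
    intro F hF z
    induction hF using AddSubgroup.closure_induction with
    | mem F hF =>
      obtain ⟨c, x, y, hc, rfl⟩ := hF
      exact hc.mul ((h1.int _).mul (h2.int _))
    | zero => exact isIntegral_zero
    | add F F' _ _ a1 a2 => exact a1.add a2
    | neg F _ a1 => exact a1.neg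
  let Φ : G × G → ℂ := ∑ h : H, fun z => 1 * (f1 (z.1 * h) * f2 (z.2 * h))
  have hΦ : ∀ z, Φ z = ∑ h : H, f1 (z.1 * h) * f2 (z.2 * h) := fun z => by
    simp [Φ, Finset.sum_apply]
  have key := invariant_of_local (Λ := Λ) (w := w) (p := p) R12
    (fun g => mul_mem (hR1 g) (hR2 g)) (wc p r a P.1) H (P.isPGroup'.to_le (wc_le _ _ _ _))
    (hH ▸ Subgroup.le_normalizer)
    (fun B hB => by
      by_contra h
      push Not at h
      apply hB
      have : wc p r a P.1 ≤ B.map (wc p r a P.1).subtype := by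
        refine (Subgroup.closure_le _).2 fun x hx => ?_
        refine ⟨⟨x, Subgroup.subset_closure hx⟩, ?_, rfl⟩
        by_contra h3
        apply h _ h3
        obtain ⟨u, hu, rfl⟩ := hx.2
        exact hsmall u hu
      rw [eq_top_iff]
      intro x _
      obtain ⟨y, hy, e⟩ := this x.2
      rwa [← show y = x from Subtype.ext e])
    (hH ▸ wc_fix P) hw
    (fun F hF => by
      funext z
      refine hw3 _ fun j => ?_
      obtain ⟨F', a1, a2⟩ := hF j
      exact ⟨F' z, hint F' a1 z, by rw [a2]; rfl⟩)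
    (Φ := Φ)
    (sum_mem fun h _ => AddSubgroup.subset_closure ⟨1, h, h, isIntegral_one, rfl⟩)
    (fun h hh => by
      funext z
      show Φ (z.1 * h, z.2 * h) = Φ z
      rw [hΦ, hΦ, ← Equiv.sum_comp (Equiv.mulLeft (⟨h, hh⟩ : H))
        (fun k : H => f1 (z.1 * k) * f2 (z.2 * k))]
      simp [mul_assoc])
  have e1 : ∀ g : G, ∑ h : H, f1 (g * h) * f2 (g * h) = ∑ h : H, f1 h * f2 h := by
    intro g
    have : Φ (1 * g, 1 * g) = Φ (1, 1) := congrFun (key g) (1, 1)
    simpa [hΦ] using this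
  have e2 : ∑ g : G, ∑ h : H, f1 (g * h) * f2 (g * h) = ∑ _h : H, ∑ g, f1 g * f2 g := by
    rw [sum_comm]
    exact sum_congr rfl fun h _ => Equiv.sum_comp (Equiv.mulRight (h : G)) fun g => f1 g * f2 g
  simp only [e1, sum_const, card_univ, nsmul_eq_mul] at e2
  exact e2

end Pool.Agent.Lib.MP_ec19ea_al
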