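import Pool.Agent.Lib.MP_ec19ea_al.Defs

open IntermediateField Polynomial

namespace Pool.Agent.Lib.MP_ec19ea_al

theorem exists_extend (L : Type) [Field L] [Algebra L ℂ] (σ : L ≃+* L) :
    ∃ τ : ℂ →+* ℂ, ∀ x, τ (algebraMap L ℂ x) = algebraMap L ℂ (σ x) := by
  obtain ⟨ι, v, hv⟩ := exists_isTranscendenceBasis' L ℂ
  let _ := IsAlgClosed.isAlgClosure_of_transcendence_basis v hv
  let e := hv.1.aevalEquiv
  let h : Algebra.adjoin L (Set.range v) ≃+* Algebra.adjoin L (Set.range v) :=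
    (e.symm.toRingEquiv.trans (MvPolynomial.mapEquiv ι σ)).trans e.toRingEquiv
  refine ⟨(IsAlgClosure.equivOfEquiv ℂ ℂ h).toRingHom, fun x => ?_⟩
  have h1 : algebraMap L ℂ x = algebraMap (Algebra.adjoin L (Set.range v)) ℂ (algebraMap L _ x) :=
    IsScalarTower.algebraMap_apply _ _ _ x
  have h2 : algebraMap L ℂ (σ x)
      = algebraMap (Algebra.adjoin L (Set.range v)) ℂ (algebraMap L _ (σ x)) :=
    IsScalarTower.algebraMap_apply _ _ _ _
  rw [h1, h2]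
  simp only [RingEquiv.toRingHom_eq_coe, RingHom.coe_coe]
  rw [IsAlgClosure.equivOfEquiv_algebraMap]
  congr 1
  have h3 : e.symm (algebraMap L _ x) = MvPolynomial.C x := by
    rw [AlgEquiv.commutes]; rfl
  have h4 : e (MvPolynomial.C (σ x)) = algebraMap L _ (σ x) := e.commutes (σ x)
  simp only [h, RingEquiv.trans_apply, AlgEquiv.coe_ringEquiv, h3]
  rw [← h4]
  congr 1
  simp

theorem mem_of_fixed (F : IntermediateField ℚ ℂ) {y : ℂ} (hy : IsAlgebraic ℚ y)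
    (h : ∀ τ : ℂ →+* ℂ, (∀ x ∈ F, τ x = x) → τ y = y) : y ∈ F := by
  have hy' : y ∈ algebraicClosure F ℂ := by
    rw [mem_algebraicClosure_iff]
    exact hy.tower_top F
  have : (⟨y, hy'⟩ : algebraicClosure F ℂ) ∈ (⊥ : IntermediateField F (algebraicClosure F ℂ)) := by
    rw [InfiniteGalois.mem_bot_iff_fixed]
    intro σ
    obtain ⟨τ, hτ⟩ := exists_extend (algebraicClosure F ℂ) σ.toRingEquiv
    apply Subtype.ext
    have h1 := hτ ⟨y, hy'⟩
    have h2 := h τ (fun x hx => by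
      have := hτ (algebraMap F _ ⟨x, hx⟩)
      simp only [AlgEquiv.coe_ringEquiv, AlgEquiv.commutes] at this
      exact this)
    exact h1.symm.trans h2
  rw [IntermediateField.mem_bot] at this
  obtain ⟨x, hx⟩ := this
  have : (x : ℂ) = y := congrArg Subtype.val hx
  rw [← this]; exact x.2

theorem exists_hom_of_minpoly (F : Type) [Field F] [Algebra F ℂ] {x y : ℂ} (hx : IsIntegral F x)
    (hy : IsIntegral F y) (h : minpoly F y = minpoly F x) : ∃ τ : ℂ →+* ℂ, τ x = y := by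
  have a1 : x ∈ algebraicClosure F ℂ := mem_algebraicClosure_iff.2 hx.isAlgebraic
  have a2 : y ∈ algebraicClosure F ℂ := mem_algebraicClosure_iff.2 hy.isAlgebraic
  have hc : IsConjRoot F (⟨y, a2⟩ : algebraicClosure F ℂ) ⟨x, a1⟩ := by
    rw [IsConjRoot, IntermediateField.minpoly_eq, IntermediateField.minpoly_eq]
    exact h
  obtain ⟨σ, hσ⟩ := hc.exists_algEquiv
  obtain ⟨τ, hτ⟩ := exists_extend (algebraicClosure F ℂ) σ.toRingEquiv
  refine ⟨τ, ?_⟩
  have h1 := hτ ⟨x, a1⟩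
  simp only [AlgEquiv.coe_ringEquiv, hσ] at h1
  exact h1

theorem exists_pow_hom {M k : ℕ} (hM : 0 < M) (hk : k.Coprime M) :
    ∃ τ : ℂ →+* ℂ, ∀ z : ℂ, z ^ M = 1 → τ z = z ^ k := by
  have hζ := Complex.isPrimitiveRoot_exp M hM.ne'
  set ζ := Complex.exp (2 * Real.pi * Complex.I / M)
  have hζk := hζ.pow_of_coprime k hk
  obtain ⟨τ, h2⟩ := exists_hom_of_minpoly ℚ (x := ζ) (y := ζ ^ k) (hζ.isIntegral hM).tower_top
    (hζk.isIntegral hM).tower_top (by
      rw [← cyclotomic_eq_minpoly_rat hζ hM, ← cyclotomic_eq_minpoly_rat hζk hM])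
  refine ⟨τ, fun z hz => ?_⟩
  have : NeZero M := ⟨hM.ne'⟩
  obtain ⟨i, -, rfl⟩ := hζ.eq_pow_of_pow_eq_one hz
  rw [map_pow, h2, ← pow_mul, ← pow_mul, mul_comm]

theorem exists_pow_of_hom (τ : ℂ →+* ℂ) {M : ℕ} (hM : 0 < M) :
    ∃ k : ℕ, k.Coprime M ∧ ∀ z : ℂ, z ^ M = 1 → τ z = z ^ k := by
  have hζ := Complex.isPrimitiveRoot_exp M hM.ne'
  set ζ := Complex.exp (2 * Real.pi * Complex.I / M)
  have h1 : IsPrimitiveRoot (τ ζ) M := hζ.map_of_injective τ.injective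
  have : NeZero M := ⟨hM.ne'⟩
  obtain ⟨k, -, hk, hk'⟩ := (hζ.isPrimitiveRoot_iff).1 h1
  refine ⟨k, hk, fun z hz => ?_⟩
  obtain ⟨i, -, rfl⟩ := hζ.eq_pow_of_pow_eq_one hz
  rw [map_pow, ← hk', ← pow_mul, ← pow_mul, mul_comm]

theorem mem_cyc {n : ℕ} {z : ℂ} (h : z ^ n = 1) : z ∈ cyc n := subset_adjoin _ _ h

theorem eq_on_adjoin {S : Set ℂ} {τ τ' : ℂ →+* ℂ} (h : ∀ z ∈ S, τ z = τ' z) {y : ℂ}
    (hy : y ∈ adjoin ℚ S) : τ y = τ' y := by
  induction hy using IntermediateField.adjoin_induction with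
  | mem x hx => exact h x hx
  | algebraMap x => simp
  | add x y _ _ h1 h2 => simp [h1, h2]
  | inv x _ h1 => simp [h1]
  | mul x y _ _ h1 h2 => simp [h1, h2]

theorem alg_of_pow {n : ℕ} (hn : 0 < n) {z : ℂ} (h : z ^ n = 1) : IsIntegral ℤ z :=
  IsIntegral.of_pow hn (h ▸ isIntegral_one)

theorem alg_of_mem_cyc {n : ℕ} (hn : 0 < n) {y : ℂ} (hy : y ∈ cyc n) : IsAlgebraic ℚ y := by
  have : cyc n ≤ algebraicClosure ℚ ℂ := by
    refine adjoin_le_iff.2 fun z hz => ?_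
    show z ∈ algebraicClosure ℚ ℂ
    rw [mem_algebraicClosure_iff]
    exact ((alg_of_pow hn hz).tower_top (A := ℚ)).isAlgebraic
  exact mem_algebraicClosure_iff.1 (this hy)

theorem pow_eq_of_modEq {z : ℂ} {n a b : ℕ} (hz : z ^ n = 1) (h : a ≡ b [MOD n]) :
    z ^ a = z ^ b := by
  rw [← Nat.div_add_mod a n, ← Nat.div_add_mod b n, pow_add, pow_add, pow_mul, pow_mul, hz,
    one_pow, one_pow, h]

theorem modEq_one_of_fix {M n k : ℕ} (hM : 0 < M) (hn : n ∣ M) {τ : ℂ →+* ℂ}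
    (hk : ∀ z : ℂ, z ^ M = 1 → τ z = z ^ k) (hfix : ∀ z : ℂ, z ^ n = 1 → τ z = z) :
    k ≡ 1 [MOD n] := by
  have hn0 : 0 < n := Nat.pos_of_dvd_of_pos hn hM
  have hζ := Complex.isPrimitiveRoot_exp n hn0.ne'
  set ζ := Complex.exp (2 * Real.pi * Complex.I / n)
  have h1 : ζ ^ M = 1 := by
    obtain ⟨c, rfl⟩ := hn
    rw [pow_mul, hζ.pow_eq_one, one_pow]
  have h2 : ζ ^ k = ζ ^ 1 := by rw [← hk ζ h1, hfix ζ hζ.pow_eq_one, pow_one]
  have h3 := hζ.eq_orderOf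
  rw [h3]
  have : NeZero n := ⟨hn0.ne'⟩
  exact (IsOfFinOrder.pow_eq_pow_iff_modEq (isOfFinOrder_iff_pow_eq_one.2
    ⟨n, hn0, hζ.pow_eq_one⟩)).1 h2

theorem mem_cyc_of_inter {p a b m m' : ℕ} (hp : p.Prime) (hm : ¬ p ∣ m) (hm' : ¬ p ∣ m')
    {y : ℂ} (h1 : y ∈ cyc (p ^ a * m)) (h2 : y ∈ cyc (p ^ b * m')) : y ∈ cyc (p ^ b * m) := by
  have m0 : 0 < m := Nat.pos_of_ne_zero (by rintro rfl; exact hm (dvd_zero p))
  have m0' : 0 < m' := Nat.pos_of_ne_zero (by rintro rfl; exact hm' (dvd_zero p))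
  have p0 := hp.pos
  refine mem_of_fixed _ (alg_of_mem_cyc (by positivity) h1) fun τ hτ => ?_
  have hM : 0 < p ^ (a + b) * (m * m') := by positivity
  obtain ⟨k, hk, hk'⟩ := exists_pow_of_hom τ hM
  have hco : (p ^ (a + b)).Coprime (m * m') :=
    Nat.Coprime.pow_left _ (Nat.Coprime.mul_right ((Nat.Prime.coprime_iff_not_dvd hp).2 hm)
      ((Nat.Prime.coprime_iff_not_dvd hp).2 hm'))
  obtain ⟨k1, e1, e2⟩ := Nat.chineseRemainder hco k 1
  have hk1 : k1.Coprime (p ^ (a + b) * (m * m')) := by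
    refine Nat.Coprime.mul_right ?_ ?_
    · rw [Nat.Coprime, e1.gcd_eq]
      exact Nat.Coprime.coprime_mul_right_right hk
    · rw [Nat.Coprime, e2.gcd_eq]; simp
  obtain ⟨τ1, hτ1⟩ := exists_pow_hom hM hk1
  have hkm : k ≡ 1 [MOD p ^ b * m] := by
    refine modEq_one_of_fix hM ⟨p ^ a * m', by ring⟩ hk' fun z hz => hτ z (mem_cyc hz)
  have f1 : τ1 y = RingHom.id ℂ y := by
    refine eq_on_adjoin (fun z hz => ?_) h2
    have hz' : z ^ (p ^ b * m') = 1 := hz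
    have : z ^ (p ^ (a + b) * (m * m')) = 1 := by
      rw [show p ^ (a + b) * (m * m') = (p ^ b * m') * (p ^ a * m) by ring, pow_mul, hz', one_pow]
    rw [hτ1 z this, RingHom.id_apply]
    have hc : (p ^ b).Coprime m' :=
      Nat.Coprime.pow_left _ ((Nat.Prime.coprime_iff_not_dvd hp).2 hm')
    have : k1 ≡ 1 [MOD p ^ b * m'] := by
      rw [← Nat.modEq_and_modEq_iff_modEq_mul hc]
      exact ⟨(e1.of_dvd (pow_dvd_pow p (by omega))).trans (hkm.of_mul_right m),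
        e2.of_mul_left m⟩
    rw [pow_eq_of_modEq hz' this, pow_one]
  have f2 : τ y = τ1 y := by
    refine eq_on_adjoin (fun z hz => ?_) h1
    have hz' : z ^ (p ^ a * m) = 1 := hz
    have : z ^ (p ^ (a + b) * (m * m')) = 1 := by
      rw [show p ^ (a + b) * (m * m') = (p ^ a * m) * (p ^ b * m') by ring, pow_mul, hz', one_pow]
    rw [hτ1 z this, hk' z this]
    have hc : (p ^ a).Coprime m :=
      Nat.Coprime.pow_left _ ((Nat.Prime.coprime_iff_not_dvd hp).2 hm)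
    have : k ≡ k1 [MOD p ^ a * m] := by
      rw [← Nat.modEq_and_modEq_iff_modEq_mul hc]
      exact ⟨(e1.of_dvd (pow_dvd_pow p (by omega))).symm,
        (hkm.of_mul_left _).trans (e2.of_mul_right m').symm⟩
    exact pow_eq_of_modEq hz' this
  rw [f2, f1, RingHom.id_apply]

theorem cyc_mono {n n' : ℕ} (h : n ∣ n') : cyc n ≤ cyc n' := by
  refine adjoin.mono _ _ _ fun z hz => ?_
  obtain ⟨c, rfl⟩ := h
  have hz' : z ^ n = 1 := hz
  show z ^ (n * c) = 1
  rw [pow_mul, hz', one_pow]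

theorem cyc_one : cyc 1 = ⊥ := by
  refine le_antisymm (adjoin_le_iff.2 fun z hz => ?_) bot_le
  have : z = 1 := by simpa using hz
  rw [this]; exact one_mem _

theorem not_dvd_relfinrank {p : ℕ} (hp : p.Prime) {F K E : IntermediateField ℚ ℂ}
    (h1 : E ≤ F) (h2 : E ≤ K) (h3 : cyc p ≤ K) (h4 : K ≤ cyc p ⊔ E) :
    ¬ p ∣ F.relfinrank K := by
  have hζ := Complex.isPrimitiveRoot_exp p hp.ne_zero
  set ζ := Complex.exp (2 * Real.pi * Complex.I / p)
  rw [← IntermediateField.inf_relfinrank_right, IntermediateField.relfinrank_eq_finrank_of_le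
    (inf_le_right : F ⊓ K ≤ K)]
  have hint : IsIntegral (F ⊓ K : IntermediateField ℚ ℂ) ζ :=
    (hζ.isIntegral hp.pos).tower_top
  have : extendScalars (inf_le_right : F ⊓ K ≤ K) = (F ⊓ K : IntermediateField ℚ ℂ)⟮ζ⟯ := by
    apply le_antisymm
    · intro x hx
      have hx' : x ∈ K := hx
      have : cyc p ⊔ E ≤ restrictScalars ℚ (F ⊓ K : IntermediateField ℚ ℂ)⟮ζ⟯ := by
        refine sup_le (adjoin_le_iff.2 fun z hz => ?_) fun z hz => ?_
        · have : NeZero p := ⟨hp.ne_zero⟩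
          obtain ⟨i, -, rfl⟩ := hζ.eq_pow_of_pow_eq_one hz
          exact pow_mem (mem_adjoin_simple_self (F ⊓ K : IntermediateField ℚ ℂ) ζ) i
        · exact IntermediateField.algebraMap_mem (F ⊓ K : IntermediateField ℚ ℂ)⟮ζ⟯
            ⟨z, h1 hz, h2 hz⟩
      exact this (h4 hx')
    · rw [adjoin_simple_le_iff]
      exact h3 (mem_cyc hζ.pow_eq_one)
  rw [this, adjoin.finrank hint]
  have hpos := minpoly.natDegree_pos hint
  have hle : (minpoly (F ⊓ K : IntermediateField ℚ ℂ) ζ).natDegree ≤ p - 1 := by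
    have hd : minpoly (F ⊓ K : IntermediateField ℚ ℂ) ζ ∣
        cyclotomic p (F ⊓ K : IntermediateField ℚ ℂ) := by
      apply minpoly.dvd
      rw [aeval_def, eval₂_eq_eval_map, map_cyclotomic]
      exact hζ.isRoot_cyclotomic hp.pos
    have := natDegree_le_of_dvd hd (cyclotomic_ne_zero _ _)
    rwa [natDegree_cyclotomic, Nat.totient_prime hp] at this
  intro hd
  have := Nat.le_of_dvd hpos hd
  have := hp.pos
  omega

end Pool.Agent.Lib.MP_ec19ea_al
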