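import Pool.Agent.Lib.MP_ec19ea_al.Fun

open Finset Polynomial

namespace Pool.Agent.Lib.MP_ec19ea_al

variable {G : Type*} [Group G] {V : Type*} [AddCommGroup V] [Module ℂ V] [FiniteDimensional ℂ V]
  (ρ : Representation ℂ G V)

theorem norm_iff [Fintype G] [Nontrivial V] :
    (∀ f : Module.End ℂ V, (∀ g, ρ g * f = f * ρ g) → ∃ c : ℂ, f = c • 1) ↔
      ∑ g, ρ.character g * ρ.character g⁻¹ = Fintype.card G := by
  have hN : (Nat.card G : ℂ) ≠ 0 := Nat.cast_ne_zero.2 Nat.card_pos.ne'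
  let _ := invertibleOfNonzero hN
  have h1 := Representation.card_inv_mul_sum_char_mul_char_eq_finrank ρ ρ
  have h2 : Representation.IntertwiningMap.id ρ ≠ 0 := by
    intro h
    obtain ⟨v, hv⟩ := exists_ne (0 : V)
    exact hv (DFunLike.congr_fun h v)
  have h3 := finrank_eq_one_iff_of_nonzero' (K := ℂ) _ h2
  rw [← Nat.card_eq_fintype_card]
  constructor
  · intro h
    rw [h3.2 fun f => ?_, Nat.cast_one, inv_mul_eq_one₀ hN] at h1
    · exact h1.symm
    · obtain ⟨c, hc⟩ := h f.toLinearMap fun g => (f.2 g).symm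
      exact ⟨c, Representation.IntertwiningMap.ext hc.symm⟩
  · intro h f hf
    rw [h, inv_mul_cancel₀ hN] at h1
    obtain ⟨c, hc⟩ := h3.1 (by exact_mod_cast h1.symm) ⟨f, fun g => (hf g).symm⟩
    exact ⟨c, (congrArg Representation.IntertwiningMap.toLinearMap hc).symm⟩

theorem exists_list {Y : Module.End ℂ V} {N : ℕ} (hY : Y ^ N = 1) :
    ∃ l : List ℂ, l.length ≤ (minpoly ℂ Y).natDegree ∧ (∀ z ∈ l, z ^ N = 1) ∧
      aeval Y (l.map fun z => X - C z).prod = 0 := by
  have hi : IsIntegral ℂ Y := Algebra.IsIntegral.isIntegral Y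
  refine ⟨(minpoly ℂ Y).roots.toList, ?_, fun z hz => ?_, ?_⟩
  · rw [Multiset.length_toList]; exact card_roots' _
  · rw [Multiset.mem_toList, mem_roots (minpoly.ne_zero hi)] at hz
    have : minpoly ℂ Y ∣ X ^ N - 1 := minpoly.dvd _ _ (by simp [hY])
    have := hz.dvd this
    simpa [sub_eq_zero] using this
  · rw [Multiset.prod_map_toList,
      ← (IsAlgClosed.splits _).eq_prod_roots_of_monic (minpoly.monic hi), minpoly.aeval]

theorem char_facts [Finite G] (g : G) : IsIntegral ℤ (ρ.character g) ∧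
    ∀ (τ : ℂ →+* ℂ) (k : ℕ), (∀ z : ℂ, z ^ Nat.card G = 1 → τ z = z ^ k) →
      τ (ρ.character g) = ρ.character (g ^ k) := by
  have := trace_facts (X := ρ g) (N := Nat.card G) Nat.card_pos
    (by rw [← map_pow, pow_card_eq_one', map_one])
  simp only [← map_pow] at this
  exact this

theorem good_char [Finite G] {p r n : ℕ} {P : Subgroup G} (hP : ∀ g ∈ P, g ^ p ^ r = 1)
    (hn : ∀ u ∈ P, (minpoly ℂ (ρ u)).natDegree ≤ n) : Good p r n P ρ.character := by
  refine ⟨fun x y => ρ.char_mul_comm _ _, fun x => (char_facts ρ x).1, fun u hu => ?_⟩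
  obtain ⟨l, a1, a2, a3⟩ := exists_list (Y := ρ u) (N := p ^ r)
    (by rw [← map_pow, hP u hu, map_one])
  refine ⟨l, a1.trans (hn u hu), a2, ?_⟩
  have : ∀ (l : List ℂ) x, DD u l ρ.character x
      = LinearMap.trace ℂ V (ρ x * aeval (ρ u) (l.map fun z => X - C z).prod) := by
    intro l
    induction l with
    | nil => intro x; simp [DD]; rfl
    | cons z l ih =>
      intro x
      rw [DD_cons, ih, ih, List.map_cons, List.prod_cons, map_mul (aeval (ρ u)), map_sub, aeval_X,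
        aeval_C, Algebra.algebraMap_eq_smul_one, sub_mul, mul_sub, map_sub, map_mul ρ, mul_assoc,
        smul_mul_assoc, one_mul, mul_smul_comm, map_smul, smul_eq_mul]
  funext x
  rw [this, a3, mul_zero, map_zero]; rfl

theorem good_char' [Finite G] {p r n : ℕ} {P : Subgroup G} (hP : ∀ g ∈ P, g ^ p ^ r = 1)
    (hn : ∀ u ∈ P, (minpoly ℂ (ρ u)).natDegree ≤ n) (τ : ℂ →+* ℂ) :
    Good p r n P fun g => τ (ρ.character g⁻¹) := by
  refine ⟨fun x y => by rw [mul_inv_rev, mul_inv_rev, ρ.char_mul_comm],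
    fun x => (char_facts ρ x⁻¹).1.map τ.toIntAlgHom, fun u hu => ?_⟩
  obtain ⟨l, a1, a2, a3⟩ := exists_list (Y := ρ u⁻¹) (N := p ^ r)
    (by rw [← map_pow, hP _ (inv_mem hu), map_one])
  refine ⟨l.map τ, by rw [List.length_map]; exact a1.trans (hn _ (inv_mem hu)), fun z hz => ?_, ?_⟩
  · obtain ⟨y, hy, rfl⟩ := List.mem_map.1 hz
    rw [← map_pow, a2 y hy, map_one]
  have : ∀ (l : List ℂ) x, DD u (l.map τ) (fun g => τ (ρ.character g⁻¹)) x
      = τ (LinearMap.trace ℂ V (aeval (ρ u⁻¹) (l.map fun z => X - C z).prod * ρ x⁻¹)) := by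
    intro l
    induction l with
    | nil => intro x; simp [DD]; rfl
    | cons z l ih =>
      intro x
      rw [List.map_cons, DD_cons, ih, ih, List.map_cons, List.prod_cons, mul_comm (X - C z),
        map_mul (aeval (ρ u⁻¹)), map_sub, aeval_X,
        aeval_C, Algebra.algebraMap_eq_smul_one, mul_sub, sub_mul, map_sub, map_sub, mul_inv_rev,
        map_mul ρ, mul_assoc, mul_smul_comm, mul_one, smul_mul_assoc, map_smul, smul_eq_mul,
        map_mul τ]
  funext x
  rw [this, a3, zero_mul, map_zero, map_zero]; rfl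

theorem char_eq_of_inner [Fintype G] (τ : ℂ →+* ℂ)
    (h1 : ∑ g, ρ.character g * ρ.character g⁻¹ = Fintype.card G)
    (h2 : ∑ g, ρ.character g * τ (ρ.character g⁻¹) = Fintype.card G) (g : G) :
    τ (ρ.character g) = ρ.character g := by
  obtain ⟨k, hk, hk'⟩ := exists_pow_of_hom τ (Nat.card_pos (α := G))
  have hc : ∀ x, ρ.character x⁻¹ = (starRingEnd ℂ) (ρ.character x) := by
    intro x
    obtain ⟨n, hn⟩ : ∃ n, Nat.card G = n + 1 := ⟨_, (Nat.succ_pred Nat.card_pos.ne').symm⟩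
    rw [(char_facts ρ x).2 (starRingEnd ℂ) n fun z hz => ?_]
    · congr 1
      rw [inv_eq_iff_mul_eq_one, ← pow_succ', ← hn, pow_card_eq_one']
    · have h3 : ‖z‖ = 1 := Complex.norm_eq_one_of_pow_eq_one hz Nat.card_pos.ne'
      rw [← Complex.inv_eq_conj h3]
      rw [hn, pow_succ'] at hz
      exact inv_eq_of_mul_eq_one_right hz
  have hτ : ∀ x, τ (ρ.character x) = ρ.character (x ^ k) := fun x => (char_facts ρ x).2 τ k hk'
  simp only [hτ, inv_pow] at h2
  simp only [hc] at h1 h2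
  have h3 : ∑ g, ρ.character (g ^ k) * (starRingEnd ℂ) (ρ.character (g ^ k)) = Fintype.card G := by
    rw [← h1]
    exact Equiv.sum_comp (powCoprime hk.symm)
      fun g => ρ.character g * (starRingEnd ℂ) (ρ.character g)
  have h4 := congrArg (starRingEnd ℂ) h2
  simp only [map_sum, map_mul, Complex.conj_conj, map_natCast] at h4
  have h5 : ∑ g, (Complex.normSq (ρ.character g - ρ.character (g ^ k)) : ℂ) = 0 := by
    simp only [← Complex.mul_conj, map_sub, mul_sub, sub_mul, sum_sub_distrib]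
    rw [sum_congr rfl fun _ _ => mul_comm _ _] at h4
    rw [h1, h2, h3, h4]; ring
  have h6 : ∑ g, Complex.normSq (ρ.character g - ρ.character (g ^ k)) = 0 := by
    exact_mod_cast h5
  rw [sum_eq_zero_iff_of_nonneg fun g _ => Complex.normSq_nonneg _] at h6
  have := h6 g (mem_univ g)
  rw [Complex.normSq_eq_zero, sub_eq_zero] at this
  rw [hτ, ← this]

theorem core [Finite G] {p : ℕ} [hp : Fact p.Prime] (hinj : Function.Injective ρ)
    (hirr : ∀ f : Module.End ℂ V, (∀ g, ρ g * f = f * ρ g) → ∃ c : ℂ, f = c • 1)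
    (hd : ¬ p ∣ Module.finrank ℂ V) (P : Sylow p G) {a n : ℕ}
    (hn : ∀ u ∈ P, (minpoly ℂ (ρ u)).natDegree ≤ n) (hn' : 2 * n ≤ p ^ a * (p - 1))
    (τ : ℂ →+* ℂ) (hτ : ∀ z : ℂ, z ^ p = 1 → τ z = z)
    (hχ : ∀ g ∈ P, τ (ρ.character g) = ρ.character g) :
    (∀ z : ℂ, z ^ p ^ (a + 1) = 1 → τ z = z) ∨
      ∃ N, ¬ p ∣ N ∧ ∀ g, ρ.character g ∈ cyc (p ^ a * N) := by
  have : Nontrivial V := Module.nontrivial_of_finrank_pos (R := ℂ)
    (Nat.pos_of_ne_zero fun h => hd (h ▸ dvd_zero p))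
  let _ : Fintype G := Fintype.ofFinite G
  obtain ⟨r, N, hN, hG⟩ := Nat.exists_eq_pow_mul_and_not_dvd (Nat.card_pos (α := G)).ne' p
    hp.out.ne_one
  have hP : ∀ g ∈ P.1, g ^ p ^ r = 1 := fun g hg => pow_eq_one_of_pgroup hG hN P.isPGroup' hg
  have hG' : ∀ g : G, (g ^ N) ^ p ^ r = 1 := fun g => by
    rw [← pow_mul, mul_comm, ← hG, pow_card_eq_one']
  have N0 : 0 < N := Nat.pos_of_ne_zero (by rintro rfl; exact hN (dvd_zero p))
  obtain ⟨H, hH⟩ : ∃ H, H = Subgroup.normalizer (wc p r a P.1 : Set G) := ⟨_, rfl⟩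
  let _ : Fintype H := Fintype.ofFinite H
  have hPH : P.1 ≤ H := fun t ht => hH ▸ wc_conj fun x hx =>
    mul_mem (mul_mem ht (wc_le _ _ _ _ hx)) (inv_mem ht)
  have h1 := (norm_iff ρ).1 hirr
  have hcG : (Fintype.card G : ℂ) ≠ 0 := Nat.cast_ne_zero.2 Fintype.card_ne_zero
  have hcH : (Fintype.card H : ℂ) ≠ 0 := Nat.cast_ne_zero.2 Fintype.card_ne_zero
  have h2 := local_inner P (good_char ρ hP hn) (good_char' ρ hP hn (RingHom.id ℂ)) hn' H hH
  simp only [RingHom.id_apply, h1] at h2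
  have h3 : ∑ h : H, ρ.character h * ρ.character (h : G)⁻¹ = Fintype.card H :=
    mul_left_cancel₀ hcG (h2.trans (mul_comm _ _))
  have hAn : ((wc p r a P.1).subgroupOf H).Normal := by
    rw [hH]; exact Subgroup.normal_in_normalizer
  have := dichotomy (p := p) (ρ.comp H.subtype) (hinj.comp Subtype.val_injective)
    ((norm_iff (ρ.comp H.subtype)).2 h3) hd (P.subtype hPH) ((wc p r a P.1).subgroupOf H)
    (fun x hx => (wc_le p r a P.1 hx : (x : G) ∈ P.1)) (a := a)
    (fun g hg => Subgroup.subset_closure ⟨pow_mem hg _, g, hP g hg, rfl⟩)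
    (r := r) (N := N) (fun g => Subtype.ext (hG' g)) N0 (fun g hg => Subtype.ext (hP g hg)) τ hτ
    (fun g hg => hχ g hg)
  refine this.imp_right fun h => ⟨N, hN, fun g => ?_⟩
  refine mem_of_fixed _ ((char_facts ρ g).1.tower_top (A := ℚ)).isAlgebraic fun τ' hτ' => ?_
  refine char_eq_of_inner ρ τ' h1 ?_ g
  have h4 := local_inner P (good_char ρ hP hn) (good_char' ρ hP hn τ') hn' H hH
  have h5 : ∀ x : H, τ' (ρ.character (x : G)⁻¹) = ρ.character (x : G)⁻¹ :=
    fun x => hτ' _ (h x⁻¹)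
  simp only [h5, h3] at h4
  exact (mul_left_cancel₀ hcH ((mul_comm _ _).trans h4)).symm

theorem core' [Finite G] {p : ℕ} [hp : Fact p.Prime]
    (hirr : ∀ f : Module.End ℂ V, (∀ g, ρ g * f = f * ρ g) → ∃ c : ℂ, f = c • 1)
    (hd : ¬ p ∣ Module.finrank ℂ V) (P : Sylow p G) {a n : ℕ}
    (hn : ∀ u ∈ P, (minpoly ℂ (ρ u)).natDegree ≤ n) (hn' : 2 * n ≤ p ^ a * (p - 1))
    (τ : ℂ →+* ℂ) (hτ : ∀ z : ℂ, z ^ p = 1 → τ z = z)
    (hχ : ∀ g ∈ P, τ (ρ.character g) = ρ.character g) :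
    (∀ z : ℂ, z ^ p ^ (a + 1) = 1 → τ z = z) ∨
      ∃ N, ¬ p ∣ N ∧ ∀ g, ρ.character g ∈ cyc (p ^ a * N) := by
  let ρ' : Representation ℂ (G ⧸ MonoidHom.ker ρ) V := QuotientGroup.lift _ ρ le_rfl
  have hs := QuotientGroup.mk'_surjective (MonoidHom.ker ρ)
  have := core ρ' (p := p)
    (fun x y h => by
      obtain ⟨x, rfl⟩ := QuotientGroup.mk_surjective x
      obtain ⟨y, rfl⟩ := QuotientGroup.mk_surjective y
      have h' : ρ x = ρ y := h
      rw [QuotientGroup.eq, MonoidHom.mem_ker, map_mul, ← h', ← map_mul, inv_mul_cancel, map_one])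
    (fun f hf => hirr f fun g => hf g) hd (P.mapSurjective hs) (a := a) (n := n)
    (by rintro _ ⟨u, hu, rfl⟩; exact hn u hu) hn' τ hτ
    (by rintro _ ⟨u, hu, rfl⟩; exact hχ u hu)
  exact this.imp_right fun ⟨N, h1, h2⟩ => ⟨N, h1, fun g => h2 g⟩

theorem char_mem_cyc [Finite G] {g : G} {n : ℕ} (hg : g ^ n = 1) : ρ.character g ∈ cyc n := by
  have := trace_mem (X := ρ g) (e := 1) (N := Nat.card G) (M := n) Nat.card_pos
    (by rw [← map_pow, pow_card_eq_one', map_one]) (mul_one _) (Commute.one_right _)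
    (by rw [← map_pow, hg, map_one, mul_one])
  rwa [mul_one] at this

theorem main [Finite G] [ρ.IsIrreducible] (p : ℕ) [hp : Fact p.Prime]
    (hd : ¬ p ∣ Module.finrank ℂ V) (a m : ℕ) (hm : ¬ p ∣ m)
    (hc : conductor (valField ρ.character Set.univ) = p ^ a * m) (P : Sylow p G)
    (hs : 2 * Module.finrank ℂ V ≤ (p ^ max a 2).totient ∨
      ∀ u ∈ P, 2 * (minpoly ℂ (ρ u)).natDegree ≤ (p ^ max a 2).totient) :
    cyc (p ^ a) ≤ cyc p ⊔ valField ρ.character P ∧
      ¬ p ∣ (valField ρ.character Set.univ).relfinrank (cyc (p ^ a)) := by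
  have hs' : ∀ u ∈ P, (minpoly ℂ (ρ u)).natDegree ≤ (p ^ max a 2).totient / 2 := by
    intro u hu
    rcases hs with h | h
    · have := natDegree_le_of_dvd (LinearMap.minpoly_dvd_charpoly (ρ u))
        (LinearMap.charpoly_monic _).ne_zero
      rw [LinearMap.charpoly_natDegree] at this
      omega
    · have := h u hu
      omega
  have hne : {n : ℕ | 0 < n ∧ valField ρ.character Set.univ ≤ cyc n}.Nonempty :=
    ⟨Nat.card G, Nat.card_pos, IntermediateField.adjoin_le_iff.2 (by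
      rintro _ ⟨g, -, rfl⟩
      exact char_mem_cyc ρ pow_card_eq_one')⟩
  have hF : valField ρ.character Set.univ ≤ cyc (p ^ a * m) := hc ▸ (Nat.sInf_mem hne).2
  have hF' : ∀ g, ρ.character g ∈ cyc (p ^ a * m) := fun g =>
    hF (IntermediateField.subset_adjoin _ _ ⟨g, trivial, rfl⟩)
  have m0 : 0 < m := Nat.pos_of_ne_zero (by rintro rfl; exact hm (dvd_zero p))
  have h1 : cyc (p ^ a) ≤ cyc p ⊔ valField ρ.character P := by
    by_cases ha : a ≤ 1
    · refine le_sup_of_le_left (cyc_mono ?_)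
      simpa using pow_dvd_pow p ha
    obtain ⟨b, rfl⟩ : ∃ b, a = b + 1 := ⟨a - 1, by omega⟩
    rw [max_eq_left (by omega), Nat.totient_prime_pow_succ hp.out] at hs'
    refine IntermediateField.adjoin_le_iff.2 fun z hz => ?_
    refine mem_of_fixed _ ((alg_of_pow (pow_pos hp.out.pos _) hz).tower_top
      (A := ℚ)).isAlgebraic fun τ hτ => ?_
    rcases core' ρ (p := p) (fun f hf => by
        obtain ⟨c, hc⟩ := (Representation.IsIrreducible.algebraMap_intertwiningMap_bijective_of_isAlgClosed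
          (ρ := ρ)).2 ⟨f, fun g => (hf g).symm⟩
        exact ⟨c, (congrArg Representation.IntertwiningMap.toLinearMap hc).symm⟩)
      hd P hs' (a := b) (by omega) τ
      (fun z hz => hτ z (le_sup_left (α := IntermediateField ℚ ℂ) (mem_cyc hz)))
      (fun g hg => hτ _ (le_sup_right (α := IntermediateField ℚ ℂ)
        (IntermediateField.subset_adjoin _ _ ⟨g, hg, rfl⟩))) with h | ⟨N, hN, h⟩
    · exact h z hz
    · exfalso
      have h2 : conductor (valField ρ.character Set.univ) ≤ p ^ b * m :=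
        Nat.sInf_le ⟨Nat.mul_pos (pow_pos hp.out.pos _) m0, IntermediateField.adjoin_le_iff.2 (by
          rintro _ ⟨g, -, rfl⟩
          exact mem_cyc_of_inter hp.out hm hN (hF' g) (h g))⟩
      rw [hc] at h2
      exact absurd (Nat.le_of_mul_le_mul_right h2 m0)
        (not_le.2 (Nat.pow_lt_pow_right hp.out.one_lt (by omega)))
  refine ⟨h1, ?_⟩
  rcases Nat.eq_zero_or_pos a with rfl | ha
  · rw [pow_zero, cyc_one, IntermediateField.relfinrank_bot_right, Nat.dvd_one]
    exact hp.out.ne_one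
  refine not_dvd_relfinrank hp.out (IntermediateField.adjoin.mono _ _ _
    (Set.image_mono (Set.subset_univ _))) (IntermediateField.adjoin_le_iff.2 ?_)
    (cyc_mono (dvd_pow_self p ha.ne')) h1
  rintro _ ⟨g, hg, rfl⟩
  obtain ⟨k, hk⟩ := P.isPGroup' ⟨g, hg⟩
  have h2 : ρ.character g ∈ cyc (p ^ k * 1) :=
    char_mem_cyc ρ (by rw [mul_one]; exact congrArg Subtype.val hk)
  have := mem_cyc_of_inter hp.out (by simpa using hp.out.ne_one) hm h2 (hF' g)
  rwa [mul_one] at this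

end Pool.Agent.Lib.MP_ec19ea_al
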