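import Mathlib

open Finset Polynomial

namespace Pool.Agent.Lib.MP_ec19ea_al

theorem poly_identity (p a : ℕ) [hp : Fact p.Prime] : ∃ q : ℤ[X],
    ∑ j ∈ range p, (X ^ p ^ a) ^ j = (X - 1) ^ (p ^ a * (p - 1)) + (p : ℤ[X]) * q := by
  have h1 : ∑ j ∈ range p, ((X : (ZMod p)[X]) ^ p ^ a) ^ j = (X - 1) ^ (p ^ a * (p - 1)) := by
    have e1 : ((X : (ZMod p)[X]) - 1) ^ p ^ a = X ^ p ^ a - 1 := by
      rw [sub_pow_char_pow, one_pow]
    have e2 : ((X : (ZMod p)[X]) - 1) ^ p ^ a ≠ 0 := pow_ne_zero _ (X_sub_C_ne_zero 1)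
    apply mul_right_cancel₀ e2
    rw [pow_mul, ← pow_succ, Nat.sub_add_cancel hp.out.one_le, e1, geom_sum_mul, sub_pow_char,
      one_pow]
  have h2 : C (p : ℤ) ∣
      ∑ j ∈ range p, ((X : ℤ[X]) ^ p ^ a) ^ j - (X - 1) ^ (p ^ a * (p - 1)) := by
    rw [C_dvd_iff_dvd_coeff]
    intro i
    rw [← ZMod.intCast_zmod_eq_zero_iff_dvd]
    have : (∑ j ∈ range p, ((X : ℤ[X]) ^ p ^ a) ^ j - (X - 1) ^ (p ^ a * (p - 1))).map
        (Int.castRingHom (ZMod p)) = 0 := by
      simp only [Polynomial.map_sub, Polynomial.map_sum, Polynomial.map_pow, map_X,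
        Polynomial.map_one, h1, sub_self]
    have h3 := congrArg (fun f => coeff f i) this
    simpa only [coeff_map, coeff_zero, eq_intCast] using h3
  obtain ⟨q, hq⟩ := h2
  exact ⟨q, by rw [← sub_eq_iff_eq_add', hq]; simp⟩

variable {M : Type*} [AddCommGroup M] [Module ℂ M] (Λ : AddSubgroup M) (w : ℂ)

/-- operators preserving the lattice -/
def pres : Subring (Module.End ℂ M) where
  carrier := {T | ∀ F ∈ Λ, T F ∈ Λ}
  mul_mem' h1 h2 F hF := h1 _ (h2 F hF)
  one_mem' _ hF := hF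
  add_mem' h1 h2 F hF := add_mem (h1 F hF) (h2 F hF)
  zero_mem' _ _ := zero_mem _
  neg_mem' h F hF := neg_mem (h F hF)

/-- operators mapping the lattice into `w` times the lattice -/
def null : AddSubgroup (Module.End ℂ M) where
  carrier := {T | ∀ F ∈ Λ, ∃ F' ∈ Λ, T F = w • F'}
  add_mem' h1 h2 F hF := by
    obtain ⟨a, ha, e1⟩ := h1 F hF
    obtain ⟨b, hb, e2⟩ := h2 F hF
    exact ⟨a + b, add_mem ha hb, by rw [LinearMap.add_apply, e1, e2, smul_add]⟩
  zero_mem' _ _ := ⟨0, zero_mem _, by simp⟩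
  neg_mem' h F hF := by
    obtain ⟨a, ha, e1⟩ := h F hF
    exact ⟨-a, neg_mem ha, by rw [LinearMap.neg_apply, e1, smul_neg]⟩

variable {Λ w}

theorem null_mul {S T : Module.End ℂ M} (hS : S ∈ null Λ w) (hT : T ∈ pres Λ) :
    S * T ∈ null Λ w := fun F hF => hS _ (hT F hF)

theorem mul_null {S T : Module.End ℂ M} (hS : S ∈ pres Λ) (hT : T ∈ null Λ w) :
    S * T ∈ null Λ w := fun F hF => by
  obtain ⟨a, ha, e⟩ := hT F hF
  exact ⟨S a, hS a ha, by rw [Module.End.mul_apply, e, map_smul]⟩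

theorem null_pow {S : Module.End ℂ M} (hS : S ∈ pres Λ) {n k : ℕ} (h : S ^ n ∈ null Λ w)
    (hk : n ≤ k) : S ^ k ∈ null Λ w := by
  obtain ⟨c, rfl⟩ := Nat.exists_eq_add_of_le hk
  rw [pow_add]
  exact null_mul h (pow_mem hS c)

theorem null_norm {s t : Module.End ℂ M} (hst : Commute s t) (hs : s ∈ pres Λ) (ht : t ∈ pres Λ)
    {n p a : ℕ} [Fact p.Prime] (h1 : (s - 1) ^ n ∈ null Λ w) (h2 : (t - 1) ^ n ∈ null Λ w)
    (h3 : (p : Module.End ℂ M) ∈ null Λ w) (hn : 2 * n ≤ p ^ a * (p - 1)) :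
    ∑ j ∈ range p, ((s * t) ^ p ^ a) ^ j ∈ null Λ w := by
  obtain ⟨q, hq⟩ := poly_identity p a
  have := congrArg (aeval (s * t)) hq
  simp only [map_sum, map_pow, aeval_X, map_add, map_sub, map_one, map_mul, map_natCast] at this
  rw [this]
  have hs1 := sub_mem hs (one_mem _)
  have ht1 := sub_mem ht (one_mem _)
  refine add_mem ?_ (null_mul h3 ?_)
  · have e : s * t - 1 = s * (t - 1) + (s - 1) := by noncomm_ring
    have c1 : Commute s (t - 1) := hst.sub_right (Commute.one_right _)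
    have c2 : Commute (s * (t - 1)) (s - 1) :=
      (((Commute.refl s).mul_left c1.symm).sub_right (Commute.one_right _))
    rw [e, c2.add_pow]
    refine sum_mem fun i hi => null_mul ?_ (natCast_mem _ _)
    by_cases h : n ≤ i
    · rw [c1.mul_pow]
      exact null_mul (mul_null (pow_mem hs _) (null_pow ht1 h2 h)) (pow_mem hs1 _)
    · exact mul_null (pow_mem (mul_mem hs ht1) _) (null_pow hs1 h1 (by omega))
  · rw [aeval_eq_sum_range]
    exact sum_mem fun i _ => zsmul_mem (pow_mem (mul_mem hs ht) i) _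

theorem orbit_sum {A : Type*} [Group A] [Finite A] {p : ℕ} [hp : Fact p.Prime]
    (hA : IsPGroup p A) (α : A →* Module.End ℂ M)
    (hgen : ∀ B : Subgroup A, B ≠ ⊤ → ∃ x, x ∉ B ∧ ∑ j ∈ range p, α x ^ j ∈ null Λ w)
    {Y : Type*} [MulAction A Y] (f : Y → M) (hf : ∀ y, f y ∈ Λ)
    (hf' : ∀ x y, f (x • y) = α x (f y)) (S : Finset Y) (hS : ∀ x : A, ∀ y ∈ S, x • y ∈ S)
    (hS' : ∀ y ∈ S, ∃ x : A, x • y ≠ y) : ∃ F' ∈ Λ, ∑ y ∈ S, f y = w • F' := by
  classical
  let _ : Fintype A := Fintype.ofFinite A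
  induction S using Finset.strongInduction with
  | H S ih =>
  rcases S.eq_empty_or_nonempty with rfl | ⟨y0, hy0⟩
  · exact ⟨0, zero_mem _, by simp⟩
  let O : Finset Y := univ.image fun x : A => x • y0
  have hO : O ⊆ S := fun y hy => by
    obtain ⟨x, -, rfl⟩ := mem_image.1 hy
    exact hS x y0 hy0
  have hy0O : y0 ∈ O := mem_image.2 ⟨1, mem_univ _, one_smul _ _⟩
  obtain ⟨F1, hF1, e1⟩ := ih (S \ O) (sdiff_ssubset hO ⟨y0, hy0O⟩)
    (fun x y hy => by
      rw [mem_sdiff] at hy ⊢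
      refine ⟨hS x y hy.1, fun h => hy.2 ?_⟩
      obtain ⟨z, -, hz⟩ := mem_image.1 h
      exact mem_image.2 ⟨x⁻¹ * z, mem_univ _, by rw [mul_smul, hz, inv_smul_smul]⟩)
    (fun y hy => hS' y (mem_sdiff.1 hy).1)
  suffices h : ∃ F2 ∈ Λ, ∑ y ∈ O, f y = w • F2 by
    obtain ⟨F2, hF2, e2⟩ := h
    exact ⟨F1 + F2, add_mem hF1 hF2, by rw [← sum_sdiff hO, e1, e2, smul_add]⟩
  obtain ⟨k, hk⟩ := IsPGroup.iff_card.1 hA
  obtain ⟨n, hn⟩ := IsPGroup.iff_card.1 (hA.to_subgroup (MulAction.stabilizer A y0))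
  have hnk : n < k := by
    by_contra h
    obtain ⟨x, hx⟩ := hS' y0 hy0
    have h1 : MulAction.stabilizer A y0 = ⊤ := by
      apply Subgroup.eq_top_of_le_card
      rw [hk, hn]
      exact Nat.pow_le_pow_right hp.out.pos (by omega)
    exact hx (MulAction.mem_stabilizer_iff.1 (h1 ▸ Subgroup.mem_top x))
  obtain ⟨B, hB, hB'⟩ := Sylow.exists_subgroup_card_pow_prime_le p (m := k - 1)
    (by rw [hk]; exact pow_dvd_pow p (by omega)) _ hn (by omega)
  have hi : B.index = p := by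
    have := B.index_mul_card
    rw [hB, hk, show k = (k - 1) + 1 by omega, pow_succ'] at this
    simp only [Nat.add_sub_cancel] at this
    exact Nat.eq_of_mul_eq_mul_right (pow_pos hp.out.pos _) this
  have hBn : B.Normal := Subgroup.normal_of_index_eq_minFac_card
    (by rw [hi, hk, hp.out.pow_minFac (by omega)])
  obtain ⟨x, hx, hnull⟩ := hgen B (by
    rintro rfl
    rw [Subgroup.index_top] at hi
    exact hp.out.one_lt.ne hi)
  have hx1 : (x : A ⧸ B) ≠ 1 := fun h => hx ((QuotientGroup.eq_one_iff x).1 h)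
  have hcard : Nat.card (A ⧸ B) = p := hi
  have hord : orderOf (x : A ⧸ B) = p := by
    have := orderOf_dvd_natCard (x : A ⧸ B)
    rw [hcard, Nat.dvd_prime hp.out] at this
    exact this.resolve_left fun h => hx1 (orderOf_eq_one_iff.1 h)
  let O1 : Finset Y := (univ.filter fun b : A => b ∈ B).image fun b => b • y0
  obtain ⟨F2, hF2, e2⟩ := hnull (∑ y ∈ O1, f y) (sum_mem fun y _ => hf y)
  refine ⟨F2, hF2, ?_⟩
  rw [← e2, LinearMap.sum_apply]
  simp only [map_sum, ← map_pow, ← hf']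
  rw [← sum_product']
  symm
  refine sum_bij (fun z _ => x ^ z.1 • z.2) ?_ ?_ ?_ fun _ _ => rfl
  · rintro ⟨j, y⟩ hz
    obtain ⟨b, -, rfl⟩ := mem_image.1 (mem_product.1 hz).2
    exact mem_image.2 ⟨x ^ j * b, mem_univ _, mul_smul _ _ _⟩
  · rintro ⟨i, y⟩ hz ⟨j, y'⟩ hz' h
    obtain ⟨b, hb, rfl⟩ := mem_image.1 (mem_product.1 hz).2
    obtain ⟨b', hb', rfl⟩ := mem_image.1 (mem_product.1 hz').2
    have hi := mem_range.1 (mem_product.1 hz).1
    have hj := mem_range.1 (mem_product.1 hz').1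
    have h1 : (x ^ j * b')⁻¹ * (x ^ i * b) ∈ B := hB' (by
      rw [MulAction.mem_stabilizer_iff, mul_smul, inv_smul_eq_iff, mul_smul, mul_smul]
      exact h)
    rw [← QuotientGroup.eq, QuotientGroup.mk_mul, QuotientGroup.mk_mul,
      (QuotientGroup.eq_one_iff b).2 (mem_filter.1 hb).2,
      (QuotientGroup.eq_one_iff b').2 (mem_filter.1 hb').2, mul_one, mul_one,
      QuotientGroup.mk_pow, QuotientGroup.mk_pow] at h1
    have h2 : j = i := pow_injOn_Iio_orderOf (by rwa [hord]) (by rwa [hord]) h1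
    subst h2
    simp only at h
    rw [smul_left_cancel_iff] at h
    rw [h]
  · intro y hy
    obtain ⟨z, -, rfl⟩ := mem_image.1 hy
    obtain ⟨j, hj⟩ := mem_powers_of_prime_card hcard (g' := (z : A ⧸ B)) hx1
    simp only at hj
    rw [← pow_mod_orderOf, hord, ← QuotientGroup.mk_pow, QuotientGroup.eq] at hj
    refine ⟨(j % p, ((x ^ (j % p))⁻¹ * z) • y0), mem_product.2 ⟨mem_range.2
      (Nat.mod_lt _ hp.out.pos), mem_image.2 ⟨_, mem_filter.2 ⟨mem_univ _, hj⟩, rfl⟩⟩, ?_⟩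
    simp only
    rw [mul_smul, smul_inv_smul]

theorem invariant_of_local {G : Type*} [Group G] [Finite G] {p : ℕ} [hp : Fact p.Prime]
    (α : G →* Module.End ℂ M) (hα : ∀ g, α g ∈ pres Λ) (A H : Subgroup G) (hA : IsPGroup p A)
    (hAH : A ≤ H)
    (hgen : ∀ B : Subgroup A, B ≠ ⊤ → ∃ x : A, x ∉ B ∧ ∑ j ∈ range p, α x ^ j ∈ null Λ w)
    (hfix : ∀ g : G, (∀ x ∈ A, g⁻¹ * x * g ∈ H) → g ∈ H) (hw : w ≠ 0)
    (hsep : ∀ F : M, (∀ j : ℕ, ∃ F' ∈ Λ, F = w ^ j • F') → F = 0)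
    {Φ : M} (h1 : Φ ∈ Λ) (h2 : ∀ h ∈ H, α h Φ = Φ) (g : G) : α g Φ = Φ := by
  classical
  let _ : Fintype (G ⧸ H) := Fintype.ofFinite _
  let T : Module.End ℂ M := ∑ c : G ⧸ H, α c.out
  have hT : ∀ F, T F = ∑ c : G ⧸ H, α c.out F := fun F => LinearMap.sum_apply _ _ _
  have hequiv : ∀ F, (∀ h ∈ H, α h F = F) → ∀ (x : G) (c : G ⧸ H),
      α (x • c).out F = α x (α c.out F) := by
    intro F hF x c
    obtain ⟨h, hh⟩ := QuotientGroup.mk_out_eq_mul H (x * c.out)
    have : x • c = ((x * c.out : G) : G ⧸ H) := by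
      conv_lhs => rw [← c.out_eq']
      rfl
    rw [this, hh, map_mul, map_mul, Module.End.mul_apply, Module.End.mul_apply, hF h h.2]
  have hinv : ∀ F, (∀ h ∈ H, α h F = F) → ∀ x, α x (T F) = T F := by
    intro F hF x
    rw [hT, map_sum]
    simp only [← hequiv F hF]
    exact Equiv.sum_comp (MulAction.toPerm x) (fun c : G ⧸ H => α c.out F)
  have hstep : ∀ F ∈ Λ, (∀ h ∈ H, α h F = F) → ∃ F' ∈ Λ, T F = F + w • F' := by
    intro F hF hF'
    obtain ⟨F', a1, a2⟩ := orbit_sum (Λ := Λ) (w := w) hA (α.comp A.subtype) hgen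
      (fun c : G ⧸ H => α c.out F) (fun c => hα _ F hF) (fun x c => hequiv F hF' x c)
      (univ.erase ((1 : G) : G ⧸ H))
      (fun x y hy => by
        refine mem_erase.2 ⟨fun h => (mem_erase.1 hy).1 ?_, mem_univ _⟩
        have hx : (x : G)⁻¹ ∈ H := inv_mem (hAH x.2)
        rw [← inv_smul_smul x y, h]
        show (((x : G)⁻¹ * 1 : G) : G ⧸ H) = ((1 : G) : G ⧸ H)
        rw [mul_one, eq_comm, QuotientGroup.eq]; simpa using hx)
      (fun y hy => by
        by_contra h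
        push Not at h
        apply (mem_erase.1 hy).1
        obtain ⟨g, rfl⟩ := QuotientGroup.mk_surjective y
        have : g ∈ H := hfix g fun x hx => by
          have : ((x * g : G) : G ⧸ H) = g := h ⟨x, hx⟩
          rw [eq_comm, QuotientGroup.eq] at this
          rwa [mul_assoc]
        rw [eq_comm, QuotientGroup.eq]; simpa using this)
    refine ⟨F', a1, ?_⟩
    rw [hT, ← add_sum_erase _ _ (mem_univ ((1 : G) : G ⧸ H)), a2]
    congr 1
    obtain ⟨h, hh⟩ := QuotientGroup.mk_out_eq_mul H 1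
    rw [hh, one_mul, hF' h h.2]
  have hzero : ∀ F ∈ Λ, (∀ h ∈ H, α h F = F) → T F = 0 → F = 0 := by
    intro F a1 a2 a3
    refine hsep F fun j => ?_
    suffices h : ∃ F' ∈ Λ, (∀ h ∈ H, α h F' = F') ∧ T F' = 0 ∧ F = w ^ j • F' by
      obtain ⟨F', b1, -, -, b2⟩ := h
      exact ⟨F', b1, b2⟩
    induction j with
    | zero => exact ⟨F, a1, a2, a3, by simp⟩
    | succ j ih =>
      obtain ⟨F1, b1, b2, b3, b4⟩ := ih
      obtain ⟨F2, c1, c2⟩ := hstep F1 b1 b2
      have c3 : F1 = w • (-F2) := by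
        rw [smul_neg, eq_neg_iff_add_eq_zero, ← c2, b3]
      refine ⟨-F2, neg_mem c1, fun h hh => ?_, ?_, by rw [b4, c3, smul_smul, pow_succ]⟩
      · apply smul_right_injective M hw
        simp only
        rw [← map_smul, ← c3, b2 h hh]
      · apply smul_right_injective M hw
        simp only
        rw [← map_smul, ← c3, b3, smul_zero]
  have hc : ((Fintype.card (G ⧸ H) : ℕ) : ℂ) ≠ 0 := Nat.cast_ne_zero.2 Fintype.card_ne_zero
  have key := hzero (Fintype.card (G ⧸ H) • Φ - T Φ)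
    (sub_mem (nsmul_mem h1 _) (by rw [hT]; exact sum_mem fun c _ => hα _ Φ h1))
    (fun h hh => by rw [map_sub, map_nsmul, h2 h hh, hinv Φ h2])
    (by
      rw [map_sub, map_nsmul, hT (T Φ)]
      simp only [hinv Φ h2, sum_const, card_univ, sub_self])
  rw [sub_eq_zero, ← Nat.cast_smul_eq_nsmul ℂ] at key
  apply smul_right_injective M hc
  simp only
  rw [← map_smul, key, hinv Φ h2]

end Pool.Agent.Lib.MP_ec19ea_al
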