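import Pool.Agent.Lib.MP_ec19ea_al.Eig

/-! Complete families of irreducible characters. -/

namespace Pool.Agent.Lib.MP_ec19ea_al.Tw

open Subgroup Finset Matrix
open scoped Classical

/-- The number of elements conjugating `x` to `y`. -/
noncomputable def cnt {G : Type} [Group G] [Fintype G] (x y : G) : ℕ :=
  (univ.filter fun g : G => g * x * g⁻¹ = y).card

/-- A complete family of irreducible complex matrix representations. -/
structure CT (G : Type) [Group G] [Fintype G] where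
  n : ℕ
  d : Fin n → ℕ
  hd : ∀ i, d i ≠ 0
  ρ : ∀ i, G →* Matrix (Fin (d i)) (Fin (d i)) ℂ
  surj : ∀ M : (∀ i, Matrix (Fin (d i)) (Fin (d i)) ℂ), ∃ w : G → ℂ, ∀ i,
    ∑ x, w x • ρ i x = M i
  col : ∀ x y, ∑ i, trace (ρ i x) * trace (ρ i y⁻¹) = cnt x y

lemma trace_mulLeftRight_pi {n : ℕ} (d : Fin n → ℕ)
    (A B : ∀ i, Matrix (Fin (d i)) (Fin (d i)) ℂ) :
    LinearMap.trace ℂ _ (LinearMap.mulLeftRight ℂ (A, B)) = ∑ i, trace (A i) * trace (B i) := by
  rw [LinearMap.trace_eq_matrix_trace ℂ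
    (Pi.basis fun i => Matrix.stdBasis ℂ (Fin (d i)) (Fin (d i))), Matrix.trace,
    Fintype.sum_sigma]
  refine Finset.sum_congr rfl fun i _ => ?_
  rw [Fintype.sum_prod_type, Matrix.trace, Matrix.trace, Finset.sum_mul_sum]
  refine Finset.sum_congr rfl fun a _ => Finset.sum_congr rfl fun b _ => ?_
  have h : ∀ M : Matrix (Fin (d i)) (Fin (d i)) ℂ,
      (Matrix.stdBasis ℂ (Fin (d i)) (Fin (d i))).repr M (a, b) = M a b := fun M => rfl
  simp only [diag_apply, LinearMap.toMatrix_apply, Pi.basis_apply, Pi.basis_repr,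
    LinearMap.mulLeftRight_apply, Pi.mul_apply, Pi.single_eq_same, h, stdBasis_eq_single]
  simp [Matrix.mul_apply, Matrix.single, ite_and]

theorem exists_ct (G : Type) [Group G] [Fintype G] : Nonempty (CT G) := by
  have : NeZero (Nat.card G : ℂ) := ⟨Nat.cast_ne_zero.2 Nat.card_pos.ne'⟩
  have : FiniteDimensional ℂ (MonoidAlgebra ℂ G) :=
    Module.Finite.of_basis (MonoidAlgebra.basis G ℂ)
  obtain ⟨n, d, hd, ⟨e⟩⟩ :=
    IsSemisimpleRing.exists_algEquiv_pi_matrix_of_isAlgClosed ℂ (MonoidAlgebra ℂ G)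
  refine ⟨⟨n, d, fun i => (hd i).ne, fun i => (Pi.evalMonoidHom
    (fun i => Matrix (Fin (d i)) (Fin (d i)) ℂ) i).comp
    (e.toMulEquiv.toMonoidHom.comp (MonoidAlgebra.of ℂ G)), fun M => ?_, fun x y => ?_⟩⟩
  · refine ⟨(e.symm M).coeff, fun i => ?_⟩
    have h := (MonoidAlgebra.basis G ℂ).sum_repr (e.symm M)
    have h2 := congrArg (fun z => e z i) h
    simp only [map_sum, map_smul, AlgEquiv.apply_symm_apply, Finset.sum_apply,
      Pi.smul_apply] at h2
    exact h2
  · have h := trace_mulLeftRight_pi d (e (MonoidAlgebra.of ℂ G y⁻¹)) (e (MonoidAlgebra.of ℂ G x))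
    have h2 := AlgEquiv.linearEquivConj_mulLeftRight e
      (MonoidAlgebra.of ℂ G y⁻¹, MonoidAlgebra.of ℂ G x)
    rw [Prod.map_apply] at h2
    rw [← h2, LinearMap.trace_conj', LinearMap.trace_eq_matrix_trace ℂ (MonoidAlgebra.basis G ℂ),
      Matrix.trace] at h
    simp only [mul_comm (trace (e (MonoidAlgebra.of ℂ G y⁻¹) _))] at h
    refine h.symm.trans ?_
    rw [cnt, Finset.card_filter]
    push_cast
    refine Finset.sum_congr rfl fun g _ => ?_
    rw [diag_apply, LinearMap.toMatrix_apply, LinearMap.mulLeftRight_apply,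
      MonoidAlgebra.basis_apply, MonoidAlgebra.of_apply, MonoidAlgebra.of_apply,
      MonoidAlgebra.single_mul_single, MonoidAlgebra.single_mul_single]
    change (MonoidAlgebra.single _ _).coeff g = _
    rw [MonoidAlgebra.coeff_single, Finsupp.single_apply, one_mul, one_mul]
    congr 1
    rw [mul_assoc, inv_mul_eq_iff_eq_mul, mul_inv_eq_iff_eq_mul]

variable {G : Type} [Group G] [Fintype G]

lemma cnt_eq (x y : G) : (cnt x y : ℂ) = ∑ g : G, if g * x * g⁻¹ = y then 1 else 0 := by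
  rw [cnt, Finset.card_filter]; push_cast; rfl

namespace CT

variable (T : CT G)

/-- The irreducible characters. -/
noncomputable def χ (i : Fin T.n) (x : G) : ℂ := trace (T.ρ i x)

lemma χ_one (i) : T.χ i 1 = T.d i := by simp [χ]

lemma χ_comm (i) (x y : G) : T.χ i (x * y) = T.χ i (y * x) := by
  simp only [χ, map_mul]; exact trace_mul_comm _ _

lemma χ_conj (i) (g x : G) : T.χ i (g * x * g⁻¹) = T.χ i x := by
  rw [χ_comm, inv_mul_cancel_left]

lemma χ_isConj (i) {x y : G} (h : IsConj x y) : T.χ i x = T.χ i y := by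
  obtain ⟨g, rfl⟩ := isConj_iff.1 h
  rw [χ_conj]

lemma d_ne (i) : (T.d i : ℂ) ≠ 0 := Nat.cast_ne_zero.2 (T.hd i)

lemma col' (x y : G) : ∑ i, T.χ i x * T.χ i y⁻¹ = cnt x y := T.col x y

lemma reg (x : G) : ∑ i, T.χ i x * T.d i = if x = 1 then (Fintype.card G : ℂ) else 0 := by
  have := T.col' x 1
  simp only [inv_one, χ_one] at this
  rw [this, cnt_eq]
  split_ifs with h
  · simp [h]
  · simp [mul_inv_eq_one, h]

lemma row (i j) : ∑ x, T.χ i x⁻¹ * T.χ j x = if i = j then (Fintype.card G : ℂ) else 0 := by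
  obtain ⟨w, hw⟩ := T.surj (Pi.single i 1)
  have h1 : ∀ y, (Fintype.card G : ℂ) * w y = T.d i * T.χ i y⁻¹ := fun y => by
    have h2 : ∀ k, ∑ x, w x * T.χ k (x * y⁻¹) = if k = i then T.χ i y⁻¹ else 0 := fun k => by
      have := congrArg (fun M => trace (M * T.ρ k y⁻¹)) (hw k)
      simp only [Finset.sum_mul, smul_mul_assoc, trace_sum, trace_smul, smul_eq_mul,
        ← map_mul] at this
      refine this.trans ?_
      split_ifs with h
      · subst h; simp [χ]
      · simp [Pi.single_eq_of_ne h]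
    calc (Fintype.card G : ℂ) * w y = ∑ x, w x * ∑ k, T.χ k (x * y⁻¹) * T.d k := by
          simp [T.reg, mul_inv_eq_one, mul_comm]
      _ = ∑ k, (∑ x, w x * T.χ k (x * y⁻¹)) * T.d k := by
          simp only [Finset.mul_sum, Finset.sum_mul, mul_assoc]
          exact Finset.sum_comm
      _ = _ := by simp [h2, mul_comm]
  have h3 := congrArg trace (hw j)
  simp only [trace_sum, trace_smul, smul_eq_mul] at h3
  apply mul_left_cancel₀ (T.d_ne i)
  simp only [Finset.mul_sum, ← mul_assoc, ← h1]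
  simp only [mul_assoc, ← Finset.mul_sum]
  erw [h3]
  split_ifs with h
  · subst h; simp [mul_comm]
  · simp [Pi.single_eq_of_ne (Ne.symm h)]

end CT

lemma dvd_of_int {a b : ℤ} (hb : b ≠ 0) {y : ℂ} (hy : IsIntegral ℤ y) (h : (a : ℂ) = b * y) :
    b ∣ a := by
  have hb' : (b : ℂ) ≠ 0 := Int.cast_ne_zero.2 hb
  obtain ⟨z, hz⟩ : ∃ z : ℤ, (z : ℚ) = a / b := IsIntegrallyClosed.algebraMap_eq_of_integral
    ((isIntegral_algebraMap_iff (R := ℤ) (algebraMap ℚ ℂ).injective).1 (by
      rw [eq_ratCast]; push_cast; rw [h, mul_div_cancel_left₀ _ hb']; exact hy))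
  refine ⟨z, ?_⟩
  have : (a : ℚ) = b * z := by rw [hz, mul_div_cancel₀ _ (Int.cast_ne_zero.2 hb)]
  exact_mod_cast this

end Pool.Agent.Lib.MP_ec19ea_al.Tw
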