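import Pool.Agent.Lib.MP_ec19ea_al.TwA

/-! Characters as functions. -/

namespace Pool.Agent.Lib.MP_ec19ea_al.Tw

open Finset Polynomial
open scoped Classical

/-- The function is the character of a finite-dimensional complex representation. -/
def IsCh {G : Type} [Group G] (f : G → ℂ) : Prop :=
  ∃ (V : Type) (_ : AddCommGroup V) (_ : Module ℂ V) (_ : FiniteDimensional ℂ V)
    (ρ : Representation ℂ G V), f = ρ.character

variable {G : Type} [Group G] {f f' : G → ℂ}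

lemma IsCh.comp {H : Type} [Group H] (hf : IsCh f) (φ : H →* G) : IsCh fun x => f (φ x) := by
  obtain ⟨V, _, _, _, ρ, rfl⟩ := hf
  exact ⟨V, _, _, inferInstance, ρ.comp φ, rfl⟩

lemma IsCh.mul (hf : IsCh f) (hg : IsCh f') : IsCh fun x => f x * f' x := by
  obtain ⟨V, _, _, _, ρ, rfl⟩ := hf
  obtain ⟨W, _, _, _, σ, rfl⟩ := hg
  exact ⟨_, _, _, inferInstance, ρ.tprod σ, (Representation.char_tensor ρ σ).symm⟩

lemma IsCh.inv (hf : IsCh f) : IsCh fun x => f x⁻¹ := by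
  obtain ⟨V, _, _, _, ρ, rfl⟩ := hf
  exact ⟨_, _, _, inferInstance, ρ.dual, funext fun g => (ρ.char_dual g).symm⟩

lemma isCh_mat {ι : Type} [Fintype ι] [DecidableEq ι] (ρ : G →* Matrix ι ι ℂ) :
    IsCh fun x => Matrix.trace (ρ x) :=
  ⟨ι → ℂ, _, _, inferInstance, (Matrix.toLinAlgEquiv' (R := ℂ) (n := ι)).toMonoidHom.comp ρ,
    funext fun g => (Matrix.trace_toLin'_eq (ρ g)).symm⟩

lemma IsCh.gal (hf : IsCh f) (σ : ℂ →+* ℂ) : IsCh fun x => σ (f x) := by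
  obtain ⟨V, _, _, _, ρ, rfl⟩ := hf
  let b := Module.finBasis ℂ V
  have := isCh_mat ((σ.mapMatrix (m := Fin (Module.finrank ℂ V))).toMonoidHom.comp
    ((LinearMap.toMatrixAlgEquiv b).toMonoidHom.comp ρ))
  convert this using 2 with x
  rw [Representation.character, LinearMap.trace_eq_matrix_trace ℂ b, AddMonoidHom.map_trace σ]
  rfl

lemma isCh_lin (l : G →* ℂ) : IsCh l := by
  have := isCh_mat ((Matrix.scalar (Fin 1)).toMonoidHom.comp l)
  convert this using 2 with x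
  simp

lemma IsCh.conj (hf : IsCh f) (g x : G) : f (g * x * g⁻¹) = f x := by
  obtain ⟨V, _, _, _, ρ, rfl⟩ := hf
  exact ρ.char_conj x g

lemma IsCh.deg (hf : IsCh f) : ∃ d : ℕ, f 1 = d := by
  obtain ⟨V, _, _, _, ρ, rfl⟩ := hf
  exact ⟨_, ρ.char_one⟩

lemma IsCh.gal_pow (hf : IsCh f) {M k : ℕ} (hM : 0 < M) {x : G} (hx : x ^ M = 1) {σ : ℂ →+* ℂ}
    (hσ : ∀ z : ℂ, z ^ M = 1 → σ z = z ^ k) : σ (f x) = f (x ^ k) := by
  obtain ⟨V, _, _, _, ρ, rfl⟩ := hf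
  have := (trace_facts (X := ρ x) hM (by rw [← map_pow, hx, map_one])).2 σ k hσ
  rwa [← map_pow] at this

lemma IsCh.pow (hf : IsCh f) {M k : ℕ} (hM : 0 < M) (hG : ∀ x : G, x ^ M = 1)
    (hk : k.Coprime M) : IsCh fun x => f (x ^ k) := by
  obtain ⟨σ, hσ⟩ := exists_pow_hom hM hk
  simpa only [hf.gal_pow hM (hG _) hσ] using hf.gal σ

lemma IsCh.twist (hf : IsCh f) {p r d : ℕ} [Fact p.Prime] (hd : f 1 = d) (hp : ¬ p ∣ d) {u : G}
    (hu : u ^ p ^ r = 1) {c : ℂ} (hc : c ^ p ^ r = 1) (h : ∀ j, c ^ j * f (u ^ j) = f (u ^ j)) :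
    c = 1 := by
  obtain ⟨V, _, _, _, ρ, rfl⟩ := hf
  refine eq_one_of_twist (X := ρ u) (e := 1) (by rw [← map_pow, hu, map_one]) (mul_one _)
    (Commute.one_right _) (d := d) (by rw [← hd, Representation.character, map_one ρ]) hp hc
    fun j => ?_
  rw [mul_one, ← map_pow]
  exact h j

variable [Fintype G]

lemma IsCh.avg (hf : IsCh f) (R : Subgroup G) {s : G} (hs : ∀ y ∈ R, s * y * s⁻¹ ∈ R) {M : ℕ}
    (hM : 0 < M) (hsM : s ^ M = 1) : ∃ m : ℂ → ℕ, ∀ j, ∑ y : R, f (s ^ j * y) =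
      Fintype.card R * ∑ η ∈ nthRootsFinset M (1 : ℂ), m η * η ^ j := by
  obtain ⟨V, _, _, _, ρ, rfl⟩ := hf
  have hR : (Fintype.card R : ℂ) ≠ 0 := Nat.cast_ne_zero.2 Fintype.card_ne_zero
  set e : Module.End ℂ V := (Fintype.card R : ℂ)⁻¹ • ∑ y : R, ρ y with he
  have h1 : ∀ z : R, ρ z * e = e := fun z => by
    rw [he, mul_smul_comm, mul_sum]
    congr 1
    exact Fintype.sum_equiv (Equiv.mulLeft z) _ _ fun y => by simp
  have h2 : e * e = e := by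
    conv_lhs => lhs; rw [he]
    rw [smul_mul_assoc, sum_mul, sum_congr rfl fun z _ => h1 z, sum_const, card_univ,
      ← Nat.cast_smul_eq_nsmul ℂ, smul_smul, inv_mul_cancel₀ hR, one_smul]
  have h3 : Commute (ρ s) e := by
    refine Commute.smul_right ?_ _
    rw [Commute, SemiconjBy, mul_sum, sum_mul]
    have hb : Function.Bijective fun y : R => (⟨s * y * s⁻¹, hs y y.2⟩ : R) :=
      Finite.injective_iff_bijective.1 fun a b h => Subtype.ext (by simpa using h)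
    refine Fintype.sum_bijective _ hb _ _ fun y => ?_
    simp only [← map_mul, inv_mul_cancel_right]
  obtain ⟨m, hm, -⟩ := exists_mult hM (X := ρ s) (by rw [← map_pow, hsM, map_one]) h2 h3
  refine ⟨m, fun j => ?_⟩
  rw [← hm, he, mul_smul_comm, map_smul, smul_eq_mul, mul_inv_cancel_left₀ hR, mul_sum, map_sum]
  refine sum_congr rfl fun y _ => ?_
  rw [Representation.character, map_mul, map_pow]

lemma IsCh.avg_int (hf : IsCh f) (R : Subgroup G) {s : G} (hs : ∀ y ∈ R, s * y * s⁻¹ ∈ R) :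
    ∃ a, IsIntegral ℤ a ∧ ∑ y : R, f (s * y) = Fintype.card R * a := by
  obtain ⟨m, hm⟩ := hf.avg R hs Fintype.card_pos pow_card_eq_one
  have := hm 1
  rw [pow_one] at this
  refine ⟨_, IsIntegral.sum _ fun η hη => (isIntegral_natCast _).mul ?_, this⟩
  rw [pow_one]
  exact alg_of_pow Fintype.card_pos ((mem_nthRootsFinset Fintype.card_pos _).1 hη)

lemma IsCh.avg_zero (hf : IsCh f) (R : Subgroup G) {s : G} (hs : ∀ y ∈ R, s * y * s⁻¹ ∈ R)
    (h0 : ∑ y : R, f y = 0) : ∑ y : R, f (s * y) = 0 := by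
  obtain ⟨m, hm⟩ := hf.avg R hs Fintype.card_pos pow_card_eq_one
  have hR : (Fintype.card R : ℂ) ≠ 0 := Nat.cast_ne_zero.2 Fintype.card_ne_zero
  have h1 := hm 0
  simp only [pow_zero, one_mul, mul_one, h0] at h1
  have h2 : ∑ η ∈ nthRootsFinset (Fintype.card G) (1 : ℂ), m η = 0 := by
    exact_mod_cast (mul_eq_zero.1 h1.symm).resolve_left hR
  have h3 := hm 1
  rw [pow_one] at h3
  rw [h3, sum_eq_zero fun η hη => by rw [sum_eq_zero_iff.1 h2 η hη]; simp, mul_zero]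

lemma IsCh.avg_gal (hf : IsCh f) (R : Subgroup G) {s : G} (hs : ∀ y ∈ R, s * y * s⁻¹ ∈ R)
    {M k : ℕ} (hM : 0 < M) (hsM : s ^ M = 1) {σ : ℂ →+* ℂ}
    (hσ : ∀ z : ℂ, z ^ M = 1 → σ z = z ^ k) :
    σ (∑ y : R, f (s * y)) = ∑ y : R, f (s ^ k * y) := by
  obtain ⟨m, hm⟩ := hf.avg R hs hM hsM
  have h1 := hm 1
  rw [pow_one] at h1
  rw [h1, hm k, map_mul, map_natCast, map_sum]
  congr 1
  refine sum_congr rfl fun η hη => ?_
  rw [map_mul, map_natCast, pow_one, hσ η ((mem_nthRootsFinset hM _).1 hη)]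

/-- The inner product of class functions. -/
noncomputable def ip (f f' : G → ℂ) : ℂ := (∑ g, f g * f' g⁻¹) / Fintype.card G

lemma card_ne : (Fintype.card G : ℂ) ≠ 0 := Nat.cast_ne_zero.2 Fintype.card_ne_zero

lemma ip_comm (f f' : G → ℂ) : ip f f' = ip f' f := by
  unfold ip
  congr 1
  exact Fintype.sum_equiv (Equiv.inv G) _ _ fun g => by simp [mul_comm]

lemma ip_sum {ι : Type} (s : Finset ι) (a : ι → ℂ) (F : ι → G → ℂ) (f' : G → ℂ) :
    ip (fun x => ∑ i ∈ s, a i * F i x) f' = ∑ i ∈ s, a i * ip (F i) f' := by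
  unfold ip
  simp only [sum_mul, mul_div_assoc', ← sum_div, mul_sum, mul_assoc]
  rw [sum_comm]

lemma ip_pow (f f' : G → ℂ) {k : ℕ} (hk : (Nat.card G).Coprime k) :
    ip (fun x => f (x ^ k)) (fun x => f' (x ^ k)) = ip f f' := by
  unfold ip
  congr 1
  simp only [inv_pow]
  exact Equiv.sum_comp (powCoprime hk) fun g => f g * f' g⁻¹

/-- Rounding to a natural number. -/
noncomputable def nt (z : ℂ) : ℕ := ⌊z.re⌋₊

@[simp] lemma nt_cast (n : ℕ) : nt n = n := by simp [nt]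

lemma IsCh.ip_nat (hf : IsCh f) (hg : IsCh f') : ip f f' = nt (ip f f') := by
  obtain ⟨V, _, _, _, ρ, rfl⟩ := hf
  obtain ⟨W, _, _, _, σ, rfl⟩ := hg
  have hN : (Nat.card G : ℂ) ≠ 0 := Nat.cast_ne_zero.2 Nat.card_pos.ne'
  let _ := invertibleOfNonzero hN
  have h1 := Representation.card_inv_mul_sum_char_mul_char_eq_finrank σ ρ
  rw [ip, div_eq_inv_mul, ← Nat.card_eq_fintype_card, h1, nt_cast]

omit [Fintype G] in
lemma IsCh.deg_nat (hf : IsCh f) : f 1 = nt (f 1) := by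
  obtain ⟨d, hd⟩ := hf.deg
  rw [hd, nt_cast]

variable (G) in
/-- The set of irreducible characters. -/
noncomputable def Irr : Finset (G → ℂ) := univ.image (exists_ct G).some.χ

lemma ct_inj (T : CT G) : Function.Injective T.χ := fun i j h => by
  by_contra hne
  have h1 := T.row i j
  rw [if_neg hne, ← h, T.row, if_pos rfl] at h1
  exact card_ne h1

lemma Irr.ch {χ : G → ℂ} (h : χ ∈ Irr G) : IsCh χ := by
  obtain ⟨i, -, rfl⟩ := mem_image.1 h
  exact isCh_mat _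

lemma Irr.deg_ne {χ : G → ℂ} (h : χ ∈ Irr G) : χ 1 ≠ 0 := by
  obtain ⟨i, -, rfl⟩ := mem_image.1 h
  rw [CT.χ_one]
  exact CT.d_ne _ _

lemma Irr.row {χ ψ : G → ℂ} (h : χ ∈ Irr G) (h' : ψ ∈ Irr G) :
    ip χ ψ = if χ = ψ then 1 else 0 := by
  obtain ⟨i, -, rfl⟩ := mem_image.1 h
  obtain ⟨j, -, rfl⟩ := mem_image.1 h'
  rw [ip, sum_congr rfl fun _ _ => mul_comm _ _, CT.row]
  by_cases e : j = i
  · rw [if_pos e, if_pos (by rw [e]), div_self card_ne]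
  · rw [if_neg e, if_neg fun h => e (ct_inj _ h).symm, zero_div]

lemma Irr.col (x y : G) : ∑ χ ∈ Irr G, χ x * χ y⁻¹ = ∑ g : G, if g * x * g⁻¹ = y then 1 else 0 := by
  rw [Irr, sum_image fun i _ j _ h => ct_inj _ h, CT.col', cnt_eq]

lemma expand (hf : ∀ g x, f (g * x * g⁻¹) = f x) (x : G) : f x = ∑ χ ∈ Irr G, ip f χ * χ x := by
  simp only [ip, div_mul_eq_mul_div, ← sum_div, sum_mul]
  rw [sum_comm, eq_div_iff card_ne]
  have : ∀ y, ∑ χ ∈ Irr G, χ y⁻¹ * χ x = ∑ g : G, if g * x * g⁻¹ = y then 1 else 0 := fun y => by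
    rw [← Irr.col]; exact sum_congr rfl fun _ _ => mul_comm _ _
  simp only [mul_assoc, ← mul_sum, this]
  simp only [mul_sum]
  rw [sum_comm]
  simp [← mul_assoc, hf, mul_comm (f x)]

lemma parseval (hf : ∀ g x, f (g * x * g⁻¹) = f x) (f' : G → ℂ) :
    ip f f' = ∑ χ ∈ Irr G, ip f χ * ip χ f' := by
  rw [← ip_sum]
  congr 1
  exact funext (expand hf)

lemma unique_of_sum_sq {ι : Type} {s : Finset ι} {a : ι → ℕ} (h : ∑ i ∈ s, a i * a i = 1)
    {i j : ι} (hi : i ∈ s) (hj : j ∈ s) (h1 : a i ≠ 0) (h2 : a j ≠ 0) : i = j := by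
  by_contra hne
  have := sum_le_sum_of_subset (f := fun i => a i * a i) (s := {i, j}) (t := s) (by
    intro x hx
    rcases mem_insert.1 hx with rfl | hx
    · exact hi
    · rw [mem_singleton.1 hx]; exact hj)
  rw [sum_pair hne, h] at this
  have := Nat.pos_of_ne_zero (mul_ne_zero h1 h1)
  have := Nat.pos_of_ne_zero (mul_ne_zero h2 h2)
  omega

lemma mem_Irr (hf : IsCh f) (h1 : ip f f = 1) : f ∈ Irr G := by
  have h2 : ∑ χ ∈ Irr G, nt (ip f χ) * nt (ip f χ) = 1 := by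
    have := parseval hf.conj f
    rw [h1, sum_congr rfl fun χ hχ => by rw [ip_comm χ f, hf.ip_nat (Irr.ch hχ)]] at this
    exact_mod_cast this.symm
  obtain ⟨χ, hχ, h0⟩ := exists_ne_zero_of_sum_ne_zero (h2.trans_ne one_ne_zero)
  have h3 : ∀ ψ ∈ Irr G, ψ ≠ χ → nt (ip f ψ) = 0 := fun ψ hψ hne => by
    by_contra h
    exact hne (unique_of_sum_sq h2 hψ hχ h (left_ne_zero_of_mul h0))
  rw [sum_eq_single_of_mem χ hχ fun ψ hψ hne => by rw [h3 ψ hψ hne, mul_zero]] at h2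
  have : f = χ := funext fun x => by
    rw [expand hf.conj x, sum_eq_single_of_mem χ hχ fun ψ hψ hne => by
      rw [hf.ip_nat (Irr.ch hψ), h3 ψ hψ hne]; simp, hf.ip_nat (Irr.ch hχ),
      Nat.eq_one_of_mul_eq_one_right h2]
    simp
  rwa [this]

lemma Irr.self {χ : G → ℂ} (h : χ ∈ Irr G) : ip χ χ = 1 := by rw [Irr.row h h, if_pos rfl]

lemma Irr.eq_of_ip {χ ψ : G → ℂ} (h : χ ∈ Irr G) (h' : ψ ∈ Irr G) (h0 : ip χ ψ ≠ 0) : χ = ψ := by
  by_contra hne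
  exact h0 (by rw [Irr.row h h', if_neg hne])

lemma cop_card {M k : ℕ} (hG : ∀ x : G, x ^ M = 1) (hk : k.Coprime M) :
    (Nat.card G).Coprime k := by
  refine Nat.Coprime.symm (Nat.coprime_of_dvd fun q hq h1 h2 => ?_)
  have := Fact.mk hq
  obtain ⟨x, hx⟩ := exists_prime_orderOf_dvd_card' q h2
  exact hq.ne_one (Nat.eq_one_of_dvd_coprimes hk h1 (hx ▸ orderOf_dvd_of_pow_eq_one (hG x)))

lemma Irr.pow {χ : G → ℂ} (h : χ ∈ Irr G) {M k : ℕ} (hM : 0 < M) (hG : ∀ x : G, x ^ M = 1)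
    (hk : k.Coprime M) : (fun x => χ (x ^ k)) ∈ Irr G :=
  mem_Irr ((Irr.ch h).pow hM hG hk) (by rw [ip_pow _ _ (cop_card hG hk), Irr.self h])

lemma ip_equiv {H : Type} [Group H] [Fintype H] (e : H ≃* G) (f f' : G → ℂ) :
    ip (fun x => f (e x)) (fun x => f' (e x)) = ip f f' := by
  unfold ip
  rw [Fintype.card_congr e.toEquiv]
  congr 1
  simp only [map_inv]
  exact Equiv.sum_comp e.toEquiv fun g => f g * f' g⁻¹

lemma Irr.equiv {H : Type} [Group H] [Fintype H] (e : H ≃* G) {χ : G → ℂ} (h : χ ∈ Irr G) :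
    (fun x => χ (e x)) ∈ Irr H :=
  mem_Irr ((Irr.ch h).comp e.toMonoidHom) (by rw [ip_equiv, Irr.self h])

lemma exists_fixed' {α : Type} {p r : ℕ} [hp : Fact p.Prime] (S : Finset α) (f : α → α)
    (m : α → ℕ) (h1 : ∀ x ∈ S, f x ∈ S) (h2 : ∀ x ∈ S, f^[p ^ r] x = x)
    (h3 : ∀ x ∈ S, m (f x) = m x) (h4 : ¬ p ∣ ∑ x ∈ S, m x) : ∃ x ∈ S, ¬ p ∣ m x ∧ f x = x := by
  obtain ⟨x, hx, a, b⟩ := exists_fixed (p := p) (r := r) S f (fun x => m x % p) h1 h2
    (fun x hx => by rw [h3 x hx]) (by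
      rwa [Nat.dvd_iff_mod_eq_zero, ← Finset.sum_nat_mod, ← Nat.dvd_iff_mod_eq_zero])
  exact ⟨x, hx, by rwa [Nat.dvd_iff_mod_eq_zero], b⟩

end Pool.Agent.Lib.MP_ec19ea_al.Tw
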