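import Pool.Agent.Lib.MP_ec19ea_al.TwB

/-! Sums over sections. -/

namespace Pool.Agent.Lib.MP_ec19ea_al.Tw

open Finset MulAction
open scoped Classical

/-- Divisibility by `n` in the ring of algebraic integers. -/
def Dv (n : ℕ) (z : ℂ) : Prop := ∃ a, IsIntegral ℤ a ∧ z = n * a

lemma Dv.zero (n : ℕ) : Dv n 0 := ⟨0, isIntegral_zero, by simp⟩

lemma Dv.add {n : ℕ} {a b : ℂ} (ha : Dv n a) (hb : Dv n b) : Dv n (a + b) := by
  obtain ⟨x, hx, rfl⟩ := ha
  obtain ⟨y, hy, rfl⟩ := hb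
  exact ⟨x + y, hx.add hy, by ring⟩

lemma Dv.sub {n : ℕ} {a b : ℂ} (ha : Dv n a) (hb : Dv n b) : Dv n (a - b) := by
  obtain ⟨x, hx, rfl⟩ := ha
  obtain ⟨y, hy, rfl⟩ := hb
  exact ⟨x - y, hx.sub hy, by ring⟩

lemma Dv.sum {n : ℕ} {ι : Type} (s : Finset ι) (f : ι → ℂ) (h : ∀ i ∈ s, Dv n (f i)) :
    Dv n (∑ i ∈ s, f i) := Finset.sum_induction f (Dv n) (fun _ _ => Dv.add) (Dv.zero n) h

lemma Dv.mul {n k l : ℕ} {a : ℂ} (ha : Dv n a) (h : l ∣ k * n) : Dv l (k * a) := by
  obtain ⟨x, hx, rfl⟩ := ha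
  obtain ⟨c, hc⟩ := h
  refine ⟨c * x, (isIntegral_natCast _).mul hx, ?_⟩
  rw [← mul_assoc, ← Nat.cast_mul, hc]
  push_cast
  ring

lemma sum_setoid {Y : Type} [Fintype Y] (r : Setoid Y) (F : Y → ℂ) (hF : ∀ x y, r x y → F x = F y)
    (ω : Quotient r) : ∑ y with ⟦y⟧ = ω, F y = (univ.filter fun y => r y ω.out).card * F ω.out := by
  have : (univ.filter fun y : Y => (⟦y⟧ : Quotient r) = ω) = univ.filter fun y => r y ω.out := by
    ext y
    simp only [mem_filter, mem_univ, true_and]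
    exact Quotient.mk_eq_iff_out
  rw [this, sum_congr rfl fun y hy => hF y _ (mem_filter.1 hy).2, sum_const, nsmul_eq_mul]

lemma dv_fib {X : Type} [Fintype X] {p J n : ℕ} [Fact p.Prime] (f : X → X)
    (hf : ∀ x, f^[p ^ J] x = x) (A : X → ℂ) (h1 : ∀ x, A (f x) = A x) (h2 : ∀ x, f x = x → A x = 0)
    (h3 : ∀ x, Dv n (A x)) : Dv (p * n) (∑ x, A x) := by
  rw [← sum_fiberwise_of_maps_to (t := univ.image A) (g := A) fun x _ => mem_image_of_mem _
    (mem_univ x)]
  refine Dv.sum _ _ fun v hv => ?_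
  obtain ⟨x, -, rfl⟩ := mem_image.1 hv
  rw [sum_congr rfl fun y hy => (mem_filter.1 hy).2, sum_const, nsmul_eq_mul]
  by_cases h0 : A x = 0
  · rw [h0, mul_zero]; exact Dv.zero _
  refine (h3 x).mul (mul_dvd_mul_right ?_ _)
  by_contra hn
  obtain ⟨y, hy, -, e⟩ := exists_fixed' (p := p) (r := J) (univ.filter fun y => A y = A x) f
    (fun _ => 1) (fun y hy => by simpa [h1] using hy) (fun y _ => hf y) (fun _ _ => rfl)
    (by simpa using hn)
  exact h0 ((mem_filter.1 hy).2.symm.trans (h2 y e))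

variable {C : Type} [Group C] [Fintype C]

lemma dv_action (Y : Type) [Fintype Y] [MulAction C Y] (v : C → ℂ)
    (h0 : ∀ g x, v (g * x * g⁻¹) = v x) (h1 : ∀ R : Subgroup C, Dv (Fintype.card R) (∑ c : R, v c)) :
    Dv (Fintype.card C) (∑ c, (univ.filter fun y : Y => c • y = y).card * v c) := by
  have e : ∑ c, ((univ.filter fun y : Y => c • y = y).card : ℂ) * v c =
      ∑ y : Y, ∑ c : stabilizer C y, v c := by
    simp only [card_filter, Nat.cast_sum, sum_mul]
    rw [sum_comm]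
    refine sum_congr rfl fun y _ => ?_
    rw [← sum_subtype (univ.filter fun c : C => c • y = y) (by simp) v, sum_filter]
    exact sum_congr rfl fun c _ => by split_ifs <;> simp
  rw [e, ← sum_fiberwise univ (fun y => (⟦y⟧ : Quotient (orbitRel C Y)))]
  refine Dv.sum _ _ fun ω _ => ?_
  rw [sum_setoid]
  · refine (h1 _).mul (dvd_of_eq ?_)
    rw [← card_orbit_mul_card_stabilizer_eq_card_group C ω.out]
    congr 1
    rw [Fintype.card_subtype]
    rfl
  · rintro _ y ⟨g, rfl⟩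
    refine (Fintype.sum_equiv (stabilizerEquivStabilizer (g := g) (a := y) rfl).toEquiv _ _
      fun c => ?_).symm
    rw [← h0 g]
    rfl

lemma pow_pp {A : Type} [Monoid A] {p d M' k : ℕ} (hp : p.Prime) (hM : ¬ p ∣ M') {c : A}
    (h1 : c ^ p ^ k = 1) (h2 : c ^ (p ^ d * M') = 1) : c ^ p ^ d = 1 := by
  rw [← orderOf_dvd_iff_pow_eq_one] at *
  obtain ⟨j, -, hj⟩ := (Nat.dvd_prime_pow hp).1 h1
  rw [hj] at h2 ⊢
  exact (Nat.Coprime.pow_left j ((Nat.Prime.coprime_iff_not_dvd hp).2 hM)).dvd_of_dvd_mul_right h2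

lemma frob {p d M' : ℕ} [hp : Fact p.Prime] (hM : ¬ p ∣ M') (hC : ∀ c : C, c ^ (p ^ d * M') = 1)
    (v : C → ℂ) (h0 : ∀ g x, v (g * x * g⁻¹) = v x) (hv : ∀ c, IsIntegral ℤ (v c))
    (h1 : ∀ R : Subgroup C, Dv (Fintype.card R) (∑ c : R, v c)) (N : ℕ) :
    ∃ a b, Dv (Fintype.card C) a ∧ Dv (p ^ N) b ∧ ∑ c with c ^ p ^ d = 1, v c = a + b := by
  obtain ⟨P⟩ : Nonempty (Sylow p C) := inferInstance
  set φ := (p ^ N).totient with hφ
  have hφ0 : φ ≠ 0 := (Nat.totient_pos.2 (pow_pos hp.out.pos _)).ne'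
  set π : C → ℕ := fun c => (univ.filter fun y : C ⧸ P.1 => c • y = y).card with hπ
  have h2 : Dv (Fintype.card C) (∑ c, ((π c ^ φ : ℕ) : ℂ) * v c) := by
    convert dv_action (Fin φ → C ⧸ P.1) v h0 h1 using 5 with c
    have : (Fintype.piFinset fun _ : Fin φ => univ.filter fun y : C ⧸ P.1 => c • y = y).card =
      π c ^ φ := by rw [Fintype.card_piFinset, prod_const, card_univ, Fintype.card_fin]
    rw [← this]
    congr 1
    ext y
    simp [funext_iff]
  have h3 : ∀ c, ¬ c ^ p ^ d = 1 → π c = 0 := fun c hc => by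
    simp only [hπ]
    rw [card_eq_zero, filter_eq_empty_iff]
    intro y _ hy
    induction y using QuotientGroup.induction_on with
    | H y =>
    have h4 : y⁻¹ * c * y ∈ P.1 := by
      have : ((c * y : C) : C ⧸ P.1) = y := hy
      have := QuotientGroup.eq.1 this.symm
      rwa [← mul_assoc] at this
    obtain ⟨k, hk⟩ := P.isPGroup' ⟨_, h4⟩
    have h5 : (y⁻¹ * c * y⁻¹⁻¹) ^ p ^ k = 1 := by
      rw [inv_inv]; exact congrArg Subtype.val hk
    rw [conj_pow, conj_eq_one_iff] at h5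
    exact hc (pow_pp hp.out hM h5 (hC c))
  have h4 : ∀ c, c ^ p ^ d = 1 → ¬ p ∣ π c := fun c hc hd => by
    obtain ⟨y, hy, -, h⟩ := exists_fixed' (p := p) (r := d)
      (univ.filter fun y : C ⧸ P.1 => c • y ≠ y) (fun y => c • y) (fun _ => 1) (fun y hy => by simpa using hy)
      (fun y _ => by rw [smul_iterate, hc]; exact one_smul _ _) (fun _ _ => rfl) (by
        intro h
        rw [sum_const, smul_eq_mul, mul_one] at h
        have := dvd_add hd h
        simp only [hπ] at this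
        rw [card_filter_add_card_filter_not, card_univ, ← Nat.card_eq_fintype_card] at this
        exact P.not_dvd_index this)
    exact (mem_filter.1 hy).2 h
  refine ⟨_, ∑ c with c ^ p ^ d = 1, (1 - ((π c ^ φ : ℕ) : ℂ)) * v c, h2,
    Dv.sum _ _ fun c hc => ?_, ?_⟩
  · obtain ⟨z, hz⟩ := (Nat.ModEq.pow_totient (x := π c) (n := p ^ N) (Nat.Coprime.pow_right _
      ((Nat.Prime.coprime_iff_not_dvd hp.out).2 (h4 c (mem_filter.1 hc).2)).symm)).dvd
    refine ⟨z * v c, (isIntegral_intCast _).mul (hv c), ?_⟩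
    rw [← mul_assoc]
    congr 1
    exact_mod_cast congrArg (fun t : ℤ => (t : ℂ)) hz
  · rw [sum_filter, sum_filter, ← sum_add_distrib]
    refine sum_congr rfl fun c _ => ?_
    split_ifs with hc
    · ring
    · simp [h3 c hc, hφ0]

lemma pow_mod {A : Type} [Monoid A] {c : A} {n a b : ℕ} (h : c ^ n = 1) (e : a ≡ b [MOD n]) :
    c ^ a = c ^ b := by
  rw [← Nat.div_add_mod a n, ← Nat.div_add_mod b n, pow_add, pow_add, pow_mul, pow_mul, h,
    one_pow, one_pow, e]

lemma cop_of_pow {k n M : ℕ} (hn : n ≠ 0) (h : k ^ n ≡ 1 [MOD M]) : k.Coprime M := by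
  have : (k ^ n).Coprime M := by rw [Nat.Coprime, h.gcd_eq]; simp
  exact (Nat.coprime_pow_left_iff (Nat.pos_of_ne_zero hn) _ _).1 this

omit [Fintype C] in
lemma iter_pow (k n : ℕ) (c : C) : (fun x : C => x ^ k)^[n] c = c ^ k ^ n := by
  induction n with
  | zero => simp
  | succ n ih => rw [Function.iterate_succ_apply', ih, ← pow_mul, pow_succ]

lemma sect {p d M' es : ℕ} [hp : Fact p.Prime] (hM : ¬ p ∣ M')
    (hC : ∀ c : C, c ^ (p ^ d * M') = 1) (e1 : es ≡ 0 [MOD p ^ d]) (e2 : es ≡ 1 [MOD M'])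
    (w : C → ℂ) (h0 : ∀ g x, w (g * x * g⁻¹) = w x)
    (h1 : ∀ (s : C) (R : Subgroup C), (∀ c ∈ R, c * s = s * c) →
      Dv (Fintype.card R) (∑ c : R, w (s * c))) (N : ℕ) (hN : p ^ N ∣ Fintype.card C) (s : C) :
    Dv (p ^ N) ((univ.filter fun y => IsConj y s).card * ∑ q with q ^ es = s, w q) := by
  have hco : (p ^ d).Coprime M' :=
    Nat.Coprime.pow_left _ ((Nat.Prime.coprime_iff_not_dvd hp.out).2 hM)
  have h2 : ∀ q : C, (q ^ es) ^ M' = 1 := fun q => by
    obtain ⟨c, hc⟩ := (Nat.modEq_zero_iff_dvd.1 e1)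
    rw [← pow_mul, hc, mul_right_comm, pow_mul, hC, one_pow]
  by_cases hs : s ^ M' = 1
  swap
  · have : ∑ q with q ^ es = s, w q = 0 :=
      sum_eq_zero fun q hq => absurd ((mem_filter.1 hq).2 ▸ h2 q) hs
    rw [this, mul_zero]
    exact Dv.zero _
  set Z := Subgroup.centralizer ({s} : Set C) with hZ
  have hZs : ∀ c : Z, c * s = s * c := fun c => (Subgroup.mem_centralizer_singleton_iff.1 c.2)
  obtain ⟨a, b, ha, hb, e⟩ := frob hM (C := Z) (fun c => Subtype.ext (hC c)) (fun c => w (s * c))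
    (fun g x => by
      rw [← h0 g (s * x)]
      simp only [Subgroup.coe_mul, Subgroup.coe_inv, ← mul_assoc, hZs g])
    (fun c => by
      obtain ⟨a, ha, e⟩ := h1 (s * c) ⊥ (by simp)
      simp only [Fintype.sum_unique, Fintype.card_unique, Nat.cast_one, one_mul] at e
      rw [show ((default : (⊥ : Subgroup C)) : C) = 1 from (default : (⊥ : Subgroup C)).2,
        mul_one] at e
      rwa [e])
    (fun R => by
      have := h1 s (R.map Z.subtype) (by rintro _ ⟨c, -, rfl⟩; exact hZs c)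
      rwa [← Fintype.card_congr (R.equivMapOfInjective _ Z.subtype_injective).toEquiv,
        ← (R.equivMapOfInjective _ Z.subtype_injective).toEquiv.sum_comp] at this) N
  have e3 : ∑ q with q ^ es = s, w q = a + b := by
    rw [← e]
    symm
    refine sum_bij (fun c _ => s * c) (fun c hc => ?_) (fun c _ c' _ h => ?_) (fun q hq => ?_)
      fun _ _ => rfl
    · simp only [mem_filter, mem_univ, true_and] at hc
      have h3 : (c : C) ^ p ^ d = 1 := congrArg Subtype.val hc
      refine mem_filter.2 ⟨mem_univ _, ?_⟩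
      rw [Commute.mul_pow (hZs c).symm, pow_mod hs e2, pow_mod h3 e1]
      simp
    · exact Subtype.ext (mul_left_cancel h)
    · have h3 := (mem_filter.1 hq).2
      have h4 : Commute s⁻¹ q := (h3 ▸ (Commute.refl q).pow_left es).inv_left
      refine ⟨⟨s⁻¹ * q, Subgroup.mem_centralizer_singleton_iff.2 ?_⟩, ?_, by simp⟩
      · rw [h4.eq, inv_mul_cancel_right, ← h4.eq, mul_inv_cancel_left]
      · simp only [mem_filter, mem_univ, true_and]
        refine Subtype.ext ?_
        show (s⁻¹ * q) ^ p ^ d = 1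
        rw [h4.mul_pow, inv_pow, inv_mul_eq_one, ← h3, ← pow_mul]
        refine pow_mod (hC q) ((Nat.modEq_and_modEq_iff_modEq_mul hco).1 ⟨?_, ?_⟩)
        · exact ((Nat.modEq_zero_iff_dvd).2 (dvd_mul_left _ _)).trans
            ((Nat.modEq_zero_iff_dvd).2 dvd_rfl).symm
        · simpa using e2.mul_right (p ^ d)
  rw [e3, mul_add]
  refine (ha.mul (hN.trans (dvd_of_eq ?_))).add (hb.mul (dvd_mul_left _ _))
  have := card_orbit_mul_card_stabilizer_eq_card_group (ConjAct C) s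
  rw [ConjAct.card] at this
  rw [← this, ← Nat.card_eq_fintype_card (α := Z), ← Nat.card_eq_fintype_card (α := stabilizer _ _),
    ConjAct.stabilizer_eq_centralizer, Fintype.card_subtype]
  congr 2
  ext y
  simp only [mem_filter, mem_univ, true_and]
  rw [ConjAct.mem_orbit_conjAct]

theorem core {p d M' es k J : ℕ} [hp : Fact p.Prime] (hM : ¬ p ∣ M')
    (hC : ∀ c : C, c ^ (p ^ d * M') = 1) (e1 : es ≡ 0 [MOD p ^ d]) (e2 : es ≡ 1 [MOD M'])
    (hk : k ^ p ^ J ≡ 1 [MOD p ^ d * M']) (w : C → ℂ) (h0 : ∀ g x, w (g * x * g⁻¹) = w x)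
    (h1 : ∀ (s : C) (R : Subgroup C), (∀ c ∈ R, c * s = s * c) →
      Dv (Fintype.card R) (∑ c : R, w (s * c))) (h2 : ∀ q, w (q ^ k) = w q)
    (h3 : ∀ q, IsConj ((q ^ es) ^ k) (q ^ es) → w q = 0) {r : ℤ}
    (h4 : ∑ q, w q = Fintype.card C * r) : (p : ℤ) ∣ r := by
  obtain ⟨N, c, hc, hN⟩ := Nat.exists_eq_pow_mul_and_not_dvd (n := Fintype.card C)
    Fintype.card_ne_zero p hp.out.ne_one
  let f : Quotient (IsConj.setoid C) → Quotient (IsConj.setoid C) :=
    Quotient.map (· ^ k) fun _ _ h => IsConj.pow k h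
  have hf : ∀ x, f^[p ^ J] x = x := by
    have : ∀ n (x : C), f^[n] ⟦x⟧ = ⟦x ^ k ^ n⟧ := by
      intro n x
      induction n with
      | zero => simp
      | succ n ih => rw [Function.iterate_succ_apply', ih, pow_succ, pow_mul]; rfl
    rintro ⟨x⟩
    exact (this _ x).trans (by rw [pow_mod (hC x) hk, pow_one]; rfl)
  have hi : Function.Injective f := by
    obtain ⟨n, hn⟩ : ∃ n, p ^ J = n + 1 := ⟨_, (Nat.succ_pred (pow_pos hp.out.pos J).ne').symm⟩
    rw [hn] at hf
    exact Function.LeftInverse.injective hf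
  have hcop := cop_card hC (cop_of_pow (pow_pos hp.out.pos J).ne' hk)
  have := dv_fib (p := p) (n := p ^ N) f hf (fun K => ∑ q with ⟦q ^ es⟧ = K, w q)
    (fun K => by
      simp only [sum_filter]
      rw [← Equiv.sum_comp (powCoprime hcop)]
      refine sum_congr rfl fun q _ => ?_
      have : (⟦(q ^ k) ^ es⟧ : Quotient (IsConj.setoid C)) = f ⟦q ^ es⟧ := by
        rw [← pow_mul, mul_comm, pow_mul]; rfl
      simp only [powCoprime_apply, this, hi.eq_iff, h2])
    (fun K hK => sum_eq_zero fun q hq => h3 q (by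
      rw [← (mem_filter.1 hq).2] at hK
      exact Quotient.exact hK))
    (fun K => by
      have := sect hM hC e1 e2 w h0 h1 N (hN ▸ dvd_mul_right _ _) K.out
      rw [show (univ.filter fun y => IsConj y K.out) =
        univ.filter fun y => IsConj.setoid C y K.out from by
          ext; simp only [mem_filter]; rfl, ← sum_setoid (IsConj.setoid C)
          (fun s => ∑ q with q ^ es = s, w q)] at this
      · convert this using 1
        rw [← sum_fiberwise_of_maps_to (t := univ.filter fun y : C => ⟦y⟧ = K) (g := (· ^ es))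
          fun q hq => mem_filter.2 ⟨mem_univ _, (mem_filter.1 hq).2⟩]
        refine sum_congr rfl fun s hs => sum_congr ?_ fun _ _ => rfl
        ext q
        simp only [mem_filter, mem_univ, true_and, and_iff_right_iff_imp]
        rintro rfl
        exact (mem_filter.1 hs).2
      · intro x y h
        obtain ⟨g, rfl⟩ := isConj_iff.1 h
        simp only [sum_filter]
        refine Fintype.sum_equiv (MulAut.conj g).toEquiv _ _ fun q => ?_
        simp [conj_pow, h0])
  rw [sum_fiberwise univ (fun q => (⟦q ^ es⟧ : Quotient (IsConj.setoid C))), h4, hN] at this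
  obtain ⟨a, ha, e⟩ := this
  have h5 : ((c * r : ℤ) : ℂ) = (p : ℤ) * a := by
    apply mul_left_cancel₀ (a := (p : ℂ) ^ N) (pow_ne_zero _ (Nat.cast_ne_zero.2 hp.out.ne_zero))
    push_cast at e ⊢
    linear_combination e
  exact ((Nat.prime_iff_prime_int.1 hp.out).dvd_or_dvd
    (dvd_of_int (Int.natCast_ne_zero.2 hp.out.ne_zero) ha h5)).resolve_left
      fun h => hc (Int.natCast_dvd_natCast.1 h)

end Pool.Agent.Lib.MP_ec19ea_al.Tw
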