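import Pool.Agent.Lib.MP_ec19ea_al.Defs

namespace Pool.Agent.Lib.MP_ec19ea_al

/-- Every element which lies in two different Sylow `p`-subgroups `P`, `P'` of `Q` has order
dividing `p ^ c` or is central in `P`. -/
def SylowCond (p c : ℕ) (Q : Type) [Group Q] : Prop :=
  ∀ P P' : Sylow p Q, P ≠ P' → ∀ u : Q, u ∈ P → u ∈ P' → u ^ p ^ c = 1 ∨ ∀ x ∈ P, x * u = u * x

end Pool.Agent.Lib.MP_ec19ea_al
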