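import Pool.Agent.Lib.MP_ec19ea_al.TwC
import Pool.Agent.Lib.MP_ec19ea_al.TwDefs

/-! The group theoretic condition. -/

namespace Pool.Agent.Lib.MP_ec19ea_al.Tw

open Subgroup

/-- Arithmetic data of a pair of Galois automorphisms. -/
structure Dat (p c d M' t m J es : ℕ) : Prop where
  hM : ¬ p ∣ M'
  t1 : t ≡ 1 [MOD M']
  tp : t ≡ 1 [MOD p ^ c]
  m1 : m ≡ 1 [MOD p ^ d]
  tJ : t ^ p ^ J ≡ 1 [MOD p ^ d * M']
  mJ : m ^ p ^ J ≡ 1 [MOD p ^ d * M']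
  e1 : es ≡ 0 [MOD p ^ d]
  e2 : es ≡ 1 [MOD M']

/-- Elementwise form of the condition on Sylow subgroups. -/
def U (p c : ℕ) (Q : Type) [Group Q] : Prop :=
  ∀ (R : Subgroup Q) (s u x : Q), IsPGroup p R → u ∈ R → x ∈ R → (orderOf s).Coprime p →
    Commute u s → x * s * x⁻¹ ∈ zpowers s → u ^ p ^ c = 1 ∨ Commute x s ∨ Commute x u

variable {p c : ℕ} {Q : Type} [Group Q]

lemma U.of_cond (h : SylowCond p c Q) : U p c Q := by
  intro R s u x hR hu hx hs hc hn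
  obtain ⟨P, hP⟩ := hR.exists_le_sylow
  by_cases e : s • P = P
  · refine Or.inr (Or.inl ?_)
    have h1 : s * x⁻¹ * s⁻¹ ∈ P :=
      ((mem_set_normalizer_iff.1 (Sylow.smul_eq_iff_mem_normalizer.1 e)) _).1 (inv_mem (hP hx))
    have h2 : x * s * x⁻¹ * s⁻¹ ∈ P.1 := by
      have := P.1.mul_mem (hP hx) h1
      simpa only [mul_assoc] using this
    obtain ⟨k, hk⟩ := P.isPGroup' ⟨_, h2⟩
    have h3 : orderOf (x * s * x⁻¹ * s⁻¹) ∣ p ^ k :=
      orderOf_dvd_of_pow_eq_one (congrArg Subtype.val hk)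
    have h4 := orderOf_dvd_of_mem_zpowers (mul_mem hn (inv_mem (mem_zpowers s)))
    have h5 := orderOf_eq_one_iff.1 (Nat.eq_one_of_dvd_coprimes (hs.pow_right k) h4 h3)
    rwa [mul_inv_eq_one, mul_inv_eq_iff_eq_mul] at h5
  · refine (h P (s • P) (Ne.symm e) u (hP hu) ?_).imp_right fun h => Or.inr (h x (hP hx))
    refine ⟨u, hP hu, ?_⟩
    show s * u * s⁻¹ = u
    rw [← hc.eq, mul_inv_cancel_right]

lemma U.comap {Q' : Type} [Group Q'] (h : U p c Q) (φ : Q' →* Q) (hφ : Function.Injective φ) :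
    U p c Q' := by
  intro R s u x hR hu hx hs hc hn
  obtain ⟨j, hj⟩ := mem_zpowers_iff.1 hn
  refine (h (R.map φ) (φ s) (φ u) (φ x) (hR.map φ) ⟨u, hu, rfl⟩ ⟨x, hx, rfl⟩
    (by rwa [orderOf_injective φ hφ]) (hc.map φ) ⟨j, by simp [← map_zpow, hj]⟩).imp
    (fun h => hφ (by rw [map_pow, h, map_one])) (Or.imp (fun h => hφ ?_) fun h => hφ ?_)
  · simpa using h.eq
  · simpa using h.eq

lemma isPGroup_zpowers {x : Q} {d : ℕ} (h : x ^ p ^ d = 1) : IsPGroup p (zpowers x) := by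
  rintro ⟨_, j, rfl⟩
  refine ⟨d, Subtype.ext ?_⟩
  show (x ^ j) ^ p ^ d = 1
  rw [← zpow_natCast, ← zpow_mul, mul_comm, zpow_mul, zpow_natCast, h, one_zpow]

variable {d M' t m J es : ℕ} [hp : Fact p.Prime]

lemma Dat.cop (D : Dat p c d M' t m J es) : (p ^ d).Coprime M' :=
  Nat.Coprime.pow_left _ ((Nat.Prime.coprime_iff_not_dvd hp.out).2 D.hM)

lemma Dat.pos (D : Dat p c d M' t m J es) : 0 < p ^ d * M' :=
  Nat.mul_pos (pow_pos hp.out.pos _) (Nat.pos_of_ne_zero fun h => D.hM (h ▸ dvd_zero p))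

omit hp in
lemma Dat.s_pow (D : Dat p c d M' t m J es) {q : Q} (hq : q ^ (p ^ d * M') = 1) :
    (q ^ es) ^ M' = 1 := by
  obtain ⟨c, hc⟩ := (Nat.modEq_zero_iff_dvd.1 D.e1)
  rw [← pow_mul, hc, mul_right_comm, pow_mul, hq, one_pow]

lemma Dat.u_pow (D : Dat p c d M' t m J es) {q : Q} (hq : q ^ (p ^ d * M') = 1) :
    (q * (q ^ es)⁻¹) ^ p ^ d = 1 := by
  rw [((Commute.refl q).pow_right es).inv_right.mul_pow, inv_pow, mul_inv_eq_one, ← pow_mul]
  refine pow_mod hq ((Nat.modEq_and_modEq_iff_modEq_mul D.cop).1 ⟨?_, ?_⟩)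
  · exact ((Nat.modEq_zero_iff_dvd).2 dvd_rfl).trans
      ((Nat.modEq_zero_iff_dvd).2 (dvd_mul_left _ _)).symm
  · simpa using (D.e2.mul_right (p ^ d)).symm

lemma U.alt [Finite Q] (h : U p c Q) (D : Dat p c d M' t m J es) (hQ : ∀ q : Q, q ^ (p ^ d * M') = 1)
    (q : Q) (hc : IsConj ((q ^ es) ^ m) (q ^ es)) : q ^ t = q ∨ IsConj q (q ^ m) := by
  have hs := D.s_pow (hQ q)
  have hu := D.u_pow (hQ q)
  have hus : Commute (q * (q ^ es)⁻¹) (q ^ es) :=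
    ((Commute.refl q).pow_right es).mul_left (Commute.refl _).inv_left
  have hq : q = q * (q ^ es)⁻¹ * q ^ es := by simp
  generalize q ^ es = s at *
  generalize q * s⁻¹ = u at *
  subst hq
  obtain ⟨y, hy⟩ := isConj_iff.1 hc.symm
  have hyn : ∀ n : ℕ, y ^ n * s * (y ^ n)⁻¹ = s ^ m ^ n := by
    intro n
    induction n with
    | zero => simp
    | succ n ih =>
      rw [pow_succ' m, pow_mul, ← hy, conj_pow, ← ih, pow_succ' y]
      group
  have hyJ : Commute (y ^ p ^ J) s := by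
    have := hyn (p ^ J)
    rwa [pow_mod (hQ s) D.mJ, pow_one, mul_inv_eq_iff_eq_mul] at this
  obtain ⟨v, v1, v2⟩ := Nat.chineseRemainder (Nat.Coprime.pow_left (J + 1)
    ((Nat.Prime.coprime_iff_not_dvd hp.out).2 D.hM)) 1 0
  have hx : y ^ v * s * (y ^ v)⁻¹ = s ^ m := by
    have h1 : 1 < p ^ (J + 1) := Nat.one_lt_pow (Nat.succ_ne_zero J) hp.out.one_lt
    rw [← Nat.div_add_mod v (p ^ (J + 1)), v1, Nat.mod_eq_of_lt h1, pow_succ y, pow_succ p,
      mul_assoc (p ^ J), pow_mul, mul_inv_rev, mul_assoc, mul_assoc, ← mul_assoc s, ← mul_assoc y,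
      ← mul_assoc y, hy, ← mul_assoc, ((hyJ.pow_left _).pow_right m).eq, mul_inv_cancel_right]
  have hxp : (y ^ v) ^ p ^ d = 1 := by
    obtain ⟨c, rfl⟩ := Nat.modEq_zero_iff_dvd.1 v2
    rw [← pow_mul, mul_right_comm, mul_comm M', pow_mul, hQ, one_pow]
  generalize y ^ v = x at hx hxp
  set L := normalizer (zpowers s : Set Q) with hL
  have hxL : x ∈ L := mem_normalizer_fintype (by
    rintro _ ⟨j, rfl⟩
    rw [← conj_zpow, hx]
    exact zpow_mem (pow_mem (mem_zpowers s) _) _)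
  have huL : u ∈ L := mem_normalizer_fintype (by
    rintro _ ⟨j, rfl⟩
    rw [← conj_zpow, hus.eq, mul_inv_cancel_right]
    exact zpow_mem (mem_zpowers s) _)
  obtain ⟨P, hP⟩ := (isPGroup_zpowers (x := (⟨x, hxL⟩ : L)) (Subtype.ext hxp)).exists_le_sylow
  obtain ⟨P', hP'⟩ := (isPGroup_zpowers (x := (⟨u, huL⟩ : L)) (Subtype.ext hu)).exists_le_sylow
  obtain ⟨l, rfl⟩ := MulAction.exists_smul_eq L P' P
  obtain ⟨j, hj⟩ := mem_zpowers_iff.1 ((mem_normalizer_iff.1 l.2 s).1 (mem_zpowers s))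
  have hx' : x * (l * s * (l : Q)⁻¹) * x⁻¹ = (l * s * (l : Q)⁻¹) ^ m := by
    rw [← hj, ← conj_zpow, hx, ← zpow_natCast, ← zpow_natCast, ← zpow_mul, ← zpow_mul, mul_comm]
  have hum : u ^ m = u := by rw [pow_mod hu D.m1, pow_one]
  rcases h ((l • P').1.map L.subtype) (l * s * (l : Q)⁻¹) (l * u * (l : Q)⁻¹) x
    ((l • P').isPGroup'.map _)
    ⟨_, ⟨_, hP' (mem_zpowers _), rfl⟩, rfl⟩ ⟨_, hP (mem_zpowers _), rfl⟩
    (by
      refine Nat.Coprime.coprime_dvd_left (orderOf_dvd_of_pow_eq_one (n := M') ?_)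
        ((Nat.Prime.coprime_iff_not_dvd hp.out).2 D.hM).symm
      rw [conj_pow, hs]; simp)
    (hus.conj _) (hx' ▸ pow_mem (mem_zpowers _) _) with h1 | h1 | h1
  · left
    rw [conj_pow, conj_eq_one_iff] at h1
    rw [hus.mul_pow, pow_mod h1 D.tp, pow_mod hs D.t1, pow_one, pow_one]
  · right
    rw [h1.eq, mul_inv_cancel_right, conj_pow, mul_left_inj, mul_right_inj] at hx'
    rw [hus.mul_pow, hum, ← hx']
  · right
    refine isConj_iff.2 ⟨(l : Q)⁻¹ * x * l, ?_⟩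
    rw [conj_pow] at hx'
    rw [hus.mul_pow, hum]
    calc _ = (l : Q)⁻¹ * ((x * (l * u * (l : Q)⁻¹)) * x⁻¹ *
          (x * (l * s * (l : Q)⁻¹) * x⁻¹)) * l := by group
      _ = _ := by rw [h1.eq, hx']; group

end Pool.Agent.Lib.MP_ec19ea_al.Tw
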