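import Pool.Agent.Lib.MP_ec19ea_al.TwD

/-! Characters on cosets of a normal subgroup. -/

namespace Pool.Agent.Lib.MP_ec19ea_al.Tw

open Finset Subgroup
open scoped Classical

variable {H K : Type} [Group H] [Fintype H] [Group K] [Fintype K]

lemma ip_res {ξ : H → ℂ} (hξ : ∀ g x, ξ (g * x * g⁻¹) = ξ x) (ι : K →* H) (θ : K → ℂ) :
    ip (fun n => ξ (ι n)) θ = ∑ η ∈ Irr H, ip ξ η * ip (fun n => η (ι n)) θ := by
  rw [← ip_sum]
  congr 1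
  exact funext fun n => expand hξ _

lemma ip_mul (e : ℂ) (f f' : K → ℂ) : ip (fun n => e * f n) f' = e * ip f f' := by
  simp only [ip, mul_assoc, ← mul_sum, mul_div_assoc]

lemma eq_of_ip_zero {f θ : K → ℂ} (hf : IsCh f) (hθ : θ ∈ Irr K)
    (h : ∀ θ' ∈ Irr K, θ' ≠ θ → ip f θ' = 0) (n : K) : f n = ip f θ * θ n := by
  rw [expand hf.conj n, sum_eq_single_of_mem θ hθ fun θ' h1 h2 => by rw [h θ' h1 h2, zero_mul]]

lemma res_hom {ξ η : H → ℂ} (hξ : ∀ g x, ξ (g * x * g⁻¹) = ξ x)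
    (hn : ∀ η ∈ Irr H, ip ξ η = nt (ip ξ η)) (ι : K →* H) {θ : K → ℂ} (hθ : θ ∈ Irr K) {e : ℂ}
    (he : ∀ n, ξ (ι n) = e * θ n) (hη : η ∈ Irr H) (h0 : ip ξ η ≠ 0) :
    ∃ c : ℂ, c ≠ 0 ∧ ∀ n, η (ι n) = c * θ n := by
  have key := eq_of_ip_zero ((Irr.ch hη).comp ι) hθ fun θ' h1 h2 => by
    have h3 := ip_res hξ ι θ'
    rw [funext he, ip_mul, Irr.row hθ h1, if_neg h2.symm, mul_zero, sum_congr rfl fun χ hχ => by
      rw [hn χ hχ, ((Irr.ch hχ).comp ι).ip_nat (Irr.ch h1)]] at h3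
    have h4 : ∑ χ ∈ Irr H, nt (ip ξ χ) * nt (ip (fun n => χ (ι n)) θ') = 0 := by
      exact_mod_cast h3.symm
    rw [((Irr.ch hη).comp ι).ip_nat (Irr.ch h1),
      (mul_eq_zero.1 (sum_eq_zero_iff.1 h4 η hη)).resolve_left fun h => h0 (by
        rw [hn η hη, h, Nat.cast_zero]), Nat.cast_zero]
  refine ⟨_, fun h => Irr.deg_ne hη ?_, key⟩
  have := key 1
  rwa [h, zero_mul, map_one] at this

lemma Irr.lin {η : H → ℂ} (hη : η ∈ Irr H) (l : H →* ℂ) : (fun y => l y * η y) ∈ Irr H := by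
  refine mem_Irr ((isCh_lin l).mul (Irr.ch hη)) ?_
  rw [← Irr.self hη, ip, ip]
  congr 1
  refine sum_congr rfl fun y _ => ?_
  rw [mul_mul_mul_comm, ← map_mul, mul_inv_cancel, map_one, one_mul]

lemma lin_of_res {Q : Type} [Group Q] (π : H →* Q) (g : H) (hg : ∀ y, π y ∈ zpowers (π g))
    (ι : K →* H) (hι : Function.Injective ι) (hk : ∀ y, π y = 1 ↔ y ∈ ι.range) {η η' : H → ℂ}
    (hη : η ∈ Irr H) (hη' : η' ∈ Irr H)
    (h : ip (fun n => η (ι n)) (fun n => η' (ι n)) ≠ 0) :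
    ∃ l : H →* ℂ, (∀ y, π y = 1 → l y = 1) ∧ ∀ y, η' y = l y * η y := by
  have hr : 0 < orderOf (π g) := (π.isOfFinOrder (isOfFinOrder_of_finite g)).orderOf_pos
  set r := orderOf (π g) with hrd
  have hω := (Complex.isPrimitiveRoot_exp r hr.ne').isUnit_unit hr.ne'
  set ω := ((Complex.isPrimitiveRoot_exp r hr.ne').isUnit hr.ne').unit
  have hgen : ∀ x : zpowers (π g), x ∈ zpowers (⟨π g, mem_zpowers _⟩ : zpowers (π g)) := by
    rintro ⟨_, j, rfl⟩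
    exact ⟨j, rfl⟩
  have hord : orderOf ω ∣ orderOf (⟨π g, mem_zpowers _⟩ : zpowers (π g)) := by
    rw [← hω.eq_orderOf, Subgroup.orderOf_mk]
  set l₀ : H →* ℂˣ := (monoidHomOfForallMemZpowers hgen hord).comp (π.codRestrict _ hg) with hl₀
  have h1 : ∀ y, (l₀ y = 1 ↔ π y = 1) ∧ l₀ y ^ r = 1 := by
    intro y
    obtain ⟨j, hj⟩ := mem_zpowers_iff.1 (hg y)
    have : l₀ y = ω ^ j := by
      have e : π.codRestrict _ hg y = (⟨π g, mem_zpowers _⟩ : zpowers (π g)) ^ j :=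
        Subtype.ext hj.symm
      rw [hl₀, MonoidHom.comp_apply, e, map_zpow, monoidHomOfForallMemZpowers_apply_gen]
    rw [this, ← hj, hω.zpow_eq_one_iff_dvd, orderOf_dvd_iff_zpow_eq_one]
    refine ⟨Iff.rfl, ?_⟩
    rw [← zpow_natCast, ← zpow_mul, mul_comm, zpow_mul, zpow_natCast, hω.pow_eq_one, one_zpow]
  set l : H →* ℂ := (Units.coeHom ℂ).comp l₀ with hl
  have h2 : ∀ y, ∑ j ∈ range r, l y ^ j = if π y = 1 then (r : ℂ) else 0 := by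
    intro y
    split_ifs with hy
    · simp [hl, (h1 y).1.2 hy]
    · have h3 : l y ≠ 1 := fun e => hy ((h1 y).1.1 (Units.ext e))
      have h4 : l y ^ r = 1 := congrArg Units.val (h1 y).2
      rw [geom_sum_eq h3, h4, sub_self, zero_div]
  have h3 : ∑ j ∈ range r, ip (fun y => (l ^ j) y * η y) η' ≠ 0 := by
    simp only [ip, ← sum_div, MonoidHom.pow_apply]
    rw [sum_comm]
    simp only [mul_assoc, ← sum_mul, h2, ite_mul, zero_mul]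
    rw [← sum_filter, ← mul_sum]
    refine div_ne_zero (mul_ne_zero (Nat.cast_ne_zero.2 hr.ne') fun e => h ?_) card_ne
    rw [ip, div_eq_zero_iff]
    left
    rw [← e]
    refine sum_bij (fun n _ => ι n) (fun n _ => ?_) (fun _ _ _ _ h => hι h) (fun y hy => ?_)
      fun n _ => by rw [map_inv]
    · exact mem_filter.2 ⟨mem_univ _, (hk _).2 ⟨n, rfl⟩⟩
    · obtain ⟨n, hn⟩ := (hk y).1 (mem_filter.1 hy).2
      exact ⟨n, mem_univ _, hn⟩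
  obtain ⟨j, -, hj⟩ := exists_ne_zero_of_sum_ne_zero h3
  refine ⟨l ^ j, fun y hy => by simp [hl, (h1 y).1.2 hy], fun y => ?_⟩
  exact (congrFun (Irr.eq_of_ip (Irr.lin hη _) hη' hj) y).symm

lemma coset_abs {Q : Type} [Group Q] (π : H →* Q) (g : H) (hg : ∀ y, π y ∈ zpowers (π g))
    (ι : K →* H) (hι : Function.Injective ι) (hk : ∀ y, π y = 1 ↔ y ∈ ι.range) (β : H → H)
    (h1 : ∀ η ∈ Irr H, (fun y => η (β y)) ∈ Irr H) (h2 : ∀ y, π (β y) = π y) {ξ : H → ℂ}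
    (hξ : IsCh ξ) {θ : K → ℂ} (hθ : θ ∈ Irr K) {e : ℂ} (he : ∀ n, ξ (ι n) = e * θ n)
    (h3 : ∀ n n', β (ι n) = ι n' → θ n' = θ n) :
    ∃ l : H →* ℂ, (∀ y, π y = 1 → l y = 1) ∧ ∀ y, ξ (β y) = l y * ξ y := by
  by_cases h0 : ∀ η ∈ Irr H, ip ξ η = 0
  · have : ∀ y, ξ y = 0 := fun y => by
      rw [expand hξ.conj y, sum_eq_zero fun η hη => by rw [h0 η hη, zero_mul]]
    exact ⟨1, fun _ _ => rfl, fun y => by simp [this]⟩
  push Not at h0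
  obtain ⟨η₀, hη₀, h0⟩ := h0
  obtain ⟨c₀, hc₀, e₀⟩ := res_hom hξ.conj (fun _ h => hξ.ip_nat (Irr.ch h)) ι hθ he hη₀ h0
  have key : ∀ η ∈ Irr H, ∀ c : ℂ, c ≠ 0 → (∀ n, η (ι n) = c * θ n) →
      ∃ l : H →* ℂ, (∀ y, π y = 1 → l y = 1) ∧ ∀ y, η y = l y * η₀ y := by
    intro η hη c hc e
    refine lin_of_res π g hg ι hι hk hη₀ hη ?_
    rw [funext e₀, funext e, ip_mul, ip_comm, ip_mul, Irr.self hθ, mul_one]
    exact mul_ne_zero hc₀ hc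
  obtain ⟨l, hl, el⟩ := key _ (h1 η₀ hη₀) c₀ hc₀ fun n => by
    obtain ⟨n', hn⟩ := (hk (β (ι n))).1 (by rw [h2, hk]; exact ⟨n, rfl⟩)
    rw [← hn, e₀, h3 n n' hn.symm]
  refine ⟨l, hl, fun y => ?_⟩
  rw [expand hξ.conj (β y), expand hξ.conj y, mul_sum]
  refine sum_congr rfl fun η hη => ?_
  by_cases h : ip ξ η = 0
  · simp [h]
  obtain ⟨c, hc, e⟩ := res_hom hξ.conj (fun _ h => hξ.ip_nat (Irr.ch h)) ι hθ he hη h
  obtain ⟨l', hl', el'⟩ := key η hη c hc e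
  have : l' (β y) = l' y := by
    have := hl' (y⁻¹ * β y) (by simp [h2])
    rw [← mul_inv_cancel_left y (β y), map_mul, this, mul_one]
  rw [el' (β y), el' y, el, this]
  ring

lemma coset (N : Subgroup H) [N.Normal] {ξ : H → ℂ} (hξ : IsCh ξ) {θ : N → ℂ} (hθ : θ ∈ Irr N)
    {e : ℂ} (he0 : e ≠ 0) (he : ∀ n : N, ξ n = e * θ n) {M k : ℕ} (hM : 0 < M)
    (hH : ∀ y : H, y ^ M = 1) (hk : k.Coprime M) (hθk : ∀ n, θ (n ^ k) = θ n) {g x : H}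
    (hx : ((x * g ^ k * x⁻¹ : H) : H ⧸ N) = g) : ∃ c : ℂ, c ^ M = 1 ∧
      (∀ y : H, (y : H ⧸ N) = g → ξ (y ^ k) = c * ξ y) ∧
        ∀ i : ℕ, ξ ((g ^ i) ^ k) = c ^ i * ξ (g ^ i) := by
  set Z := (zpowers (g : H ⧸ N)).comap (QuotientGroup.mk' N) with hZ
  have hNZ : N ≤ Z := fun n hn => by
    show (n : H ⧸ N) ∈ zpowers (g : H ⧸ N)
    rw [(QuotientGroup.eq_one_iff n).2 hn]
    exact one_mem _
  have hgZ : g ∈ Z := mem_zpowers (g : H ⧸ N)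
  have h1 : ∀ y ∈ Z, ((x * y ^ k * x⁻¹ : H) : H ⧸ N) = y := by
    intro y hy
    obtain ⟨j, hj⟩ := mem_zpowers_iff.1 (show (y : H ⧸ N) ∈ zpowers (g : H ⧸ N) from hy)
    simp only [QuotientGroup.mk_mul, QuotientGroup.mk_pow, QuotientGroup.mk_inv] at hx ⊢
    rw [← hj, ← zpow_natCast, ← zpow_mul, mul_comm j, zpow_mul, zpow_natCast, ← conj_zpow, hx]
  have h2 : ∀ y ∈ Z, x * y * x⁻¹ ∈ Z := by
    intro y hy
    obtain ⟨y', rfl⟩ := (powCoprime (G := Z) (cop_card (fun y => Subtype.ext (hH y)) hk)).surjective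
      ⟨y, hy⟩ |>.imp fun _ h => congrArg Subtype.val h
    show ((x * (y' : H) ^ k * x⁻¹ : H) : H ⧸ N) ∈ zpowers (g : H ⧸ N)
    rw [h1 _ y'.2]
    exact y'.2
  let a : Z ≃* Z := Z.normalizerMonoidHom ⟨x, mem_normalizer_fintype h2⟩
  have ha : ∀ y : Z, (a y : H) = x * y * x⁻¹ := fun _ => rfl
  obtain ⟨l, hl, el⟩ := coset_abs ((QuotientGroup.mk' N).comp Z.subtype) ⟨g, hgZ⟩ (fun y => y.2)
    (inclusion hNZ) (inclusion_injective hNZ) (fun y => by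
      refine (QuotientGroup.eq_one_iff (y : H)).trans ⟨fun h => ⟨⟨y, h⟩, rfl⟩, ?_⟩
      rintro ⟨n, rfl⟩
      exact n.2)
    (fun y => a (y ^ k))
    (fun η hη => Irr.pow (Irr.equiv a hη) hM (fun y => Subtype.ext (hH y)) hk)
    (fun y => h1 y y.2) (hξ.comp Z.subtype) hθ he fun n n' h => by
      apply mul_left_cancel₀ he0
      rw [← hθk n, ← he, ← he, ← hξ.conj x (n ^ k : N)]
      exact congrArg (fun y : Z => ξ y) h.symm
  have el' : ∀ y : Z, ξ (y ^ k) = l y * ξ y := fun y => by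
    rw [← hξ.conj x]
    exact el y
  refine ⟨l ⟨g, hgZ⟩, ?_, fun y hy => ?_, fun i => ?_⟩
  · rw [← map_pow, show (⟨g, hgZ⟩ : Z) ^ M = 1 from Subtype.ext (hH g), map_one]
  · have hyZ : y ∈ Z := show (y : H ⧸ N) ∈ zpowers (g : H ⧸ N) from hy ▸ mem_zpowers _
    have := hl ((⟨g, hgZ⟩ : Z)⁻¹ * ⟨y, hyZ⟩) (by simp [hy])
    rw [el' ⟨y, hyZ⟩, ← mul_inv_cancel_left (⟨g, hgZ⟩ : Z) ⟨y, hyZ⟩, map_mul, this, mul_one]
    simp
  · rw [← map_pow]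
    exact el' (⟨g, hgZ⟩ ^ i)

lemma coset_fix (N : Subgroup H) [N.Normal] {ξ : H → ℂ} (hξ : IsCh ξ) {θ : N → ℂ}
    (hθ : θ ∈ Irr N) {e : ℂ} (he : ∀ n : N, ξ n = e * θ n) {p d M' k J : ℕ} [hp : Fact p.Prime]
    (hM : ¬ p ∣ M') (hH : ∀ y : H, y ^ (p ^ d * M') = 1) (hk : k ^ p ^ J ≡ 1 [MOD p ^ d * M'])
    (hθk : ∀ n, θ (n ^ k) = θ n) (hd : ¬ p ∣ nt (ξ 1))
    (hu : ∀ u : H, u ^ p ^ d = 1 → ξ (u ^ k) = ξ u) {g : H}
    (hx : IsConj (g : H ⧸ N) ((g : H ⧸ N) ^ k)) : ξ (g ^ k) = ξ g := by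
  have hco : (p ^ d).Coprime M' :=
    Nat.Coprime.pow_left _ ((Nat.Prime.coprime_iff_not_dvd hp.out).2 hM)
  obtain ⟨x, hx⟩ := isConj_iff.1 hx.symm
  obtain ⟨x, rfl⟩ := QuotientGroup.mk_surjective x
  obtain ⟨c, c1, c2, c3⟩ := coset N hξ hθ (fun h => hd (by
      have := he 1
      rw [h, zero_mul] at this
      rw [show ξ 1 = 0 from this]
      simp [nt])) he
    (Nat.mul_pos (pow_pos hp.out.pos _) (Nat.pos_of_ne_zero (by rintro rfl; simp at hM))) hH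
    (cop_of_pow (pow_pos hp.out.pos J).ne' hk) hθk (g := g) (x := x) hx
  by_cases h0 : ξ g = 0
  · rw [c2 g rfl, h0, mul_zero]
  have h1 : ∀ r : ℕ, ((x ^ r * g ^ k ^ r * (x ^ r)⁻¹ : H) : H ⧸ N) = g ∧
      ξ (g ^ k ^ r) = c ^ r * ξ g := by
    intro r
    induction r with
    | zero => simp
    | succ r ih =>
      constructor
      · have : x ^ (r + 1) * g ^ k ^ (r + 1) * (x ^ (r + 1))⁻¹ =
            x * (x ^ r * g ^ k ^ r * (x ^ r)⁻¹) ^ k * x⁻¹ := by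
          rw [conj_pow, ← pow_mul, ← pow_succ, pow_succ' x]
          group
        rw [this, QuotientGroup.mk_mul, QuotientGroup.mk_mul, QuotientGroup.mk_pow, ih.1]
        exact hx
      · have := c2 _ ih.1
        rw [conj_pow, hξ.conj, hξ.conj, ih.2, ← pow_mul, ← pow_succ] at this
        rw [this]
        ring
  have h2 := (h1 (p ^ J)).2
  rw [pow_mod (hH g) hk, pow_one] at h2
  have h3 : c ^ p ^ d = 1 :=
    pow_pp hp.out hM (mul_right_cancel₀ h0 (h2.symm.trans (one_mul _).symm)) c1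
  obtain ⟨v, v1, v2⟩ := Nat.chineseRemainder hco 1 0
  have h4 : (g ^ v) ^ p ^ d = 1 := by
    obtain ⟨c, rfl⟩ := Nat.modEq_zero_iff_dvd.1 v2
    rw [← pow_mul, mul_right_comm, mul_comm M', pow_mul, hH, one_pow]
  have h5 : c = 1 := hξ.twist hξ.deg_nat hd h4 h3 fun j => by
    have := c3 (v * j)
    rw [hu _ (by rw [pow_mul, ← pow_mul _ j, mul_comm j, pow_mul, h4, one_pow]), pow_mul c,
      pow_mod h3 v1, pow_one, pow_mul] at this
    exact this.symm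
  rw [c2 g rfl, h5, one_mul]

end Pool.Agent.Lib.MP_ec19ea_al.Tw
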