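import Pool.Agent.Lib.MP_ec19ea_al.TwE

/-! The homogeneous case. -/

namespace Pool.Agent.Lib.MP_ec19ea_al.Tw

open Finset Subgroup
open scoped Classical

variable {H : Type} [Group H] [Fintype H] (N : Subgroup H) [hN : N.Normal]

/-- Averages over the cosets of `N`. -/
noncomputable def av (W : H → ℂ) (q : H ⧸ N) : ℂ := (∑ n : N, W (q.out * n)) / Fintype.card N

omit hN in
lemma av_mk (W : H → ℂ) (y : H) : av N W y = (∑ n : N, W (y * n)) / Fintype.card N := by
  obtain ⟨h, e⟩ := QuotientGroup.mk_out_eq_mul N y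
  rw [av, e]
  congr 1
  exact Fintype.sum_equiv (Equiv.mulLeft h) _ _ fun n => by simp [mul_assoc]

omit hN in
lemma sum_av (W : H → ℂ) : ∑ y, W y = Fintype.card N * ∑ q, av N W q := by
  simp only [av, ← sum_div]
  rw [mul_div_cancel₀ _ card_ne, ← Fintype.sum_prod_type']
  refine (Fintype.sum_bijective (fun z : (H ⧸ N) × N => z.1.out * z.2) ⟨?_, fun y => ?_⟩ _ _
    fun _ => rfl).symm
  · rintro ⟨q, n⟩ ⟨q', n'⟩ h
    have h1 := congrArg (QuotientGroup.mk (s := N)) h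
    simp only [QuotientGroup.mk_mul_of_mem _ n.2, QuotientGroup.mk_mul_of_mem _ n'.2,
      QuotientGroup.out_eq'] at h1
    subst h1
    exact Prod.ext rfl (Subtype.ext (mul_left_cancel h))
  · obtain ⟨h, e⟩ := QuotientGroup.mk_out_eq_mul N y
    exact ⟨(y, h⁻¹), by simp [e]⟩

lemma av_conj {W : H → ℂ} (hW : ∀ g x, W (g * x * g⁻¹) = W x) (g x : H ⧸ N) :
    av N W (g * x * g⁻¹) = av N W x := by
  obtain ⟨g, rfl⟩ := QuotientGroup.mk_surjective g
  obtain ⟨x, rfl⟩ := QuotientGroup.mk_surjective x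
  rw [← QuotientGroup.mk_inv, ← QuotientGroup.mk_mul, ← QuotientGroup.mk_mul, av_mk, av_mk]
  congr 1
  refine (Fintype.sum_equiv (MulAut.conjNormal (H := N) g).toEquiv _ _ fun n => ?_).symm
  rw [← hW g]
  simp [mul_assoc]

lemma av_int {W : H → ℂ} (hW : IsCh W) (s : H ⧸ N) (R : Subgroup (H ⧸ N))
    (hR : ∀ c ∈ R, c * s = s * c) : Dv (Fintype.card R) (∑ c : R, av N W (s * c)) := by
  obtain ⟨s, rfl⟩ := QuotientGroup.mk_surjective s
  set R' := R.comap (QuotientGroup.mk' N) with hR'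
  have key : ∀ F : H → ℂ, ∑ y : R', F y = Fintype.card N * ∑ c : R, av N F c := by
    intro F
    rw [← sum_subtype (univ.filter (· ∈ R')) (by simp) F, sum_filter, sum_av N,
      ← sum_subtype (univ.filter (· ∈ R)) (by simp) (av N F), sum_filter]
    congr 1
    refine sum_congr rfl fun q _ => ?_
    have : ∀ n : N, q.out * n ∈ R' ↔ q ∈ R := fun n => by
      simp [hR', QuotientGroup.mk_mul_of_mem _ n.2]
    simp only [av, this]
    split_ifs <;> simp
  obtain ⟨a, ha, e⟩ := hW.avg_int R' (s := s) fun y hy => by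
    have := hR _ hy
    simp only [hR', mem_comap, QuotientGroup.mk'_apply, QuotientGroup.mk_mul,
      QuotientGroup.mk_inv] at this hy ⊢
    rwa [← this, mul_inv_cancel_right]
  refine ⟨a, ha, mul_left_cancel₀ (card_ne (G := N)) ?_⟩
  have h1 := key fun _ => 1
  simp only [av, sum_const, card_univ, nsmul_eq_mul, mul_one, div_self (card_ne (G := N))] at h1
  rw [← mul_assoc, ← h1, ← e, key fun y => W (s * y)]
  congr 1
  refine sum_congr rfl fun c _ => ?_
  conv_lhs => rw [← QuotientGroup.out_eq' c.1, ← QuotientGroup.mk_mul, av_mk]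
  simp only [av, mul_assoc]

lemma av_pow {W : H → ℂ} (hW : IsCh W) {M k : ℕ} (hM : 0 < M) (hH : ∀ y : H, y ^ M = 1)
    (hk : k.Coprime M) (h : ∀ y, W (y ^ k) = W y) (q : H ⧸ N) : av N W (q ^ k) = av N W q := by
  obtain ⟨s, rfl⟩ := QuotientGroup.mk_surjective q
  obtain ⟨σ, hσ⟩ := exists_pow_hom hM hk
  rw [← QuotientGroup.mk_pow, av_mk, av_mk,
    ← hW.avg_gal N (fun y hy => hN.conj_mem y hy s) hM (hH s) hσ, map_sum]
  simp only [hW.gal_pow hM (hH _) hσ, h]

variable {p c d M' t m J es : ℕ} [hp : Fact p.Prime]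

omit hp in
lemma Dat.kJ (D : Dat p c d M' t m J es) : (t * m) ^ p ^ J ≡ 1 [MOD p ^ d * M'] := by
  simpa [mul_pow] using D.tJ.mul D.mJ

lemma Dat.ct (D : Dat p c d M' t m J es) : t.Coprime (p ^ d * M') :=
  cop_of_pow (pow_pos hp.out.pos J).ne' D.tJ

lemma Dat.cm (D : Dat p c d M' t m J es) : m.Coprime (p ^ d * M') :=
  cop_of_pow (pow_pos hp.out.pos J).ne' D.mJ

lemma Dat.ck (D : Dat p c d M' t m J es) : (t * m).Coprime (p ^ d * M') := D.ct.mul_left D.cm

theorem homog (D : Dat p c d M' t m J es) (hH : ∀ y : H, y ^ (p ^ d * M') = 1) (hU : U p c (H ⧸ N))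
    {ξ : H → ℂ} (hξ : ξ ∈ Irr H) {θ : N → ℂ} (hθ : θ ∈ Irr N) {e : ℂ}
    (he : ∀ n : N, ξ n = e * θ n) (ht : ∀ n, θ (n ^ t) = θ n) (hm : ∀ n, θ (n ^ m) = θ n)
    (hd : ¬ p ∣ nt (ξ 1)) (hk : ∀ y, ξ (y ^ (t * m)) = ξ y) (y : H) : ξ (y ^ t) = ξ y := by
  have hc := Irr.ch hξ
  have hξ' := Irr.pow hξ D.pos hH D.ct
  have hQ : ∀ q : H ⧸ N, q ^ (p ^ d * M') = 1 := fun q => by
    obtain ⟨y, rfl⟩ := QuotientGroup.mk_surjective q
    rw [← QuotientGroup.mk_pow, hH, QuotientGroup.mk_one]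
  have h1 : IsCh fun y => ξ y * ξ y⁻¹ := hc.mul hc.inv
  have h2 : IsCh fun y => ξ y * ξ (y⁻¹ ^ t) := hc.mul (Irr.ch hξ').inv
  have h3 : ∀ y : H, IsConj (((y : H ⧸ N) ^ es) ^ (t * m)) ((y : H ⧸ N) ^ es) →
      ξ (y ^ t) = ξ y := by
    intro y hy
    rw [pow_mul, pow_mod (D.s_pow (hQ _)) D.t1, pow_one] at hy
    rcases hU.alt D hQ y hy with h | h
    · refine coset_fix N hc hθ he D.hM hH D.tJ ht hd (fun u hu => ?_) (by rw [h])
      rw [← hk u, mul_comm, pow_mul, pow_mod hu D.m1, pow_one]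
    · have := coset_fix N hc hθ he D.hM hH D.mJ hm hd
        (fun u hu => by rw [pow_mod hu D.m1, pow_one]) h
      obtain ⟨σ, hσ⟩ := exists_pow_hom D.pos D.ct
      rw [← hc.gal_pow D.pos (hH _) hσ, ← this, hc.gal_pow D.pos (hH _) hσ, ← pow_mul, mul_comm, hk,
        this]
  have := core (C := H ⧸ N) D.hM hQ D.e1 D.e2 D.kJ
    (fun q => av N (fun y => ξ y * ξ y⁻¹) q - av N (fun y => ξ y * ξ (y⁻¹ ^ t)) q)
    (fun g x => by rw [av_conj N h1.conj, av_conj N h2.conj])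
    (fun s R hR => by
      rw [sum_sub_distrib]
      exact (av_int N h1 s R hR).sub (av_int N h2 s R hR))
    (fun q => by
      rw [av_pow N h1 D.pos hH D.ck fun y => by rw [← inv_pow, hk, hk],
        av_pow N h2 D.pos hH D.ck fun y => by
          rw [hk, ← inv_pow, ← pow_mul, mul_comm _ t, pow_mul, hk]])
    (fun q hq => by
      rw [sub_eq_zero]
      refine congrArg (· / _) (sum_congr rfl fun n _ => ?_)
      beta_reduce
      rw [h3 (q.out * n)⁻¹]
      rw [QuotientGroup.mk_inv, QuotientGroup.mk_mul_of_mem _ n.2, QuotientGroup.out_eq', inv_pow,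
        inv_pow]
      obtain ⟨c, hc⟩ := isConj_iff.1 hq
      exact isConj_iff.2 ⟨c, by rw [← conj_inv, hc]⟩)
    (r := if ξ = fun y => ξ (y ^ t) then 0 else 1) (by
      apply mul_left_cancel₀ (card_ne (G := N))
      have e1 := Irr.self hξ
      have e2 := Irr.row hξ hξ'
      rw [ip, div_eq_iff card_ne] at e1 e2
      rw [sum_sub_distrib, mul_sub, ← sum_av, ← sum_av, e1, e2, ← mul_assoc, ← Nat.cast_mul,
        mul_comm (Fintype.card N), ← Nat.card_eq_fintype_card (α := N),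
        ← Nat.card_eq_fintype_card (α := H ⧸ N), ← card_eq_card_quotient_mul_card_subgroup,
        Nat.card_eq_fintype_card]
      split_ifs <;> simp)
  by_contra hne
  rw [if_neg fun h => hne (congrFun h y).symm] at this
  exact hp.out.one_lt.ne' (by exact_mod_cast Int.eq_one_of_dvd_one (by positivity) this)

end Pool.Agent.Lib.MP_ec19ea_al.Tw
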