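import Pool.Agent.Lib.MP_ec19ea_al.TwF

/-! The Clifford reduction. -/

namespace Pool.Agent.Lib.MP_ec19ea_al.Tw

open Finset Subgroup
open scoped Classical

variable {G : Type} [Group G] [Fintype G]

lemma exists_fixed_irr {p M k J : ℕ} [hp : Fact p.Prime] (hM : 0 < M) (hG : ∀ y : G, y ^ M = 1)
    (hk : k ^ p ^ J ≡ 1 [MOD M]) {ξ : G → ℂ} (h : ∀ y, ξ (y ^ k) = ξ y) (wt : (G → ℂ) → ℕ)
    (hw : ∀ η ∈ Irr G, wt (fun y => η (y ^ k)) = wt η)
    (hd : ¬ p ∣ ∑ η ∈ Irr G, nt (ip ξ η) * wt η) :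
    ∃ η ∈ Irr G, ¬ p ∣ nt (ip ξ η) ∧ ¬ p ∣ wt η ∧ ∀ y, η (y ^ k) = η y := by
  have hc := cop_of_pow (pow_pos hp.out.pos J).ne' hk
  obtain ⟨η, hη, h1, h2⟩ := exists_fixed' (p := p) (r := J) (Irr G) (fun η y => η (y ^ k))
    (fun η => nt (ip ξ η) * wt η) (fun η hη => Irr.pow hη hM hG hc)
    (fun η _ => by
      have : ∀ r : ℕ, (fun (η : G → ℂ) y => η (y ^ k))^[r] η = fun y => η (y ^ k ^ r) := by
        intro r
        induction r with
        | zero => simp
        | succ r ih => rw [Function.iterate_succ_apply', ih]; simp only [← pow_mul, pow_succ']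
      rw [this]
      exact funext fun y => by rw [pow_mod (hG y) hk, pow_one])
    (fun η hη => by
      rw [hw η hη, ← ip_pow ξ η (cop_card hG hc)]
      simp only [h]) hd
  exact ⟨η, hη, fun e => h1 (e.mul_right _), fun e => h1 (e.mul_left _), congrFun h2⟩

lemma sum_zero_of_res (N : Subgroup G) [hN : N.Normal] {W : G → ℂ} (hW : IsCh W)
    (h : ∑ n : N, W n = 0) : ∑ y, W y = 0 := by
  rw [sum_av N, sum_eq_zero, mul_zero]
  intro q _
  rw [av, hW.avg_zero N (fun y hy => hN.conj_mem y hy _) h, zero_div]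

variable (N : Subgroup G) [hN : N.Normal]

/-- The inertia group. -/
def inert (θ : N → ℂ) : Subgroup G where
  carrier := {g | ∀ n, θ (MulAut.conjNormal g n) = θ n}
  one_mem' := by simp
  mul_mem' := fun {a b} ha hb n => by rw [map_mul, MulAut.mul_apply, ha, hb]
  inv_mem' := fun {a} ha n => by rw [← ha, map_inv, MulAut.apply_inv_self]

variable {N} {θ : N → ℂ}

omit [Fintype G] in
lemma le_inert (hθ : IsCh θ) : N ≤ inert N θ := fun g hg n => hθ.conj ⟨g, hg⟩ n

lemma inert_hom (hθ : θ ∈ Irr N) {η : inert N θ → ℂ} (hη : η ∈ Irr (inert N θ))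
    (h0 : ip (fun n => η (inclusion (le_inert (Irr.ch hθ)) n)) θ ≠ 0) :
    ∃ c : ℂ, c ≠ 0 ∧ ∀ n, η (inclusion (le_inert (Irr.ch hθ)) n) = c * θ n := by
  set ι := inclusion (le_inert (Irr.ch hθ)) with hι
  set Θ : inert N θ → ℂ := fun y => if h : (y : G) ∈ N then
    (Fintype.card (inert N θ) / Fintype.card N) * θ ⟨y, h⟩ else 0 with hΘ
  have h1 : ∀ η : inert N θ → ℂ, ip Θ η = ip (fun n => η (ι n)) θ := by
    intro η
    rw [ip_comm _ θ, ip, ip, div_eq_div_iff card_ne card_ne, sum_mul, sum_mul]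
    symm
    refine sum_of_injOn ι (inclusion_injective _).injOn (fun _ _ => mem_univ _) (fun y _ hy => ?_)
      fun n _ => ?_
    · have : (y : G) ∉ N := fun h => hy ⟨⟨y, h⟩, by simp, rfl⟩
      simp [hΘ, this]
    · have := card_ne (G := N)
      simp only [hΘ, hι, coe_inclusion, SetLike.coe_mem, dite_true, map_inv]
      field_simp
  refine res_hom (ξ := Θ) (fun g x => ?_) (fun χ hχ => ?_) ι hθ
    (e := Fintype.card (inert N θ) / Fintype.card N) (fun n => by simp [hΘ, hι]) hη (by rwa [h1])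
  · by_cases h : (x : G) ∈ N
    · have h' : ((g * x * g⁻¹ : inert N θ) : G) ∈ N := hN.conj_mem _ h g
      simp only [hΘ, dif_pos h, dif_pos h']
      rw [← g.2 ⟨x, h⟩]
      rfl
    · have h' : ((g * x * g⁻¹ : inert N θ) : G) ∉ N := fun e => h (by
        simpa [mul_assoc] using hN.conj_mem _ e (g : G)⁻¹)
      simp only [hΘ, dif_neg h, dif_neg h']
  · rw [h1]
    exact ((Irr.ch hχ).comp ι).ip_nat (Irr.ch hθ)

lemma mackey (hθ : θ ∈ Irr N) {ξ : inert N θ → ℂ} (hξ : IsCh ξ) {c : ℂ}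
    (he : ∀ n, ξ (inclusion (le_inert (Irr.ch hθ)) n) = c * θ n) {g : G} (hg : g ∉ inert N θ) :
    ∑ a : inert N θ, (if h : g * a * g⁻¹ ∈ inert N θ then ξ ⟨_, h⟩ * ξ a⁻¹ else 0) = 0 := by
  set T := inert N θ with hT
  set D := T ⊓ T.comap (MulAut.conj g).toMonoidHom with hD
  have hND : N ≤ D := fun n hn =>
    ⟨le_inert (Irr.ch hθ) hn, le_inert (Irr.ch hθ) (hN.conj_mem n hn g)⟩
  let φ₁ : D →* T := inclusion inf_le_left
  let φ₂ : D →* T := ((MulAut.conj g).toMonoidHom.comp D.subtype).codRestrict T fun y => y.2.2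
  have h1 := sum_zero_of_res (N.subgroupOf D) ((hξ.comp φ₂).mul (hξ.comp φ₁).inv) (by
    have h2 := Irr.row (Irr.equiv (MulAut.conjNormal g) hθ) hθ
    rw [if_neg fun e => hg (congrFun e), ip, div_eq_zero_iff, or_iff_left card_ne] at h2
    rw [← (subgroupOfEquivOfLe hND).symm.toEquiv.sum_comp, ← mul_zero (c * c), ← h2, mul_sum]
    refine sum_congr rfl fun n _ => ?_
    rw [mul_mul_mul_comm, ← he, ← he]
    rfl)
  refine Eq.trans (Eq.symm ?_) h1
  refine sum_of_injOn φ₁ (inclusion_injective _).injOn (fun _ _ => mem_univ _) (fun y _ hy => ?_)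
    fun n _ => ?_
  · exact dif_neg fun h : g * y * g⁻¹ ∈ T => hy ⟨⟨y, y.2, h⟩, by simp, rfl⟩
  · rw [dif_pos (show g * (φ₁ n : G) * g⁻¹ ∈ T from n.2.2), map_inv]
    rfl

lemma clifford (hθ : θ ∈ Irr N) {ξ : inert N θ → ℂ} (hξ : ξ ∈ Irr (inert N θ)) {c : ℂ}
    (he : ∀ n, ξ (inclusion (le_inert (Irr.ch hθ)) n) = c * θ n) {χ χ' : G → ℂ} (hχ : χ ∈ Irr G)
    (hχ' : χ' ∈ Irr G) (h : ip (fun y : inert N θ => χ y) ξ ≠ 0)
    (h' : ip (fun y : inert N θ => χ' y) ξ ≠ 0) : χ = χ' := by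
  have hn : ∀ χ ∈ Irr G, ip (fun y : inert N θ => χ y) ξ = nt (ip (fun y : inert N θ => χ y) ξ) :=
    fun χ hχ => ((Irr.ch hχ).comp (inert N θ).subtype).ip_nat (Irr.ch hξ)
  refine unique_of_sum_sq (a := fun χ => nt (ip (fun y : inert N θ => χ y) ξ)) ?_ hχ hχ'
    (fun e => h (by rw [hn χ hχ, e, Nat.cast_zero])) fun e => h' (by rw [hn _ hχ', e, Nat.cast_zero])
  have hT := card_ne (G := inert N θ)
  suffices ∑ χ ∈ Irr G, ip (fun y : inert N θ => χ y) ξ * ip ξ (fun y : inert N θ => χ y) = 1 by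
    rw [sum_congr rfl fun χ hχ => by rw [ip_comm ξ, hn χ hχ]] at this
    exact_mod_cast this
  have e1 : ∀ χ : G → ℂ, ip (fun y : inert N θ => χ y) ξ * ip ξ (fun y : inert N θ => χ y) =
      (∑ a : inert N θ, ∑ b : inert N θ, ξ b * ξ a⁻¹ * (χ a * χ (b : G)⁻¹)) /
        (Fintype.card (inert N θ) * Fintype.card (inert N θ)) := by
    intro χ
    rw [ip, ip, div_mul_div_comm, sum_mul_sum]
    congr 1
    refine sum_congr rfl fun a _ => sum_congr rfl fun b _ => ?_
    rw [Subgroup.coe_inv]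
    ring
  simp only [e1]
  rw [← sum_div, div_eq_one_iff_eq (mul_ne_zero hT hT), sum_comm]
  have e2 : ∀ a : inert N θ, ∑ χ ∈ Irr G, ∑ b : inert N θ, ξ b * ξ a⁻¹ * (χ a * χ (b : G)⁻¹) =
      ∑ g : G, if h : g * a * g⁻¹ ∈ inert N θ then ξ ⟨_, h⟩ * ξ a⁻¹ else 0 := by
    intro a
    rw [sum_comm]
    simp only [← mul_sum, Irr.col]
    simp only [mul_sum]
    rw [sum_comm]
    refine sum_congr rfl fun g _ => ?_
    split_ifs with h
    · rw [sum_eq_single ⟨_, h⟩ (fun b _ hb => by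
        rw [if_neg fun e => hb (Subtype.ext e.symm), mul_zero]) (by simp)]
      simp
    · exact sum_eq_zero fun b _ => by
        rw [if_neg fun e : g * a * g⁻¹ = b => h (e ▸ b.2), mul_zero]
  simp only [e2]
  rw [sum_comm, ← sum_subset (subset_univ (univ.filter (· ∈ inert N θ))) fun g _ hg =>
    mackey hθ (Irr.ch hξ) he (by simpa using hg), Fintype.card_subtype, ← nsmul_eq_mul,
    ← sum_const]
  refine sum_congr rfl fun g hg => ?_
  have hg := (mem_filter.1 hg).2
  have := Irr.self hξ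
  rw [ip, div_eq_one_iff_eq hT] at this
  rw [← Fintype.card_subtype, ← this]
  refine sum_congr rfl fun a _ => ?_
  rw [dif_pos (mul_mem (mul_mem hg a.2) (inv_mem hg)), ← (Irr.ch hξ).conj ⟨g, hg⟩ a]
  rfl

/-- Invariance under the product of the two automorphisms implies invariance under the first. -/
def S (p t m : ℕ) (G : Type) [Group G] [Fintype G] : Prop :=
  ∀ χ ∈ Irr G, ¬ p ∣ nt (χ 1) → (∀ y, χ (y ^ (t * m)) = χ y) → ∀ y, χ (y ^ t) = χ y

variable {p c d M' t m J es : ℕ} [hp : Fact p.Prime]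

theorem step (D : Dat p c d M' t m J es) (hG : ∀ y : G, y ^ (p ^ d * M') = 1) (hU : U p c (G ⧸ N))
    (hS : S p t m N) : S p t m G := by
  intro χ hχ hd hk
  have hc := Irr.ch hχ
  have hNM : ∀ y : N, y ^ (p ^ d * M') = 1 := fun y => Subtype.ext (hG y)
  obtain ⟨θ, hθ, a1, a2, a3⟩ := exists_fixed_irr D.pos hNM D.kJ (ξ := fun n : N => χ n)
    (fun y => hk y) (fun θ => nt (θ 1)) (fun _ _ => by simp only [one_pow]) (by
      have := expand (f := fun n : N => χ (N.subtype n)) (hc.comp N.subtype).conj 1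
      rw [sum_congr rfl fun θ hθ => by
        rw [(hc.comp N.subtype).ip_nat (Irr.ch hθ), (Irr.ch hθ).deg_nat], map_one,
        hc.deg_nat] at this
      norm_cast at this
      rwa [this] at hd)
  have ht := hS θ hθ a2 a3
  have hm : ∀ n, θ (n ^ m) = θ n := fun n => by rw [← ht, ← pow_mul, mul_comm, a3]
  have hle := le_inert (Irr.ch hθ)
  have hTM : ∀ y : inert N θ, y ^ (p ^ d * M') = 1 := fun y => Subtype.ext (hG y)
  obtain ⟨ξ, hξ, b1, b2, b3⟩ := exists_fixed_irr D.pos hTM D.kJ (ξ := fun y : inert N θ => χ y)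
    (fun y => hk y) (fun η => nt (ip (fun n => η (inclusion hle n)) θ))
    (fun η _ => by
      rw [← ip_pow (fun n => η (inclusion hle n)) θ (cop_card hNM D.ck)]
      simp only [a3, map_pow]) (by
      have := ip_res (ξ := fun y => χ ((inert N θ).subtype y)) (hc.comp (inert N θ).subtype).conj
        (inclusion hle) θ
      rw [sum_congr rfl fun η hη => by
        rw [(hc.comp (inert N θ).subtype).ip_nat (Irr.ch hη),
          ((Irr.ch hη).comp (inclusion hle)).ip_nat (Irr.ch hθ)]] at this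
      have h2 := ((hc.comp N.subtype).ip_nat (Irr.ch hθ)).symm.trans this
      norm_cast at h2
      exact fun h => a1 (h.trans (dvd_of_eq h2.symm)))
  have hi := ((Irr.ch hξ).comp (inclusion hle)).ip_nat (Irr.ch hθ)
  obtain ⟨c, -, he⟩ := inert_hom hθ hξ fun e => b2 (by rw [e]; simp [nt])
  have hc' : c = nt (ip (fun n => ξ (inclusion hle n)) θ) := by
    rw [← hi, funext he, ip_mul, Irr.self hθ, mul_one]
  have key := homog (N.subgroupOf (inert N θ)) D hTM
    (hU.comap (QuotientGroup.map _ N (inert N θ).subtype le_rfl) (by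
      rw [injective_iff_map_eq_one]
      intro x hx
      obtain ⟨x, rfl⟩ := QuotientGroup.mk_surjective x
      exact (QuotientGroup.eq_one_iff _).2 ((QuotientGroup.eq_one_iff (x : G)).1 hx)))
    hξ (Irr.equiv (subgroupOfEquivOfLe hle) hθ) (e := c) (fun n => he (subgroupOfEquivOfLe hle n))
    (fun n => by rw [map_pow, ht]) (fun n => by rw [map_pow, hm]) (by
      have := he 1
      rw [map_one, hc', (Irr.ch hθ).deg_nat, ← Nat.cast_mul] at this
      rw [this, nt_cast]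
      exact fun h => (hp.out.dvd_mul.1 h).elim b2 a2) b3
  have h0 : ip (fun y : inert N θ => χ y) ξ ≠ 0 := fun e => b1 (by rw [e]; simp [nt])
  refine fun y => (congrFun (clifford hθ hξ he hχ (Irr.pow hχ D.pos hG D.ct) h0 ?_) y).symm
  rw [← ip_pow _ _ (cop_card hTM D.ct)] at h0
  simp only [key] at h0
  exact h0

end Pool.Agent.Lib.MP_ec19ea_al.Tw
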