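import Pool.Agent.Lib.MP_ec19ea_al.TwG
import Pool.Agent.Lib.MP_ec19ea_al.Main

/-! From power maps to fields of values. -/

namespace Pool.Agent.Lib.MP_ec19ea_al.Tw

open Finset Subgroup Polynomial
open scoped Classical

lemma pow_lift {p k b : ℕ} (j : ℕ) (h : k ≡ 1 [MOD p ^ (b + 1)]) :
    k ^ p ^ j ≡ 1 [MOD p ^ (b + 1 + j)] := by
  induction j with
  | zero => simpa using h
  | succ j ih =>
    obtain ⟨c, hc⟩ := ih.symm.dvd
    have h1 : (p : ℤ) ∣ ∑ i ∈ range p, ((k : ℤ) ^ p ^ j) ^ i := by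
      have h2 : ∀ i : ℕ, ((k : ℤ) ^ p ^ j) ^ i ≡ 1 [ZMOD p] := fun i => by
        have : k ≡ 1 [MOD p] := h.of_dvd (dvd_pow_self p (Nat.succ_ne_zero b))
        simpa using ((Int.natCast_modEq_iff.2 this).pow (p ^ j)).pow i
      have := Int.ModEq.sum (s := range p) fun i _ => h2 i
      rw [← Int.modEq_zero_iff_dvd]
      exact this.trans (by simp)
    refine Nat.ModEq.symm (Nat.modEq_iff_dvd.2 ?_)
    push_cast at hc ⊢
    rw [pow_succ p j, pow_mul, ← mul_geom_sum, hc, ← add_assoc, pow_succ, mul_assoc]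
    exact mul_dvd_mul_left _ (h1.mul_left _)

lemma exists_pow_modEq {p b t k : ℕ} (hp : p.Prime) (h2 : p ≠ 2) (ht : t ≡ 1 [MOD p])
    (ht' : ¬ t ≡ 1 [MOD p ^ (b + 2)]) (hk : k ≡ 1 [MOD p ^ (b + 1)]) :
    ∃ i : ℕ, t ^ i ≡ k [MOD p ^ (b + 2)] := by
  have := Fact.mk hp
  have : NeZero (p ^ (b + 2)) := ⟨pow_ne_zero _ hp.ne_zero⟩
  have := ZMod.isCyclic_units_of_prime_pow p hp h2 (b + 2)
  have h3 : t ^ p ^ (b + 1) ≡ 1 [MOD p ^ (b + 2)] := by
    simpa [add_comm 1, add_assoc] using pow_lift (b := 0) (b + 1) (by simpa using ht)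
  have h4 : k ^ p ≡ 1 [MOD p ^ (b + 2)] := by simpa using pow_lift 1 hk
  set T := ZMod.unitOfCoprime t (cop_of_pow (pow_pos hp.pos _).ne' h3) with hT
  set K := ZMod.unitOfCoprime k (cop_of_pow hp.ne_zero h4) with hK
  have hT1 : T ^ p ^ (b + 1) = 1 := Units.ext (by
    simpa [hT] using (ZMod.natCast_eq_natCast_iff _ _ _).2 h3)
  have hK1 : K ^ p = 1 := Units.ext (by simpa [hK] using (ZMod.natCast_eq_natCast_iff _ _ _).2 h4)
  obtain ⟨j, -, hj⟩ := (Nat.dvd_prime_pow hp).1 (orderOf_dvd_of_pow_eq_one hT1)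
  obtain ⟨j, rfl⟩ : ∃ i, j = i + 1 := Nat.exists_eq_succ_of_ne_zero (by
    rintro rfl
    have := congrArg Units.val (orderOf_eq_one_iff.1 hj)
    exact ht' ((ZMod.natCast_eq_natCast_iff _ _ _).1 (by simpa [hT] using this)))
  have h5 : orderOf (T ^ p ^ j) = p := by
    rw [orderOf_pow' _ (pow_pos hp.pos _).ne', hj, Nat.gcd_eq_right (pow_dvd_pow p j.le_succ),
      pow_succ', Nat.mul_div_cancel _ (pow_pos hp.pos _)]
  have h6 : (univ.filter (· ∈ zpowers (T ^ p ^ j))) = univ.filter (· ^ p = 1) := by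
    refine eq_of_subset_of_card_le (fun x hx => ?_) ((IsCyclic.card_pow_eq_one_le hp.pos).trans ?_)
    · have := orderOf_dvd_of_mem_zpowers (mem_filter.1 hx).2
      exact mem_filter.2 ⟨mem_univ _, orderOf_dvd_iff_pow_eq_one.1 (this.trans h5.dvd)⟩
    · rw [← Fintype.card_subtype, Fintype.card_zpowers, h5]
  have h7 : K ∈ univ.filter (· ∈ zpowers (T ^ p ^ j)) := by
    rw [h6]; exact mem_filter.2 ⟨mem_univ K, hK1⟩
  obtain ⟨i, hi⟩ := mem_powers_iff_mem_zpowers.2 (mem_filter.1 h7).2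
  refine ⟨p ^ j * i, (ZMod.natCast_eq_natCast_iff _ _ _).1 ?_⟩
  simpa [hT, hK, pow_mul] using congrArg Units.val hi

lemma coeff_mem (K : IntermediateField ℚ ℂ) (s : Finset ℂ) (h : ∀ z ∈ s, z ∈ K) (i : ℕ) :
    (∏ z ∈ s, (X - C z)).coeff i ∈ K := by
  induction s using Finset.induction_on generalizing i with
  | empty => rw [prod_empty, coeff_one]; split_ifs <;> simp
  | insert a s ha ih =>
    rw [prod_insert ha, coeff_mul]
    refine sum_mem fun x _ => mul_mem ?_ (ih (fun z hz => h z (mem_insert_of_mem hz)) _)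
    rw [coeff_sub, coeff_X, coeff_C]
    refine sub_mem ?_ ?_ <;> split_ifs <;> simp [h a (mem_insert_self _ _)]

variable {G : Type} [Group G] {χ : G → ℂ}

lemma fix_pow {k : ℕ} (h : ∀ y, χ (y ^ k) = χ y) (i : ℕ) (y : G) : χ (y ^ k ^ i) = χ y := by
  induction i with
  | zero => simp
  | succ i ih => rw [pow_succ, pow_mul, h, ih]

lemma exists_fix (hχ : IsCh χ) {M n : ℕ} (hM : 0 < M) (hG : ∀ y : G, y ^ M = 1) (hn : n ∣ M)
    {ζ : ℂ} (hζ : ζ ^ n = 1) {σ : ℂ →+* ℂ}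
    (hσ : ∀ x ∈ valField χ Set.univ ⊓ cyc n, σ x = x) :
    ∃ k : ℕ, k.Coprime M ∧ (∀ y, χ (y ^ k) = χ y) ∧ σ ζ = ζ ^ k := by
  have hn0 : 0 < n := Nat.pos_of_dvd_of_pos hn hM
  have hζM : ζ ^ M = 1 := by
    obtain ⟨c, rfl⟩ := hn
    rw [pow_mul, hζ, one_pow]
  set s := (nthRootsFinset n (1 : ℂ)).filter
    fun z => ∃ k : ℕ, k.Coprime M ∧ (∀ y, χ (y ^ k) = χ y) ∧ z = ζ ^ k with hs
  have hs' : ∀ z, z ∈ s ↔ ∃ k : ℕ, k.Coprime M ∧ (∀ y, χ (y ^ k) = χ y) ∧ z = ζ ^ k := by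
    intro z
    rw [hs, mem_filter, mem_nthRootsFinset hn0, and_iff_right_iff_imp]
    rintro ⟨k, -, -, rfl⟩
    rw [← pow_mul, mul_comm, pow_mul, hζ, one_pow]
  have h1 := coeff_mem (cyc n) s fun z hz =>
    mem_cyc ((mem_nthRootsFinset hn0 _).1 (mem_filter.1 hz).1)
  have h2 : ∀ i, (∏ z ∈ s, (X - C z)).coeff i ∈ valField χ Set.univ := fun i => by
    refine mem_of_fixed _ (alg_of_mem_cyc hn0 (h1 i)) fun τ hτ => ?_
    obtain ⟨k, hk, hk'⟩ := exists_pow_of_hom τ hM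
    have h3 : ∀ z ∈ s, τ z ∈ s := fun z hz => by
      obtain ⟨j, j1, j2, rfl⟩ := (hs' z).1 hz
      refine (hs' _).2 ⟨k * j, hk.mul_left j1, fun y => ?_, by rw [map_pow, hk' ζ hζM, pow_mul]⟩
      rw [pow_mul, j2, ← hχ.gal_pow hM (hG y) hk']
      exact hτ _ (IntermediateField.subset_adjoin _ _ ⟨y, trivial, rfl⟩)
    rw [← coeff_map, Polynomial.map_prod]
    congr 1
    refine prod_bij (fun z _ => τ z) h3 (fun _ _ _ _ h => τ.injective h) (fun z hz => ?_)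
      fun _ _ => by simp
    obtain ⟨a, ha, e⟩ := surj_on_of_inj_on_of_card_le (fun z _ => τ z) h3
      (fun _ _ _ _ h => τ.injective h) le_rfl z hz
    exact ⟨a, ha, e.symm⟩
  have h3 : (∏ z ∈ s, (X - C z)).map σ = ∏ z ∈ s, (X - C z) :=
    Polynomial.ext fun i => by rw [coeff_map, hσ _ ⟨h2 i, h1 i⟩]
  have h4 : (∏ z ∈ s, (X - C z)).eval (σ ζ) = 0 := by
    rw [← h3, eval_map, eval₂_at_apply, eval_prod, prod_eq_zero ((hs' ζ).2
      ⟨1, by simp, by simp, by simp⟩) (by simp), map_zero]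
  rw [eval_prod, prod_eq_zero_iff] at h4
  obtain ⟨z, hz, e⟩ := h4
  rw [eval_sub, eval_X, eval_C, sub_eq_zero] at e
  exact e ▸ (hs' z).1 hz

lemma exists_dat {p d M' k a : ℕ} [hp : Fact p.Prime] (hM : ¬ p ∣ M') (ha : a + 1 ≤ d)
    (hk : k.Coprime (p ^ d * M')) (h1 : k ≡ 1 [MOD p]) : ∃ t m J es e, Dat p 1 d M' t m J es ∧
      t * m ≡ k ^ e [MOD p ^ d * M'] ∧ t ≡ k [MOD p ^ (a + 1)] := by
  have hcop : ∀ {c : ℕ} (j : ℕ), ¬ p ∣ c → (p ^ j).Coprime c := fun j h =>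
    Nat.Coprime.pow_left _ ((Nat.Prime.coprime_iff_not_dvd hp.out).2 h)
  have hco := hcop d hM
  have hpos : 0 < p ^ d * M' :=
    Nat.mul_pos (pow_pos hp.out.pos _) (Nat.pos_of_ne_zero (by rintro rfl; simp at hM))
  obtain ⟨J, c, hc, hJ⟩ := Nat.exists_eq_pow_mul_and_not_dvd (Nat.totient_pos.2 hpos).ne' p
    hp.out.ne_one
  obtain ⟨e, e1, e2⟩ := Nat.chineseRemainder (hcop (a + 1) hc) 1 0
  have h2 : (k ^ e) ^ p ^ J ≡ 1 [MOD p ^ d * M'] := by
    obtain ⟨c', rfl⟩ := Nat.modEq_zero_iff_dvd.1 e2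
    rw [← pow_mul, mul_right_comm, mul_comm c, ← hJ, pow_mul]
    simpa using (Nat.ModEq.pow_totient hk).pow c'
  have h3 : k ^ e ≡ k [MOD p ^ (a + 1)] := by
    have h4 : ((k : ZMod (p ^ (a + 1)))) ^ p ^ (a + 1) = 1 := by
      have := (pow_lift (b := 0) (a + 1) (by simpa using h1)).of_dvd (pow_dvd_pow p
        (show a + 1 ≤ 0 + 1 + (a + 1) by omega))
      simpa using (ZMod.natCast_eq_natCast_iff _ _ _).2 this
    refine (ZMod.natCast_eq_natCast_iff _ _ _).1 ?_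
    rw [Nat.cast_pow, pow_mod h4 e1, pow_one]
  obtain ⟨t, t1, t2⟩ := Nat.chineseRemainder hco (k ^ e) 1
  obtain ⟨m, m1, m2⟩ := Nat.chineseRemainder hco 1 (k ^ e)
  obtain ⟨es, s1, s2⟩ := Nat.chineseRemainder hco 0 1
  have h5 := (t1.of_dvd (pow_dvd_pow p ha)).trans h3
  refine ⟨t, m, J, es, e, ⟨hM, t2, by
    simpa using (h5.of_dvd (dvd_pow_self p a.succ_ne_zero)).trans h1, m1, ?_, ?_, s1, s2⟩, ?_, h5⟩ <;> rw [← Nat.modEq_and_modEq_iff_modEq_mul hco]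
  · exact ⟨(t1.pow _).trans (h2.of_mul_right _), by simpa using t2.pow (p ^ J)⟩
  · exact ⟨by simpa using m1.pow (p ^ J), (m2.pow _).trans (h2.of_mul_left _)⟩
  · exact ⟨by simpa using t1.mul m1, by simpa using t2.mul m2⟩

lemma IsCh.mem_cyc [Finite G] (hχ : IsCh χ) {g : G} {n : ℕ} (hg : g ^ n = 1) : χ g ∈ cyc n := by
  obtain ⟨V, _, _, _, ρ, rfl⟩ := hχ
  exact char_mem_cyc ρ hg

theorem field_cond [Finite G] {p : ℕ} [hp : Fact p.Prime] (h2 : p ≠ 2) (hχ : IsCh χ) {a : ℕ}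
    (hS : ∀ d M' t m J es, Dat p (a - 1) d M' t m J es → (∀ y : G, y ^ (p ^ d * M') = 1) →
      (∀ y, χ (y ^ (t * m)) = χ y) → ∀ y, χ (y ^ t) = χ y) {m : ℕ} (hm : ¬ p ∣ m)
    (hc : conductor (valField χ Set.univ) = p ^ a * m) :
    ¬ p ∣ (valField χ Set.univ).relfinrank (cyc (p ^ a)) := by
  rcases Nat.eq_zero_or_pos a with rfl | ha
  · rw [pow_zero, cyc_one, IntermediateField.relfinrank_bot_right, Nat.dvd_one]
    exact hp.out.ne_one
  refine not_dvd_relfinrank hp.out inf_le_left inf_le_right (cyc_mono (dvd_pow_self p ha.ne')) ?_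
  by_cases ha1 : a = 1
  · rw [ha1, pow_one]; exact le_sup_left
  obtain ⟨b, rfl⟩ : ∃ b, a = b + 2 := ⟨a - 2, by omega⟩
  have hne : {n : ℕ | 0 < n ∧ valField χ Set.univ ≤ cyc n}.Nonempty :=
    ⟨Nat.card G, Nat.card_pos, IntermediateField.adjoin_le_iff.2 (by
      rintro _ ⟨g, -, rfl⟩
      exact hχ.mem_cyc pow_card_eq_one')⟩
  have hF' : valField χ Set.univ ≤ cyc (p ^ (b + 2) * m) := hc ▸ (Nat.sInf_mem hne).2
  have hF : ∀ g, χ g ∈ cyc (p ^ (b + 2) * m) := fun g =>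
    hF' (IntermediateField.subset_adjoin _ _ ⟨g, trivial, rfl⟩)
  have m0 : 0 < m := Nat.pos_of_ne_zero (by rintro rfl; exact hm (dvd_zero p))
  obtain ⟨r, N, hN, hG⟩ := Nat.exists_eq_pow_mul_and_not_dvd (Nat.card_pos (α := G)).ne' p
    hp.out.ne_one
  have N0 : 0 < N := Nat.pos_of_ne_zero (by rintro rfl; exact hN (dvd_zero p))
  have p0 := hp.out.pos
  have hM : 0 < p ^ (b + 2 + r) * N := by positivity
  have hG' : ∀ y : G, y ^ (p ^ (b + 2 + r) * N) = 1 := fun y => by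
    rw [pow_add, mul_assoc, ← hG, mul_comm, pow_mul, pow_card_eq_one', one_pow]
  have hdv : p ^ (b + 2) ∣ p ^ (b + 2 + r) * N := (pow_dvd_pow p (by omega)).mul_right _
  refine IntermediateField.adjoin_le_iff.2 fun z hz => ?_
  refine mem_of_fixed _ ((alg_of_pow (pow_pos p0 _) hz).tower_top (A := ℚ)).isAlgebraic
    fun σ hσ => ?_
  have hζ := Complex.isPrimitiveRoot_exp (p ^ (b + 2)) (by positivity)
  set ζ := Complex.exp (2 * Real.pi * Complex.I / (p ^ (b + 2) : ℕ))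
  have : NeZero (p ^ (b + 2)) := ⟨by positivity⟩
  obtain ⟨i, -, rfl⟩ := hζ.eq_pow_of_pow_eq_one hz
  obtain ⟨k, k1, k2, k3⟩ := exists_fix hχ hM hG' hdv hζ.pow_eq_one (σ := σ)
    fun x hx => hσ x (le_sup_right (α := IntermediateField ℚ ℂ) hx)
  have k4 : k ≡ 1 [MOD p] := by
    refine modEq_one_of_fix (M := p ^ (b + 2)) (τ := σ) (by positivity)
      (dvd_pow_self p (by omega)) (fun w hw => ?_)
      fun w hw => hσ w (le_sup_left (α := IntermediateField ℚ ℂ) (mem_cyc hw))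
    obtain ⟨j, -, rfl⟩ := hζ.eq_pow_of_pow_eq_one hw
    rw [map_pow, k3, ← pow_mul, ← pow_mul, mul_comm]
  obtain ⟨t₀, m', J, es, e, D₀, d1, d2⟩ := exists_dat (a := b + 1) hN (by omega) k1 k4
  by_cases h₀ : t₀ ≡ 1 [MOD p ^ (b + 2)]
  · rw [map_pow, k3, pow_mod hζ.pow_eq_one (d2.symm.trans h₀), pow_one]
  exfalso
  have e₁ : 1 + p ^ (b + 1) ≡ 1 [MOD p ^ (b + 1)] := by simp
  obtain ⟨i₀, hi₀⟩ := exists_pow_modEq hp.out h2 (by simpa using D₀.tp) h₀ e₁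
  have D : Dat p (b + 1) (b + 2 + r) N (t₀ ^ i₀) (m' ^ i₀) J es :=
    ⟨hN, by simpa using D₀.t1.pow i₀, (hi₀.of_dvd (pow_dvd_pow p (by omega))).trans e₁,
      by simpa using D₀.m1.pow i₀, by simpa [← pow_mul, mul_comm] using D₀.tJ.pow i₀,
      by simpa [← pow_mul, mul_comm] using D₀.mJ.pow i₀, D₀.e1, D₀.e2⟩
  have ht := hS _ _ _ _ _ _ D hG' fun y => by
    rw [← mul_pow, pow_mod (hG' y) (d1.pow i₀), ← pow_mul, fix_pow k2]
  have h : ¬ t₀ ^ i₀ ≡ 1 [MOD p ^ (b + 2)] := fun h => by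
    have := (Nat.modEq_iff_dvd' (Nat.le_add_right 1 _)).1 (h.symm.trans hi₀)
    rw [Nat.add_sub_cancel_left] at this
    exact absurd (Nat.le_of_dvd (by positivity) this)
      (not_le.2 (Nat.pow_lt_pow_right hp.out.one_lt (by omega)))
  generalize t₀ ^ i₀ = t at D ht h
  have h3 : ∀ g, χ g ∈ cyc (p ^ (b + 1) * N) := fun g => by
    have h4 := mem_cyc_of_inter hp.out hN hm (hχ.mem_cyc (hG' g)) (hF g)
    refine mem_of_fixed _ (alg_of_mem_cyc (by positivity) h4) fun τ hτ => ?_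
    obtain ⟨l, -, hl⟩ := exists_pow_of_hom τ hM
    have l1 : l ≡ 1 [MOD p ^ (b + 1) * N] := modEq_one_of_fix hM
      (mul_dvd_mul_right (pow_dvd_pow p (by omega)) _) hl fun w hw => hτ w (mem_cyc hw)
    obtain ⟨j, hj⟩ := exists_pow_modEq hp.out h2
      (D.tp.of_dvd (dvd_pow_self p b.succ_ne_zero)) h (l1.of_mul_right _)
    obtain ⟨τ', hτ'⟩ := exists_pow_hom hM (D.ct.pow_left j)
    rw [eq_on_adjoin (τ' := τ') (fun w hw => ?_) h4, hχ.gal_pow hM (hG' g) hτ', fix_pow ht]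
    have hw' : w ^ (p ^ (b + 2) * N) = 1 := hw
    have hw2 : w ^ (p ^ (b + 2 + r) * N) = 1 := by
      rw [pow_add, mul_right_comm, pow_mul, hw', one_pow]
    rw [hl w hw2, hτ' w hw2]
    refine pow_mod hw' ((Nat.modEq_and_modEq_iff_modEq_mul (Nat.Coprime.pow_left _
      ((Nat.Prime.coprime_iff_not_dvd hp.out).2 hN))).1 ⟨hj.symm, ?_⟩)
    exact (l1.of_mul_left _).trans (by simpa using (D.t1.pow j).symm)
  have h5 : conductor (valField χ Set.univ) ≤ p ^ (b + 1) * m :=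
    Nat.sInf_le ⟨by positivity, IntermediateField.adjoin_le_iff.2 (by
      rintro _ ⟨g, -, rfl⟩
      exact mem_cyc_of_inter hp.out hm hN (hF g) (h3 g))⟩
  rw [hc] at h5
  exact absurd (Nat.le_of_mul_le_mul_right h5 m0)
    (not_le.2 (Nat.pow_lt_pow_right hp.out.one_lt (by omega)))

lemma S.equiv {A B : Type} [Group A] [Fintype A] [Group B] [Fintype B] {p t m : ℕ} (e : A ≃* B)
    (h : S p t m A) : S p t m B := fun χ hχ hd hk y => by
  have := h _ (Irr.equiv e hχ) (by rwa [map_one]) (fun y => by rw [map_pow, hk]) (e.symm y)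
  simpa using this

theorem series [Finite G] {p : ℕ} [hp : Fact p.Prime] (h2 : p ≠ 2) {n a : ℕ}
    (H : Fin (n + 1) → Subgroup G) (h0 : H 0 = ⊥) (hn : H (Fin.last n) = ⊤)
    (hs : ∀ i : Fin n, H i.castSucc ≤ H i.succ ∧
      ∃ _ : ((H i.castSucc).subgroupOf (H i.succ)).Normal,
        SylowCond p (a - 1) (H i.succ ⧸ (H i.castSucc).subgroupOf (H i.succ)))
    {V : Type} [AddCommGroup V] [Module ℂ V] [FiniteDimensional ℂ V] (ρ : Representation ℂ G V)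
    [ρ.IsIrreducible] (hd : ¬ p ∣ Module.finrank ℂ V) {m : ℕ} (hm : ¬ p ∣ m)
    (hc : conductor (valField ρ.character Set.univ) = p ^ a * m) :
    ¬ p ∣ (valField ρ.character Set.univ).relfinrank (cyc (p ^ a)) := by
  have := Fintype.ofFinite G
  have hχ : IsCh ρ.character := ⟨V, _, _, inferInstance, ρ, rfl⟩
  refine field_cond h2 hχ (fun d M' t m J es D hG => ?_) hm hc
  have key : ∀ i, S p t m (H i) := by
    intro i
    induction i using Fin.induction with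
    | zero =>
      intro χ _ _ _ y
      have : Subsingleton (H 0) := by rw [h0]; infer_instance
      rw [Subsingleton.elim (y ^ t) y]
    | succ i ih =>
      obtain ⟨h1, _, h3⟩ := hs i
      exact step D (fun y => Subtype.ext (hG y)) (U.of_cond h3)
        (ih.equiv (subgroupOfEquivOfLe h1).symm)
  refine (key (Fin.last n)).equiv ((MulEquiv.subgroupCongr hn).trans topEquiv) _
    (mem_Irr hχ ?_) (by rwa [ρ.char_one, nt_cast])
  have hN : (Nat.card G : ℂ) ≠ 0 := Nat.cast_ne_zero.2 Nat.card_pos.ne'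
  let _ := invertibleOfNonzero hN
  have h1 := Representation.char_orthonormal ρ ρ
  rw [if_pos ⟨Representation.Equiv.refl ρ⟩] at h1
  rw [ip, div_eq_inv_mul, ← Nat.card_eq_fintype_card, h1]

end Pool.Agent.Lib.MP_ec19ea_al.Tw
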