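import Pool.Agent.Lib.MP_ec19ea_al.Eig

open Finset

namespace Pool.Agent.Lib.MP_ec19ea_al

variable {G : Type*} [Group G] {V : Type*} [AddCommGroup V] [Module ℂ V]
  (ρ : Representation ℂ G V) (K : Subgroup G) [Fintype K]

/-- weight projection -/
noncomputable def wt (μ : K →* ℂˣ) : Module.End ℂ V :=
  (Fintype.card K : ℂ)⁻¹ • ∑ k : K, ((μ k : ℂ))⁻¹ • ρ k

theorem mul_wt (μ : K →* ℂˣ) (k : K) : ρ k * wt ρ K μ = (μ k : ℂ) • wt ρ K μ := by
  unfold wt
  rw [mul_smul_comm, smul_comm (μ k : ℂ)]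
  congr 1
  rw [mul_sum, smul_sum, ← Equiv.sum_comp (Equiv.mulLeft k) (fun x : K => (μ k : ℂ) • ((μ x : ℂ))⁻¹ • ρ x)]
  refine sum_congr rfl fun x _ => ?_
  simp only [Equiv.coe_mulLeft, map_mul, Subgroup.coe_mul, mul_smul_comm, smul_smul, Units.val_mul]
  congr 1
  field_simp

open Classical in
theorem wt_mul_wt (μ ν : K →* ℂˣ) :
    wt ρ K μ * wt ρ K ν = if μ = ν then wt ρ K ν else 0 := by
  have hN : (Fintype.card K : ℂ) ≠ 0 := Nat.cast_ne_zero.2 Fintype.card_ne_zero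
  conv_lhs => rw [wt, smul_mul_assoc, sum_mul]
  simp only [smul_mul_assoc, mul_wt, smul_smul]
  rw [← sum_smul, smul_smul]
  split_ifs with h
  · subst h
    simp [hN]
  · have := sum_hom_units_eq_zero ((Units.coeHom ℂ).comp (μ⁻¹ * ν)) (by
      intro h1
      apply h
      ext k
      have := DFunLike.congr_fun h1 k
      simp only [MonoidHom.coe_comp, Function.comp_apply, MonoidHom.mul_apply, MonoidHom.inv_apply,
        Units.coeHom_apply, Units.val_mul, Units.val_inv_eq_inv_val, MonoidHom.one_apply] at this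
      rw [inv_mul_eq_one₀ (Units.ne_zero _)] at this
      exact this)
    simp only [MonoidHom.coe_comp, Function.comp_apply, MonoidHom.mul_apply, MonoidHom.inv_apply,
      Units.coeHom_apply, Units.val_mul, Units.val_inv_eq_inv_val] at this
    rw [this]; simp

theorem wt_idem (μ : K →* ℂˣ) : wt ρ K μ * wt ρ K μ = wt ρ K μ := by
  rw [wt_mul_wt, if_pos rfl]

theorem sum_wt [Fintype (K →* ℂˣ)] (hK : ∀ x ∈ K, ∀ y ∈ K, x * y = y * x) :
    ∑ μ, wt ρ K μ = 1 := by
  classical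
  let _ : CommGroup K := { (inferInstance : Group K) with
    mul_comm := fun x y => Subtype.ext (hK x x.2 y y.2) }
  have hN : (Fintype.card K : ℂ) ≠ 0 := Nat.cast_ne_zero.2 Fintype.card_ne_zero
  have : NeZero (Monoid.exponent K) := ⟨Monoid.exponent_ne_zero_of_finite⟩
  have hc := CommGroup.card_monoidHom_of_hasEnoughRootsOfUnity K ℂ
  unfold wt
  rw [← smul_sum, sum_comm]
  have : ∀ k : K, ∑ μ : K →* ℂˣ, ((μ k : ℂ))⁻¹ • ρ k
      = if k = 1 then (Fintype.card K : ℂ) • (1 : Module.End ℂ V) else 0 := by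
    intro k
    rw [← sum_smul]
    split_ifs with h
    · subst h
      simp only [map_one, Units.val_one, inv_one, sum_const, card_univ, nsmul_eq_mul, mul_one,
        OneMemClass.coe_one]
      rw [← Nat.card_eq_fintype_card, hc, Nat.card_eq_fintype_card]
    · obtain ⟨φ, hφ⟩ := CommGroup.exists_apply_ne_one_of_hasEnoughRootsOfUnity K ℂ
        (inv_ne_one.2 h)
      have := sum_hom_units_eq_zero ((Units.coeHom ℂ).comp (MonoidHom.eval k⁻¹ :
        (K →* ℂˣ) →* ℂˣ)) (by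
        intro h1
        apply hφ
        have := DFunLike.congr_fun h1 φ
        exact Units.ext this)
      have h2 : ∑ μ : K →* ℂˣ, ((μ k : ℂ))⁻¹ = 0 := by
        rw [← this]
        refine sum_congr rfl fun μ _ => ?_
        show _ = ((μ k⁻¹ : ℂˣ) : ℂ)
        rw [map_inv, Units.val_inv_eq_inv_val]
      rw [h2, zero_smul]
  simp only [this]
  rw [sum_ite_eq', if_pos (mem_univ _), smul_smul, inv_mul_cancel₀ hN, one_smul]

variable [hKn : K.Normal]

/-- conjugation action on characters -/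
@[reducible] def act : MulAction G (K →* ℂˣ) where
  smul g μ := μ.comp (MulAut.conjNormal g⁻¹).toMonoidHom
  one_smul μ := by
    ext k
    show (μ (MulAut.conjNormal (1 : G)⁻¹ k) : ℂ) = μ k
    simp
  mul_smul g h μ := by
    ext k
    show (μ (MulAut.conjNormal (g * h)⁻¹ k) : ℂ)
      = μ (MulAut.conjNormal h⁻¹ (MulAut.conjNormal g⁻¹ k))
    simp

attribute [local instance] act

omit [Fintype K] in
theorem act_apply (g : G) (μ : K →* ℂˣ) (k : K) :
    (g • μ) k = μ ⟨g⁻¹ * k * g, by simpa using hKn.conj_mem _ k.2 g⁻¹⟩ := by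
  show μ (MulAut.conjNormal g⁻¹ k) = _
  congr 1
  ext
  simp

theorem conj_wt (g : G) (μ : K →* ℂˣ) : ρ g * wt ρ K μ = wt ρ K (g • μ) * ρ g := by
  unfold wt
  rw [mul_smul_comm, smul_mul_assoc, mul_sum, sum_mul]
  congr 1
  refine Fintype.sum_equiv (MulAut.conjNormal g).toEquiv _ _ fun x => ?_
  rw [mul_smul_comm, smul_mul_assoc, act_apply, ← map_mul, ← map_mul]
  congr 2
  · congr 2
    ext
    simp [mul_assoc]
  · simp

theorem wt_smul (g : G) (μ : K →* ℂˣ) : wt ρ K (g • μ) = ρ g * wt ρ K μ * ρ g⁻¹ := by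
  rw [conj_wt, mul_assoc, ← map_mul, mul_inv_cancel, map_one, mul_one]

theorem wt_smul_ne (g : G) {μ : K →* ℂˣ} (h : wt ρ K μ ≠ 0) : wt ρ K (g • μ) ≠ 0 := by
  intro h0
  apply h
  rw [← inv_smul_smul g μ, wt_smul, h0, mul_zero, zero_mul]

theorem wt_trans [Fintype (K →* ℂˣ)]
    (hirr : ∀ f : Module.End ℂ V, (∀ g, ρ g * f = f * ρ g) → ∃ c : ℂ, f = c • 1)
    {μ ν : K →* ℂˣ} (hμ : wt ρ K μ ≠ 0) (hν : wt ρ K ν ≠ 0) : ∃ g : G, g • μ = ν := by
  classical
  let O : Finset (K →* ℂˣ) := univ.filter fun l => ∃ g : G, g • μ = l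
  obtain ⟨c, hc⟩ := hirr (∑ l ∈ O, wt ρ K l) fun g => by
    rw [mul_sum, sum_mul]
    refine sum_bij' (fun l _ => g • l) (fun l _ => g⁻¹ • l) ?_ ?_ ?_ ?_ ?_
    · intro l hl
      simp only [O, mem_filter, mem_univ, true_and] at hl ⊢
      obtain ⟨x, rfl⟩ := hl
      exact ⟨g * x, mul_smul _ _ _⟩
    · intro l hl
      simp only [O, mem_filter, mem_univ, true_and] at hl ⊢
      obtain ⟨x, rfl⟩ := hl
      exact ⟨g⁻¹ * x, mul_smul _ _ _⟩
    · intro l _; simp
    · intro l _; simp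
    · intro l _; exact conj_wt ρ K g l
  have key : ∀ l, c • wt ρ K l = if l ∈ O then wt ρ K l else 0 := by
    intro l
    have := congrArg (· * wt ρ K l) hc
    simp only [sum_mul, wt_mul_wt, smul_mul_assoc, one_mul] at this
    rw [← this, sum_ite_eq']
  have h1 := key μ
  rw [if_pos (by simp only [O, mem_filter, mem_univ, true_and]; exact ⟨1, one_smul _ _⟩)] at h1
  have hc1 : c = 1 := smul_left_injective ℂ hμ (h1.trans (one_smul _ _).symm)
  have h2 := key ν
  rw [hc1, one_smul] at h2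
  by_contra h3
  rw [if_neg (by simpa [O] using h3)] at h2
  exact hν h2

variable [FiniteDimensional ℂ V]

open Classical in
theorem wt_count [Fintype (K →* ℂˣ)] (hK : ∀ x ∈ K, ∀ y ∈ K, x * y = y * x)
    (hirr : ∀ f : Module.End ℂ V, (∀ g, ρ g * f = f * ρ g) → ∃ c : ℂ, f = c • 1)
    {p : ℕ} (hd : ¬ p ∣ Module.finrank ℂ V) :
    ¬ p ∣ (univ.filter fun μ => wt ρ K μ ≠ 0).card ∧
      ∃ m : ℕ, ¬ p ∣ m ∧ ∀ μ, wt ρ K μ ≠ 0 → LinearMap.trace ℂ V (wt ρ K μ) = m := by
  have h1 := congrArg (LinearMap.trace ℂ V) (sum_wt ρ K hK)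
  rw [LinearMap.trace_one, ← sum_filter_ne_zero, map_sum] at h1
  have hne : (univ.filter fun μ => wt ρ K μ ≠ 0).Nonempty := by
    rw [nonempty_iff_ne_empty]
    intro h
    rw [h, sum_empty] at h1
    apply hd
    have : Module.finrank ℂ V = 0 := by exact_mod_cast h1.symm
    rw [this]; exact dvd_zero p
  obtain ⟨μ0, h0⟩ := hne
  have h0' : wt ρ K μ0 ≠ 0 := (mem_filter.1 h0).2
  have h2 := (LinearMap.IsIdempotentElem.isProj_range _ (wt_idem ρ K μ0)).trace
  set m := Module.finrank ℂ (LinearMap.range (wt ρ K μ0))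
  have h3 : ∀ μ, wt ρ K μ ≠ 0 → LinearMap.trace ℂ V (wt ρ K μ) = m := by
    intro μ hμ
    obtain ⟨g, rfl⟩ := wt_trans ρ K hirr h0' hμ
    rw [wt_smul, LinearMap.trace_mul_comm, ← mul_assoc, ← map_mul, inv_mul_cancel, map_one,
      one_mul, h2]
  rw [sum_congr rfl (fun μ hμ => h3 μ (mem_filter.1 hμ).2), sum_const, nsmul_eq_mul] at h1
  have h4 : (univ.filter fun μ => wt ρ K μ ≠ 0).card * m = Module.finrank ℂ V := by
    exact_mod_cast h1
  exact ⟨fun h => hd (h4 ▸ h.mul_right _), m, fun h => hd (h4 ▸ h.mul_left _), h3⟩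

end Pool.Agent.Lib.MP_ec19ea_al
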